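import Pool.Agent.V5helper2.QL.Stm

/-!
# Job CORE1 of project QL: a square factor modulo a prime
-/

set_option autoImplicit false

namespace Pool.Agent.V5helper2.QL

open Polynomial Filter

noncomputable section

namespace Core1

open Classical in
/-- an algebraic integer as an element of the ring of the algebraic integers -/
def li (x : Om) : AA := if h : x ∈ integralClosure ℤ Om then ⟨x, h⟩ else 0

theorem li_coe {x : Om} (h : x ∈ integralClosure ℤ Om) : ((li x : AA) : Om) = x := by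
  unfold li
  rw [dif_pos h]

theorem coe_inj {c d : AA} (h : (c : Om) = d) : c = d := Subtype.ext h

/-- the product of the `X - φ s` -/
def PI {R : Type} [CommRing R] (φ : AA →+* R) (M : Multiset Om) : R[X] :=
  (M.map fun s => (X - C (φ (li s)) : R[X])).prod

theorem PI_add {R : Type} [CommRing R] (φ : AA →+* R) (M N : Multiset Om) :
    PI φ (M + N) = PI φ M * PI φ N := by
  unfold PI
  rw [Multiset.map_add, Multiset.prod_add]

theorem PI_dvd {R : Type} [CommRing R] (φ : AA →+* R) {M N : Multiset Om} (h : M ≤ N) :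
    PI φ M ∣ PI φ N := by
  obtain ⟨K, rfl⟩ := Multiset.le_iff_exists_add.1 h
  rw [PI_add]
  exact dvd_mul_right _ _

theorem PI_monic {R : Type} [CommRing R] (φ : AA →+* R) (M : Multiset Om) :
    (PI φ M).Monic := by
  unfold PI
  exact monic_multiset_prod_of_monic _ _ fun _ _ => monic_X_sub_C _

theorem PI_degree {k : Type} [Field k] (φ : AA →+* k) (M : Multiset Om) :
    (PI φ M).natDegree = M.card := by
  have h : PI φ M = ((M.map fun s => φ (li s)).map fun a => (X - C a : k[X])).prod := by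
    unfold PI
    rw [Multiset.map_map]
    rfl
  rw [h, natDegree_multiset_prod_X_sub_C_eq_card, Multiset.card_map]

theorem PI_map {R R' : Type} [CommRing R] [CommRing R'] (φ : AA →+* R) (ψ : R →+* R')
    (M : Multiset Om) : (PI φ M).map ψ = PI (ψ.comp φ) M := by
  unfold PI
  rw [Polynomial.map_multiset_prod, Multiset.map_map]
  congr 1
  refine Multiset.map_congr rfl fun s _ => ?_
  simp

/-- all roots -/
def Ts (P : ℤ[X]) : Multiset Om := (P.map (Int.castRingHom Om)).roots

theorem Ts_int {P : ℤ[X]} (hP : P.Monic) {x : Om} (hx : x ∈ Ts P) :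
    x ∈ integralClosure ℤ Om := by
  unfold Ts at hx
  have h := (mem_roots'.1 hx).2
  refine ⟨P, hP, ?_⟩
  rw [IsRoot.def, eval_map] at h
  exact h

theorem Ts_prod {P : ℤ[X]} (hP : P.Monic) :
    P.map (Int.castRingHom AA) = PI (RingHom.id AA) (Ts P) := by
  have hinj : Function.Injective (algebraMap AA Om) := Subtype.val_injective
  apply Polynomial.map_injective _ hinj
  rw [PI_map, Polynomial.map_map]
  have e1 : (algebraMap AA Om).comp (Int.castRingHom AA) = Int.castRingHom Om :=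
    RingHom.ext_int _ _
  rw [e1]
  have hs : (P.map (Int.castRingHom Om)).Splits := IsAlgClosed.splits _
  have h1 := hs.eq_prod_roots_of_monic (hP.map _)
  rw [h1]
  unfold PI
  congr 1
  refine Multiset.map_congr rfl fun s hs => ?_
  congr 2
  change s = ((li s : AA) : Om)
  exact (li_coe (Ts_int hP hs)).symm

theorem PI_Ts {P : ℤ[X]} (hP : P.Monic) {k : Type} [Field k] (φ : AA →+* k) :
    P.map (Int.castRingHom k) = PI φ (Ts P) := by
  have h := congrArg (Polynomial.map φ) (Ts_prod hP)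
  rw [PI_map, Polynomial.map_map] at h
  have e1 : φ.comp (Int.castRingHom AA) = Int.castRingHom k := RingHom.ext_int _ _
  rw [e1] at h
  exact h

theorem Ts_map (P : ℤ[X]) (σ : Om ≃ₐ[ℚ] Om) : (Ts P).map σ = Ts P := by
  have hs : (P.map (Int.castRingHom Om)).Splits := IsAlgClosed.splits _
  have h := hs.roots_map (σ : Om →+* Om)
  rw [Polynomial.map_map] at h
  have e1 : (σ : Om →+* Om).comp (Int.castRingHom Om) = Int.castRingHom Om := RingHom.ext_int _ _
  rw [e1] at h
  exact h.symm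

theorem outs_le (P : ℤ[X]) : outs P ≤ Ts P := by
  unfold outs Ts
  exact Multiset.filter_le _ _

theorem outs_map_le (P : ℤ[X]) (σ : Om ≃ₐ[ℚ] Om) : (outs P).map σ ≤ Ts P := by
  rw [← Ts_map P σ]
  exact Multiset.map_le_map (outs_le P)

theorem sg_li (σ : Om ≃ₐ[ℚ] Om) {x : Om} (hx : x ∈ integralClosure ℤ Om) :
    li (σ x) = sg σ (li x) := by
  have h1 : ((sg σ (li x) : AA) : Om) = σ x := by
    change σ ((li x : AA) : Om) = σ x
    rw [li_coe hx]
  have h2 : σ x ∈ integralClosure ℤ Om := by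
    rw [← h1]
    exact (sg σ (li x)).2
  apply coe_inj
  rw [li_coe h2, h1]

theorem PI_sg {R : Type} [CommRing R] (φ : AA →+* R) (σ : Om ≃ₐ[ℚ] Om) (M : Multiset Om)
    (hM : ∀ x ∈ M, x ∈ integralClosure ℤ Om) :
    PI φ (M.map σ) = (PI (RingHom.id AA) M).map (φ.comp (sg σ : AA →+* AA)) := by
  rw [PI_map]
  unfold PI
  rw [Multiset.map_map]
  congr 1
  refine Multiset.map_congr rfl fun s hs => ?_
  simp only [Function.comp_apply, RingHom.comp_apply, RingHom.id_apply]
  rw [sg_li σ (hM s hs)]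
  rfl

/-- the coefficients of `∏ (X - s)` are in `ℚ(b)` -/
theorem coeff_mem (S : Multiset Om) (hS : ∀ x ∈ S, x ∈ integralClosure ℤ Om) (b : Om)
    (h : ∀ ρ : Om ≃ₐ[ℚ] Om, ρ b = b → S.map ρ = S) (i : ℕ) :
    (((PI (RingHom.id AA) S).coeff i : AA) : Om) ∈ IntermediateField.adjoin ℚ ({b} : Set Om) := by
  rw [← InfiniteGalois.fixedField_fixingSubgroup (IntermediateField.adjoin ℚ ({b} : Set Om)),
    IntermediateField.mem_fixedField_iff]
  intro ρ hρ
  have hb : ρ b = b := by
    rw [IntermediateField.mem_fixingSubgroup_iff] at hρ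
    exact hρ b (IntermediateField.mem_adjoin_simple_self ℚ b)
  have h1 := h ρ hb
  have h2 := PI_sg (RingHom.id AA) ρ S hS
  rw [h1] at h2
  have h3 := congrArg (fun q : AA[X] => ((q.coeff i : AA) : Om)) h2
  simp only [coeff_map] at h3
  exact h3.symm

end Core1

open Core1

theorem core1 : S_CORE1 := by
  classical
  intro P b k _ φ σ τ hP hφ hb
  have hT : ∀ x ∈ Ts P, x ∈ integralClosure ℤ Om := fun x hx => Ts_int hP hx
  have hS : ∀ x ∈ outs P, x ∈ integralClosure ℤ Om :=
    fun x hx => hT x (Multiset.mem_of_le (outs_le P) hx)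
  have h1 : PI φ ((outs P).map σ) = PI φ ((outs P).map τ) := by
    rw [PI_sg φ σ _ hS, PI_sg φ τ _ hS]
    ext i
    rw [coeff_map, coeff_map]
    exact hφ _ (coeff_mem (outs P) hS b hb i)
  set S₁ := (outs P).map σ with hS₁
  set S₂ := (outs P).map τ with hS₂
  have hA : (S₁ - S₂) + (S₁ ∩ S₂) = S₁ := Multiset.sub_add_inter _ _
  have hB : (S₂ - S₁) + (S₁ ∩ S₂) = S₂ := by
    rw [Multiset.inter_comm]
    exact Multiset.sub_add_inter _ _
  have h2 : PI φ (S₁ - S₂) = PI φ (S₂ - S₁) := by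
    have h3 : PI φ (S₁ - S₂) * PI φ (S₁ ∩ S₂) = PI φ (S₂ - S₁) * PI φ (S₁ ∩ S₂) := by
      rw [← PI_add, ← PI_add, hA, hB, h1]
    exact mul_right_cancel₀ (PI_monic φ _).ne_zero h3
  refine ⟨PI φ (S₁ - S₂), ?_, PI_degree φ _⟩
  have h4 : (S₁ - S₂) + (S₂ - S₁) ≤ Ts P := by
    have h5 : S₁ ∪ S₂ ≤ Ts P := Multiset.union_le (outs_map_le P σ) (outs_map_le P τ)
    have h6 : S₁ ∪ S₂ = (S₁ - S₂) + S₂ := rfl
    rw [h6] at h5
    refine le_trans ?_ h5
    exact add_le_add le_rfl (Multiset.sub_le_self _ _)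
  rw [PI_Ts hP φ, pow_two]
  nth_rewrite 2 [h2]
  rw [← PI_add]
  exact PI_dvd φ h4

end

end Pool.Agent.V5helper2.QL
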