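import Pool.Agent.V5helper2.QL.Stm

/-!
# Project QL, job CORE2 (by helper50)
-/

set_option autoImplicit false

namespace Pool.Agent.V5helper2.QL

open Polynomial

noncomputable section

open Classical in
theorem core2_map_sub {α : Type} (e : α ≃ α) (s t : Multiset α) :
    (s - t).map e = s.map e - t.map e := by
  ext x
  obtain ⟨y, rfl⟩ := e.surjective x
  rw [Multiset.count_sub, Multiset.count_map_eq_count' _ _ e.injective,
    Multiset.count_map_eq_count' _ _ e.injective, Multiset.count_map_eq_count' _ _ e.injective,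
    Multiset.count_sub]

/-- if `ρ σ b = ρ' σ b` then `ρ σ S = ρ' σ S`. -/
theorem core2_same {S : Multiset Om} {b : Om}
    (hfix : ∀ ρ : Om ≃ₐ[ℚ] Om, ρ b = b → S.map ρ = S) (σ₁ σ₂ : Om ≃ₐ[ℚ] Om)
    (h : σ₁ b = σ₂ b) : S.map σ₁ = S.map σ₂ := by
  have h1 := hfix (σ₁.trans σ₂.symm) (by simp [AlgEquiv.trans_apply, h])
  have h2 : (S.map (σ₁.trans σ₂.symm)).map σ₂ = S.map σ₂ := by rw [h1]
  rw [Multiset.map_map] at h2
  rw [← h2]
  apply Multiset.map_congr rfl
  intro x _
  simp

open Classical in
theorem core2_card_rootSet (x : Om) :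
    ((minpoly ℚ x).aroots Om).toFinset.card = (minpoly ℚ x).natDegree := by
  have hirr : Irreducible (minpoly ℚ x) := minpoly.irreducible (Algebra.IsIntegral.isIntegral x)
  have h := Polynomial.card_rootSet_eq_natDegree (K := Om) hirr.separable
    (IsAlgClosed.splits _)
  rw [← h, ← Set.toFinset_card]
  congr 1
  ext y
  simp [Polynomial.mem_rootSet]

theorem core2 : S_CORE2 := by
  classical
  intro S b σ τ D hfix hne hD
  set A : Multiset Om := S.map σ - S.map τ with hA
  have hA0 : A ≠ 0 := by
    intro h0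
    apply hne
    apply Multiset.eq_of_le_of_card_le
    · exact tsub_eq_zero_iff_le.mp h0
    · simp
  obtain ⟨α₁, hα₁⟩ := Multiset.exists_mem_of_ne_zero hA0
  have hα₁' : α₁ ∈ S.map σ := Multiset.mem_of_le (tsub_le_self) hα₁
  obtain ⟨α, hαS, rfl⟩ := Multiset.mem_map.mp hα₁'
  refine ⟨α, hαS, ?_⟩
  have hmin : minpoly ℚ (σ α) = minpoly ℚ α := minpoly.algEquiv_eq σ α
  set R : Finset Om := ((minpoly ℚ (σ α)).aroots Om).toFinset with hR
  have hRcard : R.card = (minpoly ℚ α).natDegree := by
    rw [hR, core2_card_rootSet, hmin]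
  have hex : ∀ r : Om, r ∈ R → ∃ ρ : Om ≃ₐ[ℚ] Om, ρ (σ α) = r := by
    intro r hr
    rw [hR, Multiset.mem_toFinset, Polynomial.mem_aroots] at hr
    exact minpoly.exists_algEquiv_of_root' (Algebra.IsAlgebraic.isAlgebraic (σ α)) hr.2
  choose! ρ hρ using hex
  set X : Finset Om := ((minpoly ℚ b).aroots Om).toFinset with hX
  have hXcard : X.card = Module.finrank ℚ (IntermediateField.adjoin ℚ ({b} : Set Om)) := by
    rw [hX, core2_card_rootSet, IntermediateField.adjoin.finrank
      (Algebra.IsIntegral.isIntegral b)]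
  have hmemX : ∀ θ : Om ≃ₐ[ℚ] Om, θ b ∈ X := by
    intro θ
    rw [hX, Multiset.mem_toFinset, Polynomial.mem_aroots]
    refine ⟨minpoly.ne_zero (Algebra.IsIntegral.isIntegral b), ?_⟩
    rw [Polynomial.aeval_algHom_apply θ b (minpoly ℚ b) |>.trans (by rw [minpoly.aeval, map_zero])]
  have hmain : R.card ≤ D * (X ×ˢ X).card := by
    refine Finset.card_le_mul_card_image_of_maps_to (f := fun r => (ρ r (σ b), ρ r (τ b))) ?_ D ?_
    · intro r hr
      rw [Finset.mem_product]
      exact ⟨by simpa using hmemX (σ.trans (ρ r)), by simpa using hmemX (τ.trans (ρ r))⟩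
    · intro q hq
      rcases Finset.eq_empty_or_nonempty (R.filter fun r => (ρ r (σ b), ρ r (τ b)) = q) with he | he
      · rw [he]; simp
      · obtain ⟨r₀, hr₀⟩ := he
        have hsub : (R.filter fun r => (ρ r (σ b), ρ r (τ b)) = q) ⊆ (A.map (ρ r₀)).toFinset := by
          intro r hr
          rw [Finset.mem_filter] at hr hr₀
          have e0 : (ρ r (σ b), ρ r (τ b)) = (ρ r₀ (σ b), ρ r₀ (τ b)) := by rw [hr.2, hr₀.2]
          obtain ⟨e1, e2⟩ := Prod.mk.inj e0
          have f1 := core2_same hfix (σ.trans (ρ r)) (σ.trans (ρ r₀)) (by simpa using e1)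
          have f2 := core2_same hfix (τ.trans (ρ r)) (τ.trans (ρ r₀)) (by simpa using e2)
          have g1 : ∀ (θ κ : Om ≃ₐ[ℚ] Om), S.map (θ.trans κ) = (S.map θ).map κ := by
            intro θ κ
            rw [Multiset.map_map]
            rfl
          rw [g1, g1] at f1 f2
          have hmap : ∀ κ : Om ≃ₐ[ℚ] Om, A.map κ = (S.map σ).map κ - (S.map τ).map κ := by
            intro κ
            exact core2_map_sub κ.toEquiv _ _
          have hAA : A.map (ρ r) = A.map (ρ r₀) := by
            rw [hmap, hmap, f1, f2]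
          rw [Multiset.mem_toFinset, ← hAA]
          have := hρ r hr.1
          rw [Multiset.mem_map]
          exact ⟨σ α, hα₁, this⟩
        calc (R.filter fun r => (ρ r (σ b), ρ r (τ b)) = q).card
            ≤ (A.map (ρ r₀)).toFinset.card := Finset.card_le_card hsub
          _ ≤ Multiset.card (A.map (ρ r₀)) := Multiset.toFinset_card_le _
          _ = Multiset.card A := Multiset.card_map _ _
          _ ≤ D := hD
  rw [hRcard, Finset.card_product, hXcard] at hmain
  calc (minpoly ℚ α).natDegree ≤ _ := hmain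
    _ = _ := by ring

end

end Pool.Agent.V5helper2.QL
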