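import Pool.Agent.V5helper2.QL.Stm

set_option autoImplicit false

namespace Pool.Agent.V5helper2.QL

open Polynomial Filter MeasureTheory Pool.Agent.H261R2.CM

noncomputable section

/-- Job ELIM. -/
theorem elim : S_ELIM := by
  intro k _ p _ d a R U V m g hpm hid hg
  set r : ℤ →+* k := Int.castRingHom k with hr
  set Φ : ℤ[X][X] →+* k[X] := Polynomial.eval₂RingHom (Polynomial.mapRingHom r) (X ^ m) with hΦ
  have hC : ∀ q : ℤ[X], Φ (C q) = q.map r := fun q => by
    rw [hΦ, Polynomial.coe_eval₂RingHom, Polynomial.eval₂_C, Polynomial.coe_mapRingHom]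
  have hX : Φ X = X ^ m := by
    rw [hΦ, Polynomial.coe_eval₂RingHom, Polynomial.eval₂_X]
  have hm0 : (m : k) = 0 := (CharP.cast_eq_zero_iff k p m).mpr hpm
  have h1 : Φ (∑ j ∈ Finset.range (d + 1), C (a j) * X ^ j) = (Pm d a m).map r := by
    rw [map_sum, Pm, Polynomial.map_sum]
    refine Finset.sum_congr rfl fun j _ => ?_
    rw [map_mul, map_pow, hC, hX, Polynomial.map_mul, Polynomial.map_pow, Polynomial.map_X,
      ← pow_mul, mul_comm m j]
  have h2 : Φ (∑ j ∈ Finset.range (d + 1), C (derivative (a j)) * X ^ j) =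
      derivative ((Pm d a m).map r) := by
    rw [map_sum, Pm, Polynomial.map_sum, Polynomial.derivative_sum]
    refine Finset.sum_congr rfl fun j _ => ?_
    rw [map_mul, map_pow, hC, hX, Polynomial.map_mul, Polynomial.map_pow, Polynomial.map_X,
      Polynomial.derivative_mul, Polynomial.derivative_X_pow, ← pow_mul, mul_comm m j,
      Polynomial.derivative_map]
    have : ((j * m : ℕ) : k) = 0 := by rw [Nat.cast_mul, hm0, mul_zero]
    rw [this, map_zero, zero_mul, mul_zero, add_zero]
  have h3 := congrArg Φ hid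
  rw [map_add, map_mul, map_mul, h1, h2, hC] at h3
  rw [← h3]
  have hgP : g ∣ (Pm d a m).map r := (Dvd.intro_left g (by ring : g * g = g ^ 2)).trans hg
  have hgP' : g ∣ derivative ((Pm d a m).map r) := by
    obtain ⟨q, hq⟩ := hg
    rw [hq, Polynomial.derivative_mul, pow_two, Polynomial.derivative_mul]
    exact ⟨derivative g * q + derivative g * q + g * derivative q, by ring⟩
  exact dvd_add (hgP.mul_left _) (hgP'.mul_left _)

end

end Pool.Agent.V5helper2.QL
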