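import Pool.Agent.V5helper2.QL.Stm

/-!
# Project QL, job FIX (by helper50)
-/

set_option autoImplicit false

namespace Pool.Agent.V5helper2.QL

open Polynomial Pool.Agent.H261R2.CM

noncomputable section

theorem fix_prod_max {α : Type} (f : α → ℝ) [DecidablePred fun z => 1 < f z] (T : Multiset α) :
    (T.map fun z => max 1 (f z)).prod = ((T.filter fun z => 1 < f z).map f).prod := by
  induction T using Multiset.induction_on with
  | empty => simp
  | cons a T ih =>
    by_cases h : 1 < f a
    · rw [Multiset.filter_cons_of_pos (p := fun z => 1 < f z) _ h, Multiset.map_cons, Multiset.prod_cons,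
        Multiset.map_cons, Multiset.prod_cons, ih, max_eq_right h.le]
    · rw [Multiset.filter_cons_of_neg (p := fun z => 1 < f z) _ h, Multiset.map_cons, Multiset.prod_cons, ih,
        max_eq_left (not_lt.mp h), one_mul]

theorem fix_prod_le_one {α : Type} (f : α → ℝ) (T : Multiset α) (h0 : ∀ z ∈ T, 0 ≤ f z)
    (h : ∀ z ∈ T, f z ≤ 1) : 0 ≤ (T.map f).prod ∧ (T.map f).prod ≤ 1 := by
  induction T using Multiset.induction_on with
  | empty => simp
  | cons a T ih =>
    obtain ⟨h1, h2⟩ := ih (fun z hz => h0 z (Multiset.mem_cons_of_mem hz))
      (fun z hz => h z (Multiset.mem_cons_of_mem hz))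
    have h3 := h0 a (Multiset.mem_cons_self a T)
    have h4 := h a (Multiset.mem_cons_self a T)
    rw [Multiset.map_cons, Multiset.prod_cons]
    exact ⟨mul_nonneg h3 h1, mul_le_one₀ h4 h1 h2⟩

theorem fix_one_le_prod {α : Type} (f : α → ℝ) (T : Multiset α)
    (h : ∀ z ∈ T, 1 < f z) : 1 ≤ (T.map f).prod ∧ (T ≠ 0 → 1 < (T.map f).prod) := by
  induction T using Multiset.induction_on with
  | empty => simp
  | cons a T ih =>
    obtain ⟨h1, -⟩ := ih (fun z hz => h z (Multiset.mem_cons_of_mem hz))
    have h4 := h a (Multiset.mem_cons_self a T)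
    rw [Multiset.map_cons, Multiset.prod_cons]
    have h5 : 1 < f a * (T.map f).prod := by nlinarith
    exact ⟨h5.le, fun _ => h5⟩

open Classical in
/-- The extremal property of the sub-multiset of the large elements. -/
theorem fix_extremal {α : Type} (f : α → ℝ) (T U : Multiset α) (h0 : ∀ z, 0 ≤ f z) (hU : U ≤ T)
    (hcard : U.card = (T.filter fun z => 1 < f z).card)
    (hprod : (U.map f).prod = ((T.filter fun z => 1 < f z).map f).prod) :
    U = T.filter fun z => 1 < f z := by
  set S := T.filter fun z => 1 < f z with hS
  have hmemS : ∀ z ∈ S, 1 < f z := by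
    intro z hz
    exact (Multiset.mem_filter.mp hz).2
  have e1 : U = (U ∩ S) + (U - S) := by
    ext z
    rw [Multiset.count_add, Multiset.count_inter, Multiset.count_sub]
    omega
  have e2 : S = (U ∩ S) + (S - U) := by
    ext z
    rw [Multiset.count_add, Multiset.count_inter, Multiset.count_sub]
    omega
  have p1 : (U.map f).prod = ((U ∩ S).map f).prod * ((U - S).map f).prod := by
    conv_lhs => rw [e1]
    rw [Multiset.map_add, Multiset.prod_add]
  have p2 : (S.map f).prod = ((U ∩ S).map f).prod * ((S - U).map f).prod := by
    conv_lhs => rw [e2]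
    rw [Multiset.map_add, Multiset.prod_add]
  have q1 := (fix_one_le_prod f (U ∩ S) (fun z hz => hmemS z (Multiset.mem_of_le
    Multiset.inter_le_right hz))).1
  have q2 := fix_one_le_prod f (S - U) (fun z hz => hmemS z (Multiset.mem_of_le tsub_le_self hz))
  have q3 := fix_prod_le_one f (U - S) (fun z _ => h0 z) (by
    intro z hz
    by_contra hlt
    push Not at hlt
    have h1 : Multiset.count z S = Multiset.count z T := by
      rw [hS]
      exact Multiset.count_filter_of_pos (p := fun z => 1 < f z) hlt
    have h2 : Multiset.count z U ≤ Multiset.count z T := Multiset.count_le_of_le z hU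
    have h3 : 0 < Multiset.count z (U - S) := Multiset.count_pos.mpr hz
    rw [Multiset.count_sub] at h3
    omega)
  have q4 : ((U - S).map f).prod = ((S - U).map f).prod := by
    have : ((U ∩ S).map f).prod * ((U - S).map f).prod =
        ((U ∩ S).map f).prod * ((S - U).map f).prod := by
      rw [← p1, ← p2, hprod]
    exact mul_left_cancel₀ (by linarith) this
  have q5 : S - U = 0 := by
    by_contra hne
    have := q2.2 hne
    linarith [q3.2]
  have q6 : S ≤ U := tsub_eq_zero_iff_le.mp q5
  exact (Multiset.eq_of_le_of_card_le q6 hcard.le).symm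

theorem fix_toC (P : ℤ[X]) : toC P = (P.map (Int.castRingHom Om)).map io := by
  rw [toC, Polynomial.map_map]
  congr 1
  exact RingHom.ext_int _ _

theorem fix_roots (P : ℤ[X]) : (toC P).roots = (P.map (Int.castRingHom Om)).roots.map io := by
  rw [fix_toC]
  exact Polynomial.Splits.roots_map (IsAlgClosed.splits _) io

theorem fix_norm_prod (S : Multiset Om) : ‖io S.prod‖ = (S.map fun z => ‖io z‖).prod := by
  induction S using Multiset.induction_on with
  | empty => simp
  | cons a S ih =>
    rw [Multiset.prod_cons, map_mul, norm_mul, ih, Multiset.map_cons, Multiset.prod_cons]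

theorem fix : S_FIX := by
  classical
  intro P hP
  set T := (P.map (Int.castRingHom Om)).roots with hT
  have houts : outs P = T.filter fun z => 1 < ‖io z‖ := by
    unfold outs
    congr
  refine ⟨?_, ?_, ?_⟩
  · rw [fix_norm_prod, houts, m1, Polynomial.mahlerMeasure_eq_leadingCoeff_mul_prod_roots,
      fix_roots, Multiset.map_map]
    have hl : (toC P).leadingCoeff = 1 := by
      rw [toC]
      exact (hP.map _).leadingCoeff
    rw [hl, norm_one, one_mul, ← fix_prod_max (fun z => ‖io z‖) T]
    rfl
  · have h1 : ((starRingEnd ℂ) (io (outs P).prod)) = io (outs P).prod := by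
      have hmapio : (outs P).map io = (toC P).roots.filter fun z => 1 < ‖z‖ := by
        rw [fix_roots, houts, Multiset.filter_map]
        rfl
      have hconj : ((toC P).roots).map (starRingEnd ℂ) = (toC P).roots := by
        rw [← Polynomial.Splits.roots_map (IsAlgClosed.splits _) (starRingEnd ℂ)]
        congr 1
        rw [toC, Polynomial.map_map]
        congr 1
        exact RingHom.ext_int _ _
      have hprod : io (outs P).prod = ((outs P).map io).prod := by
        rw [map_multiset_prod]
      rw [hprod, map_multiset_prod, hmapio]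
      congr 1
      conv_rhs => rw [← hconj, Multiset.filter_map]
      congr 1
      apply Multiset.filter_congr
      intro z _
      simp
    exact Complex.conj_eq_iff_im.mp h1
  · intro σ hσ
    rw [houts] at hσ ⊢
    apply fix_extremal (fun z => ‖io z‖) T _ (fun z => norm_nonneg _)
    · calc ((T.filter fun z => 1 < ‖io z‖).map σ) ≤ T.map σ :=
            Multiset.map_le_map (Multiset.filter_le _ _)
        _ = T := by
          rw [hT]
          have := Polynomial.Splits.roots_map (f := P.map (Int.castRingHom Om))
            (IsAlgClosed.splits _) (σ : Om →+* Om)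
          rw [Polynomial.map_map, show (σ : Om →+* Om).comp (Int.castRingHom Om) =
            Int.castRingHom Om from RingHom.ext_int _ _] at this
          exact this.symm
    · simp
    · rw [← fix_norm_prod, ← fix_norm_prod, ← hσ, map_multiset_prod σ]

end

end Pool.Agent.V5helper2.QL
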