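import Pool.Agent.V5helper2.QL.Stm

/-!
# Job FUB: Fubini for the Mahler measure in two variables, coefficient bounds
-/

set_option autoImplicit false

namespace Pool.Agent.V5helper2.QL

open Polynomial Filter MeasureTheory Pool.Agent.H261R2.CM

noncomputable section

/-- the polynomial in `y` above the point `ez s` -/
def fubq (d : ℕ) (a : ℕ → ℤ[X]) (s : ℝ) : ℂ[X] :=
  ∑ j ∈ Finset.range (d + 1), C (ev1 (a j) s) * X ^ j

theorem fub_coeff (d : ℕ) (a : ℕ → ℤ[X]) (s : ℝ) (j : ℕ) (hj : j ≤ d) :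
    (fubq d a s).coeff j = ev1 (a j) s := by
  simp only [fubq, finsetSum_coeff, coeff_C_mul, coeff_X_pow]
  rw [Finset.sum_eq_single j]
  · simp
  · intro b _ hb
    rw [if_neg (fun h => hb h.symm), mul_zero]
  · intro h
    exact absurd (Finset.mem_range.mpr (by omega)) h

theorem fub_natDegree (d : ℕ) (a : ℕ → ℤ[X]) (s : ℝ) (h : ev1 (a d) s ≠ 0) :
    (fubq d a s).natDegree = d := by
  refine natDegree_eq_of_le_of_coeff_ne_zero ?_ ?_
  · refine natDegree_sum_le_of_forall_le _ _ fun j hj => ?_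
    refine (natDegree_C_mul_X_pow_le _ _).trans ?_
    have := Finset.mem_range.mp hj
    omega
  · rw [fub_coeff d a s d le_rfl]
    exact h

theorem fub_tv (d : ℕ) (a : ℕ → ℤ[X]) (t : Fin 2 → ℝ) :
    tv (G2 d a) t = (fubq d a (t 0)).eval (ez (t 1)) := by
  have h1 : ∀ p : ℤ[X], MvPolynomial.eval₂Hom (Int.castRingHom ℂ)
      (fun j : Fin 2 => Complex.exp (2 * (Real.pi : ℂ) * Complex.I * ((t j : ℝ) : ℂ)))
      (Polynomial.aeval (MvPolynomial.X 0 : MvPolynomial (Fin 2) ℤ) p) = ev1 p (t 0) := by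
    intro p
    rw [aeval_def, hom_eval₂, MvPolynomial.coe_eval₂Hom, MvPolynomial.eval₂_X, ev1, toC, eval_map]
    congr 1
    exact RingHom.ext_int _ _
  unfold tv
  rw [MvPolynomial.eval_map, ← MvPolynomial.coe_eval₂Hom, G2, map_sum, fubq, eval_finsetSum]
  refine Finset.sum_congr rfl fun j _ => ?_
  rw [map_mul, h1, map_pow, eval_mul, eval_C, eval_pow, eval_X, MvPolynomial.coe_eval₂Hom,
    MvPolynomial.eval₂_X]
  rfl

theorem fub_ne (d : ℕ) (a : ℕ → ℤ[X]) (ha : a d ≠ 0) : G2 d a ≠ 0 := by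
  intro h0
  obtain ⟨s, hs⟩ := (D_ae_ne (a d) ha).exists
  have h1 : fubq d a s = 0 := by
    refine Polynomial.eq_zero_of_infinite_isRoot _ ?_
    have h2 : Set.Infinite (ez '' (Set.Ioo (0:ℝ) 1)) := by
      refine Set.Infinite.image ?_ (Set.Ioo_infinite one_pos)
      intro x hx y hy hxy
      simp only [ez] at hxy
      rw [Complex.exp_eq_exp_iff_exists_int] at hxy
      obtain ⟨n, hn⟩ := hxy
      have hne : (2 * (Real.pi : ℂ) * Complex.I) ≠ 0 := Complex.two_pi_I_ne_zero
      have h3 : (x : ℂ) = y + n := by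
        apply mul_left_cancel₀ hne
        rw [hn]
        ring
      have h4 : x = y + n := by exact_mod_cast h3
      have h5 : n = 0 := by
        have h6 : (-1 : ℝ) < n := by linarith [hx.1, hy.2]
        have h7 : (n : ℝ) < 1 := by linarith [hx.2, hy.1]
        have h8 : -1 < n := by exact_mod_cast h6
        have h9 : n < 1 := by exact_mod_cast h7
        omega
      rw [h4, h5]
      simp
    refine h2.mono ?_
    rintro _ ⟨u, _, rfl⟩
    have h3 := fub_tv d a ![s, u]
    rw [h0] at h3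
    simp only [tv, map_zero, Matrix.cons_val_zero, Matrix.cons_val_one] at h3
    exact h3.symm
  apply hs
  rw [← fub_coeff d a s d le_rfl, h1, coeff_zero]

/-- log Mahler measure as an integral over `Icc 0 1` -/
theorem fub_log (p : ℂ[X]) :
    ∫ u in Set.Icc (0:ℝ) 1, Real.log ‖p.eval (ez u)‖ = p.logMahlerMeasure := by
  rw [logMahlerMeasure_def, D_circleAverage (fun z => Real.log ‖p.eval z‖),
    intervalIntegral.integral_of_le zero_le_one, integral_Icc_eq_integral_Ioc]

theorem fub_int (d : ℕ) (a : ℕ → ℤ[X]) (ha : a d ≠ 0) :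
    Integrable (fun s : ℝ => (fubq d a s).logMahlerMeasure)
      ((volume : Measure ℝ).restrict (Set.Icc (0:ℝ) 1)) ∧
    Real.log (mM (G2 d a)) = ∫ s in Set.Icc (0:ℝ) 1, (fubq d a s).logMahlerMeasure := by
  set μ := (volume : Measure ℝ).restrict (Set.Icc (0:ℝ) 1) with hμ
  have hF := F_integrable (fub_ne d a ha)
  rw [F_restrict_cube] at hF
  have hmp := (measurePreserving_finTwoArrow μ).symm
  have h1 : Integrable (fun p : ℝ × ℝ => Real.log ‖(fubq d a p.1).eval (ez p.2)‖) (μ.prod μ) := by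
    have h2 := (hmp.integrable_comp_emb
      (MeasurableEquiv.measurableEmbedding _)).mpr hF
    refine h2.congr (Eventually.of_forall fun p => ?_)
    simp only [Function.comp_apply]
    rw [fub_tv]
    rfl
  have h3 : ∀ s : ℝ, ∫ u, Real.log ‖(fubq d a s).eval (ez u)‖ ∂μ =
      (fubq d a s).logMahlerMeasure := fun s => fub_log _
  constructor
  · have h4 := h1.integral_prod_left
    simp only [h3] at h4
    exact h4
  · rw [mM, Real.log_exp, F_restrict_cube]
    have h5 := hmp.integral_comp (MeasurableEquiv.measurableEmbedding _)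
      (fun t : Fin 2 → ℝ => Real.log ‖tv (G2 d a) t‖)
    rw [← h5]
    have h6 : (fun p : ℝ × ℝ => Real.log ‖tv (G2 d a)
        ((MeasurableEquiv.finTwoArrow (α := ℝ)).symm p)‖) =
        fun p : ℝ × ℝ => Real.log ‖(fubq d a p.1).eval (ez p.2)‖ := by
      funext p
      rw [fub_tv]
      rfl
    rw [h6, integral_prod _ h1]
    simp only [h3]

/-- the lower bounds for the fibres -/
theorem fub_fibre (d : ℕ) (a : ℕ → ℤ[X]) (s : ℝ) (h : ev1 (a d) s ≠ 0) :
    Real.log ‖ev1 (a d) s‖ ≤ (fubq d a s).logMahlerMeasure ∧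
    ∀ j, j ≤ d → (d.choose j : ℝ) * ‖ev1 (a d) s‖ < ‖ev1 (a j) s‖ →
      Real.log ‖ev1 (a d) s‖ < (fubq d a s).logMahlerMeasure := by
  have h0 : 0 < ‖ev1 (a d) s‖ := norm_pos_iff.mpr h
  have hd := fub_natDegree d a s h
  rw [logMahlerMeasure_eq_log_MahlerMeasure]
  constructor
  · refine Real.log_le_log h0 ?_
    have h1 := leadingCoeff_le_mahlerMeasure (fubq d a s)
    rwa [leadingCoeff, hd, fub_coeff d a s d le_rfl] at h1
  · intro j hj hlt
    refine Real.log_lt_log h0 ?_
    have h1 := norm_coeff_le_choose_mul_mahlerMeasure j (fubq d a s)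
    rw [hd, fub_coeff d a s j hj] at h1
    have h2 : (0:ℝ) < d.choose j := by exact_mod_cast Nat.choose_pos hj
    exact lt_of_mul_lt_mul_left (hlt.trans_le h1) h2.le

theorem fub_ez_surj (x : ℂ) (hx : ‖x‖ = 1) : ∃ s : ℝ, 0 ≤ s ∧ s < 1 ∧ ez s = x := by
  have hpi : (0:ℝ) < 2 * Real.pi := by positivity
  have h1 : ez (x.arg / (2 * Real.pi)) = x := by
    have h2 := Complex.norm_mul_exp_arg_mul_I x
    rw [hx, Complex.ofReal_one, one_mul] at h2
    rw [ez]
    conv_rhs => rw [← h2]
    congr 1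
    have hpi' : (Real.pi : ℂ) ≠ 0 := by exact_mod_cast Real.pi_ne_zero
    push_cast
    field_simp
  obtain ⟨c, hc⟩ : ∃ c : ℝ, c = x.arg / (2 * Real.pi) := ⟨_, rfl⟩
  rw [← hc] at h1
  refine ⟨Int.fract c, Int.fract_nonneg _, Int.fract_lt_one _, ?_⟩
  rw [← h1]
  simp only [ez]
  rw [Complex.exp_eq_exp_iff_exists_int]
  refine ⟨-⌊c⌋, ?_⟩
  have h3 : Int.fract c = c - (⌊c⌋ : ℝ) := rfl
  rw [h3]
  push_cast
  ring

theorem fub : S_FUB := by
  intro d a ha
  obtain ⟨hint, hlog⟩ := fub_int d a ha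
  set μ := (volume : Measure ℝ).restrict (Set.Icc (0:ℝ) 1) with hμ
  have hint2 : Integrable (fun s : ℝ => Real.log ‖ev1 (a d) s‖) μ := by
    have h1 := D_intervalIntegrable_log (a d)
    rw [intervalIntegrable_iff_integrableOn_Icc_of_le zero_le_one] at h1
    exact h1
  have hm1 : Real.log (m1 (a d)) = ∫ s, Real.log ‖ev1 (a d) s‖ ∂μ := by
    rw [D_log_m1, intervalIntegral.integral_of_le zero_le_one, hμ, integral_Icc_eq_integral_Ioc]
  have hae : ∀ᵐ s ∂μ, ev1 (a d) s ≠ 0 := ae_restrict_of_ae (D_ae_ne (a d) ha)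
  have h1m : 1 ≤ m1 (a d) := F_one_le_m1 ha
  have hmMpos : 0 < mM (G2 d a) := Real.exp_pos _
  constructor
  · rw [← Real.log_le_log_iff (by linarith) hmMpos, hm1, hlog]
    refine integral_mono_ae hint2 hint ?_
    filter_upwards [hae] with s hs
    exact (fub_fibre d a s hs).1
  · intro x₀ j hx hj hlt
    obtain ⟨s₀, hs0, hs1, hs⟩ := fub_ez_surj x₀ hx
    have hopen : IsOpen {s : ℝ | (d.choose j : ℝ) * ‖ev1 (a d) s‖ < ‖ev1 (a j) s‖} :=
      isOpen_lt ((continuous_const).mul (D_continuous_ev1 (a d)).norm) (D_continuous_ev1 (a j)).norm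
    have hmem : s₀ ∈ {s : ℝ | (d.choose j : ℝ) * ‖ev1 (a d) s‖ < ‖ev1 (a j) s‖} := by
      simp only [Set.mem_setOf_eq, ev1, hs]
      exact hlt
    obtain ⟨ε, hε, hball⟩ := Metric.isOpen_iff.mp hopen s₀ hmem
    set e := min (s₀ + ε) 1 with he
    have hse : s₀ < e := lt_min (by linarith) hs1
    have hpos : 0 < ∫ s, ((fubq d a s).logMahlerMeasure - Real.log ‖ev1 (a d) s‖) ∂μ := by
      have hsub2 : Integrable
          (fun s => (fubq d a s).logMahlerMeasure - Real.log ‖ev1 (a d) s‖) μ := hint.sub hint2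
      rw [integral_pos_iff_support_of_nonneg_ae ?_ hsub2]
      · have hsub : Set.Ioo s₀ e \ {s : ℝ | ev1 (a d) s = 0} ⊆ Function.support
            (fun s => (fubq d a s).logMahlerMeasure - Real.log ‖ev1 (a d) s‖) := by
          rintro s ⟨hs2, hs3⟩
          have hs4 : s ∈ Metric.ball s₀ ε := by
            rw [Metric.mem_ball, Real.dist_eq, abs_lt]
            have := hs2.2.trans_le (min_le_left _ _)
            constructor <;> linarith [hs2.1]
          have h5 := (fub_fibre d a s hs3).2 j hj (hball hs4)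
          simp only [Function.mem_support, ne_eq]
          linarith
        have hz : volume {s : ℝ | ev1 (a d) s = 0} = 0 := by
          have := D_ae_ne (a d) ha
          rw [ae_iff] at this
          simpa using this
        have hIcc : Set.Ioo s₀ e \ {s : ℝ | ev1 (a d) s = 0} ⊆ Set.Icc (0:ℝ) 1 := by
          rintro s ⟨hs2, -⟩
          exact ⟨hs0.trans hs2.1.le, (hs2.2.trans_le (min_le_right _ _)).le⟩
        have hv : 0 < volume (Set.Ioo s₀ e \ {s : ℝ | ev1 (a d) s = 0}) := by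
          rw [measure_sdiff_null hz, Real.volume_Ioo, ENNReal.ofReal_pos]
          linarith
        refine lt_of_lt_of_le hv ?_
        calc volume (Set.Ioo s₀ e \ {s : ℝ | ev1 (a d) s = 0})
            = μ (Set.Ioo s₀ e \ {s : ℝ | ev1 (a d) s = 0}) := by
              rw [hμ, Measure.restrict_eq_self _ hIcc]
          _ ≤ _ := measure_mono hsub
      · filter_upwards [hae] with s hs
        have := (fub_fibre d a s hs).1
        simp only [Pi.zero_apply]
        linarith
    rw [integral_sub hint hint2, ← hlog, ← hm1] at hpos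
    have h2 : 0 ≤ Real.log (m1 (a d)) := Real.log_nonneg h1m
    have h3 : 0 < Real.log (mM (G2 d a)) := by linarith
    exact (Real.log_pos_iff hmMpos.le).mp h3

end

end Pool.Agent.V5helper2.QL
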