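import Pool.Agent.V5helper2.QL.Stm

/-!
# Job LAU of project QL: monomial substitutions do not change the Mahler measure
-/

set_option autoImplicit false

namespace Pool.Agent.V5helper2.QL

open Polynomial Filter MeasureTheory

noncomputable section

/-- normalised measure on the circle, as in `Mathlib.Analysis.Fourier.AddCircleMulti` -/
local instance lms : MeasureSpace UnitAddCircle := ⟨AddCircle.haarAddCircle⟩

local instance lhaar : Measure.IsAddHaarMeasure (volume : Measure UnitAddCircle) :=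
  inferInstanceAs (Measure.IsAddHaarMeasure AddCircle.haarAddCircle)

local instance lprob : IsProbabilityMeasure (volume : Measure UnitAddCircle) :=
  inferInstanceAs (IsProbabilityMeasure AddCircle.haarAddCircle)

/-- the point of the torus below `t` -/
def lpt (t : Fin 2 → ℝ) : UnitAddTorus (Fin 2) := fun i => ((t i : ℝ) : UnitAddCircle)

/-- the value as a function on the torus -/
def lphi (L : List (ℤ × ℤ × ℤ)) (x : UnitAddTorus (Fin 2)) : ℂ :=
  (L.map fun q => (q.1 : ℂ) * (fourier q.2.1 (x 0) * fourier q.2.2 (x 1))).sum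

lemma lphi_continuous (L : List (ℤ × ℤ × ℤ)) : Continuous (lphi L) := by
  unfold lphi
  induction L with
  | nil => simpa using continuous_const
  | cons q L ih =>
    simp only [List.map_cons, List.sum_cons]
    refine Continuous.add ?_ ih
    refine continuous_const.mul (Continuous.mul ?_ ?_)
    · exact (fourier q.2.1).continuous.comp (continuous_apply 0)
    · exact (fourier q.2.2).continuous.comp (continuous_apply 1)

lemma lval_eq (L : List (ℤ × ℤ × ℤ)) (t : Fin 2 → ℝ) : lval L t = lphi L (lpt t) := by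
  unfold lval lphi lpt
  congr 1
  refine List.map_congr_left fun q _ => ?_
  rw [fourier_coe_apply, fourier_coe_apply, ← Complex.exp_add]
  congr 2
  push_cast
  ring

lemma int_eq (g : UnitAddTorus (Fin 2) → ℝ) :
    ∫ t in Set.Icc (0 : Fin 2 → ℝ) 1, g (lpt t) = ∫ x : UnitAddTorus (Fin 2), g x := by
  rw [UnitAddTorus.integral_preimage g (fun _ => 0)]
  have h1 : {x : Fin 2 → ℝ | ∀ i, x i ∈ Set.Ioc ((fun _ => (0:ℝ)) i) ((fun _ => (0:ℝ)) i + 1)} =
      Set.univ.pi fun i : Fin 2 => Set.Ioc ((0 : Fin 2 → ℝ) i) ((1 : Fin 2 → ℝ) i) := by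
    ext x
    simp [Set.mem_pi]
  rw [h1]
  exact (setIntegral_congr_set (Measure.univ_pi_Ioc_ae_eq_Icc)).symm

/-- the endomorphism of the torus -/
def lA (a b c e : ℤ) : UnitAddTorus (Fin 2) →+ UnitAddTorus (Fin 2) where
  toFun x := ![a • x 0 + b • x 1, c • x 0 + e • x 1]
  map_zero' := by
    ext i
    fin_cases i <;> simp
  map_add' x y := by
    ext i
    fin_cases i <;> simp [smul_add] <;> abel

lemma lA_continuous (a b c e : ℤ) : Continuous (lA a b c e) := by
  refine continuous_pi fun i => ?_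
  fin_cases i
  · change Continuous fun x : UnitAddTorus (Fin 2) => a • x 0 + b • x 1
    exact ((continuous_apply 0).zsmul a).add ((continuous_apply 1).zsmul b)
  · change Continuous fun x : UnitAddTorus (Fin 2) => c • x 0 + e • x 1
    exact ((continuous_apply 0).zsmul c).add ((continuous_apply 1).zsmul e)

lemma lA_pt (a b c e : ℤ) (t : Fin 2 → ℝ) :
    lA a b c e (lpt t) = lpt ![(a : ℝ) * t 0 + b * t 1, (c : ℝ) * t 0 + e * t 1] := by
  ext i
  fin_cases i
  · change a • ((t 0 : ℝ) : UnitAddCircle) + b • ((t 1 : ℝ) : UnitAddCircle) = _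
    change _ = (((a : ℝ) * t 0 + b * t 1 : ℝ) : UnitAddCircle)
    rw [← AddCircle.coe_zsmul, ← AddCircle.coe_zsmul, ← AddCircle.coe_add]
    simp [zsmul_eq_mul]
  · change c • ((t 0 : ℝ) : UnitAddCircle) + e • ((t 1 : ℝ) : UnitAddCircle) = _
    change _ = (((c : ℝ) * t 0 + e * t 1 : ℝ) : UnitAddCircle)
    rw [← AddCircle.coe_zsmul, ← AddCircle.coe_zsmul, ← AddCircle.coe_add]
    simp [zsmul_eq_mul]

lemma lpt_surj : Function.Surjective lpt := by
  intro x
  choose t ht using fun i => QuotientAddGroup.mk_surjective (x i)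
  exact ⟨t, funext ht⟩

lemma lA_surj (a b c e : ℤ) (h : a * e - b * c ≠ 0) : Function.Surjective (lA a b c e) := by
  intro x
  obtain ⟨t, rfl⟩ := lpt_surj x
  have hd : ((a : ℝ) * e - b * c) ≠ 0 := by exact_mod_cast h
  refine ⟨lpt ![((e : ℝ) * t 0 - b * t 1) / (a * e - b * c),
    (a * t 1 - c * t 0) / (a * e - b * c)], ?_⟩
  rw [lA_pt]
  congr 1
  ext i
  fin_cases i
  · simp only [Matrix.cons_val_zero, Matrix.cons_val_one, Fin.zero_eta, Fin.isValue]
    rw [mul_div_assoc', mul_div_assoc', ← add_div, div_eq_iff hd]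
    ring
  · simp only [Matrix.cons_val_zero, Matrix.cons_val_one, Fin.mk_one, Fin.isValue]
    rw [mul_div_assoc', mul_div_assoc', ← add_div, div_eq_iff hd]
    ring

lemma lA_mp (a b c e : ℤ) (h : a * e - b * c ≠ 0) :
    MeasurePreserving (lA a b c e) (volume : Measure (UnitAddTorus (Fin 2))) volume :=
  AddMonoidHom.measurePreserving (lA_continuous a b c e) (lA_surj a b c e h) rfl

lemma lval_perm {L L' : List (ℤ × ℤ × ℤ)} (h : L'.Perm L) (t : Fin 2 → ℝ) :
    lval L' t = lval L t := by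
  unfold lval
  exact (h.map _).sum_eq

lemma lval_map (L : List (ℤ × ℤ × ℤ)) (s a b c e u v : ℤ) (t : Fin 2 → ℝ) :
    lval (L.map fun q => (s * q.1, u + a * q.2.1 + c * q.2.2, v + b * q.2.1 + e * q.2.2)) t =
      (s : ℂ) * Complex.exp (2 * (Real.pi : ℂ) * Complex.I * ((u : ℂ) * (t 0 : ℂ) + (v : ℂ) * (t 1 : ℂ))) *
        lval L ![(a : ℝ) * t 0 + b * t 1, (c : ℝ) * t 0 + e * t 1] := by
  unfold lval
  rw [← List.sum_map_mul_left, List.map_map]
  congr 1
  refine List.map_congr_left fun q _ => ?_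
  simp only [Function.comp_apply, Matrix.cons_val_zero, Matrix.cons_val_one]
  push_cast
  rw [show ∀ x y z w : ℂ, x * y * (z * w) = x * z * (y * w) by intros; ring, ← Complex.exp_add]
  congr 2
  ring

theorem lau : S_LAU := by
  intro L L' s a b c e u v hs h hL
  unfold lM
  congr 1
  have h1 : ∀ t, Real.log ‖lval L' t‖ = (fun x => Real.log ‖lphi L (lA a b c e x)‖) (lpt t) := by
    intro t
    simp only
    rw [lval_perm hL, lval_map, lA_pt, ← lval_eq, norm_mul, norm_mul]
    have e1 : ‖((s : ℤ) : ℂ)‖ = 1 := by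
      rcases hs with rfl | rfl <;> simp
    have e2 : ‖Complex.exp (2 * (Real.pi : ℂ) * Complex.I * ((u : ℂ) * (t 0 : ℂ) + (v : ℂ) * (t 1 : ℂ)))‖ = 1 := by
      rw [show 2 * (Real.pi : ℂ) * Complex.I * ((u : ℂ) * (t 0 : ℂ) + (v : ℂ) * (t 1 : ℂ)) =
        ((2 * Real.pi * (u * t 0 + v * t 1) : ℝ) : ℂ) * Complex.I by push_cast; ring]
      exact Complex.norm_exp_ofReal_mul_I _
    rw [e1, e2, one_mul, one_mul]
  have h2 : ∀ t, Real.log ‖lval L t‖ = (fun x => Real.log ‖lphi L x‖) (lpt t) := by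
    intro t
    simp only
    rw [lval_eq]
  have hm : Measurable fun x => Real.log ‖lphi L x‖ :=
    Real.measurable_log.comp (lphi_continuous L).norm.measurable
  have h3 := lA_mp a b c e h
  calc ∫ t in Set.Icc (0 : Fin 2 → ℝ) 1, Real.log ‖lval L' t‖
      = ∫ t in Set.Icc (0 : Fin 2 → ℝ) 1, (fun x => Real.log ‖lphi L (lA a b c e x)‖) (lpt t) := by
        congr 1
        funext t
        exact h1 t
    _ = ∫ x, Real.log ‖lphi L (lA a b c e x)‖ :=
        int_eq (fun x => Real.log ‖lphi L (lA a b c e x)‖)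
    _ = ∫ x, Real.log ‖lphi L x‖ := by
        conv_rhs => rw [← h3.map_eq]
        rw [integral_map h3.measurable.aemeasurable hm.aestronglyMeasurable]
    _ = ∫ t in Set.Icc (0 : Fin 2 → ℝ) 1, (fun x => Real.log ‖lphi L x‖) (lpt t) :=
        (int_eq (fun x => Real.log ‖lphi L x‖)).symm
    _ = ∫ t in Set.Icc (0 : Fin 2 → ℝ) 1, Real.log ‖lval L t‖ := by
        congr 1
        funext t
        exact (h2 t).symm

end

end Pool.Agent.V5helper2.QL
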