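import Pool.Agent.V5helper2.QL.Stm

set_option autoImplicit false

namespace Pool.Agent.V5helper2.QL

open Polynomial Filter MeasureTheory Pool.Agent.H261R2.CM

noncomputable section

/-- Job LIM. -/
theorem lim : S_LIM := by
  intro d a had
  have h0 : G2 d a ≠ 0 := by
    intro h
    apply had
    set Ψ : MvPolynomial (Fin 2) ℤ →ₐ[ℤ] ℤ[X][X] := MvPolynomial.aeval ![C X, X] with hΨ
    have hX0 : Ψ (MvPolynomial.X 0) = C X := by rw [hΨ, MvPolynomial.aeval_X]; rfl
    have hX1 : Ψ (MvPolynomial.X 1) = X := by rw [hΨ, MvPolynomial.aeval_X]; rfl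
    have hC : ∀ q : ℤ[X],
        Ψ (Polynomial.aeval (MvPolynomial.X 0 : MvPolynomial (Fin 2) ℤ) q) = C q := by
      intro q
      rw [← Polynomial.aeval_algHom_apply, hX0]
      have : (Polynomial.aeval (C X : ℤ[X][X]) : ℤ[X] →ₐ[ℤ] ℤ[X][X]) =
          (Polynomial.CAlgHom : ℤ[X] →ₐ[ℤ] ℤ[X][X]) := by
        apply Polynomial.algHom_ext
        simp
      rw [this]
      rfl
    have h1 : Ψ (G2 d a) = ∑ j ∈ Finset.range (d + 1), C (a j) * X ^ j := by
      rw [G2, map_sum]
      refine Finset.sum_congr rfl fun j _ => ?_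
      rw [map_mul, map_pow, hC, hX1]
    rw [h, map_zero] at h1
    have h2 := congrArg (fun q : ℤ[X][X] => q.coeff d) h1
    simp only [Polynomial.coeff_zero, Polynomial.finsetSum_coeff, Polynomial.coeff_C_mul,
      Polynomial.coeff_X_pow] at h2
    rw [Finset.sum_eq_single d] at h2
    · simpa using h2.symm
    · intro j _ hj
      rw [if_neg (Ne.symm hj), mul_zero]
    · intro h'
      exact absurd (Finset.self_mem_range_succ d) h'
  refine ⟨h0, ?_⟩
  have h1 := m1_lim atTop _ (asympIndep_pow 2) (G2 d a) h0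
  refine h1.congr fun m => ?_
  congr 1
  have hX0 : spec (fun i : Fin 2 => m ^ (i : ℕ)) (MvPolynomial.X 0) = X := by
    rw [spec, MvPolynomial.aeval_X]; simp
  have hX1 : spec (fun i : Fin 2 => m ^ (i : ℕ)) (MvPolynomial.X 1) = X ^ m := by
    rw [spec, MvPolynomial.aeval_X]; simp
  rw [G2, Pm, map_sum]
  refine Finset.sum_congr rfl fun j _ => ?_
  rw [map_mul, map_pow, hX1, ← Polynomial.aeval_algHom_apply, hX0, ← pow_mul, mul_comm m j,
    Polynomial.aeval_X_left_apply]

end

end Pool.Agent.V5helper2.QL
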