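import Pool.Agent.V5helper2.QL.Stm

set_option autoImplicit false

namespace Pool.Agent.V5helper2.QL

open Polynomial Filter MeasureTheory Pool.Agent.H261R2.CM

noncomputable section

/-- Job MEM. -/
theorem mem : S_MEM := by
  intro P hP
  have htv : ∀ t : Fin 1 → ℝ,
      tv (Polynomial.aeval (MvPolynomial.X 0 : MvPolynomial (Fin 1) ℤ) P) t = ev1 P (t 0) := by
    intro t
    unfold tv ev1 toC
    set φ : MvPolynomial (Fin 1) ℤ →+* ℂ :=
      (MvPolynomial.eval (fun j : Fin 1 =>
        Complex.exp (2 * (Real.pi : ℂ) * Complex.I * ((t j : ℝ) : ℂ)))).comp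
      (MvPolynomial.map (Int.castRingHom ℂ)) with hφ
    have h1 : MvPolynomial.eval (fun j : Fin 1 =>
        Complex.exp (2 * (Real.pi : ℂ) * Complex.I * ((t j : ℝ) : ℂ)))
        (MvPolynomial.map (Int.castRingHom ℂ)
          (Polynomial.aeval (MvPolynomial.X 0 : MvPolynomial (Fin 1) ℤ) P)) =
        φ (Polynomial.aeval (MvPolynomial.X 0 : MvPolynomial (Fin 1) ℤ) P) := rfl
    rw [h1, Polynomial.aeval_def, Polynomial.hom_eval₂, Polynomial.eval_map]
    congr 1
    · exact RingHom.ext_int _ _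
    · simp [hφ, ez]
  have hpos : 0 < m1 P := lt_of_lt_of_le one_pos (F_one_le_m1 hP)
  unfold mM
  rw [← Real.exp_log hpos, D_log_m1, intervalIntegral.integral_of_le zero_le_one]
  congr 1
  rw [← integral_Icc_eq_integral_Ioc]
  have hmp := MeasureTheory.volume_preserving_funUnique (Fin 1) ℝ
  have h2 := hmp.setIntegral_preimage_emb (MeasurableEquiv.measurableEmbedding _)
    (fun s : ℝ => Real.log ‖ev1 P s‖) (Set.Icc 0 1)
  rw [← h2]
  have h3 : (MeasurableEquiv.funUnique (Fin 1) ℝ) ⁻¹' Set.Icc (0 : ℝ) 1 =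
      Set.Icc (0 : Fin 1 → ℝ) 1 := by
    ext t
    simp only [Set.mem_preimage, Set.mem_Icc, MeasurableEquiv.funUnique_apply, Pi.le_def,
      Fin.forall_fin_one, Pi.zero_apply, Pi.one_apply]
    rfl
  rw [h3]
  refine integral_congr_ae (Eventually.of_forall fun t => ?_)
  simp only [htv]
  rfl

end

end Pool.Agent.V5helper2.QL
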