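import Pool.Agent.V5helper2.QL.Stm

/-!
Job MINK of project QL: ramification by Minkowski and Dedekind's independence of characters.
-/

set_option autoImplicit false

namespace Pool.Agent.V5helper2.QL

open Polynomial Pool.Agent.H261R2.CM NumberField

noncomputable section

namespace Mink

abbrev KK (b : Om) : IntermediateField ℚ Om := IntermediateField.adjoin ℚ ({b} : Set Om)

/-- The map on the rings of integers given by an embedding. -/
def emb (b : Om) (t : KK b →ₐ[ℚ] Om) : 𝓞 (KK b) →+* AA :=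
  RingHom.codRestrict ((t : KK b →+* Om).comp (algebraMap (𝓞 (KK b)) (KK b)))
    (integralClosure ℤ Om) (fun x => by
      have h : IsIntegral ℤ (algebraMap (𝓞 (KK b)) (KK b) x) := RingOfIntegers.isIntegral_coe x
      exact h.map (t.restrictScalars ℤ))

theorem emb_coe (b : Om) (t : KK b →ₐ[ℚ] Om) (x : 𝓞 (KK b)) :
    ((emb b t x : AA) : Om) = t (algebraMap (𝓞 (KK b)) (KK b) x) := rfl

/-- A ring homomorphism on `ℚ(b)` is determined by the image of `b`. -/
theorem ext_gen (b : Om) (t t' : KK b →+* Om)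
    (h : t (IntermediateField.AdjoinSimple.gen ℚ b) = t' (IntermediateField.AdjoinSimple.gen ℚ b)) :
    t = t' := by
  have h1 : (RingHom.toRatAlgHom t : KK b →ₐ[ℚ] Om) = RingHom.toRatAlgHom t' := by
    apply IntermediateField.adjoin_algHom_ext
    intro x hx
    have hxb : x = b := hx
    subst hxb
    exact h
  ext c
  exact DFunLike.congr_fun h1 c

/-- Extension of embeddings to automorphisms. -/
theorem extend (b : Om) (t : KK b →+* Om) :
    ∃ σ : Om ≃ₐ[ℚ] Om, ∀ c : KK b, σ (c : Om) = t c := by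
  have hint : IsIntegral ℚ b := Algebra.IsIntegral.isIntegral b
  have h0 : Polynomial.eval₂ (algebraMap ℚ (KK b)) (IntermediateField.AdjoinSimple.gen ℚ b)
      (minpoly ℚ b) = 0 := by
    apply (algebraMap (KK b) Om).injective
    rw [Polynomial.hom_eval₂, map_zero,
      Subsingleton.elim ((algebraMap (KK b) Om).comp (algebraMap ℚ (KK b))) (algebraMap ℚ Om)]
    exact minpoly.aeval ℚ b
  have hroot : (Polynomial.aeval (t (IntermediateField.AdjoinSimple.gen ℚ b))) (minpoly ℚ b) = 0 := by
    have h1 := congrArg t h0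
    rw [Polynomial.hom_eval₂, map_zero,
      Subsingleton.elim (t.comp (algebraMap ℚ (KK b))) (algebraMap ℚ Om)] at h1
    exact h1
  obtain ⟨σ, hσ⟩ := minpoly.exists_algEquiv_of_root' (K := ℚ) (L := Om) (y := b) hint.isAlgebraic hroot
  refine ⟨σ, ?_⟩
  have h : ((σ : Om →+* Om).comp (algebraMap (KK b) Om)) = t := ext_gen b _ _ hσ
  intro c
  exact DFunLike.congr_fun h c

end Mink

open Mink

theorem mink : S_MINK := by
  classical
  intro b hb
  have := numberField_adjoin b
  have hfr : 1 < Module.finrank ℚ (KK b) := by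
    have h0 : 0 < Module.finrank ℚ (KK b) := Module.finrank_pos
    have h1 : Module.finrank ℚ (KK b) ≠ 1 := by
      intro h
      rw [IntermediateField.finrank_eq_one_iff] at h
      exact hb (h ▸ IntermediateField.mem_adjoin_simple_self ℚ b)
    omega
  have hd := abs_discr_gt_two hfr
  have hd' : (discr (KK b)).natAbs ≠ 1 := by
    rw [Int.abs_eq_natAbs] at hd
    omega
  obtain ⟨p, hp, hpd⟩ := Nat.exists_prime_and_dvd hd'
  refine ⟨p, hp, ?_⟩
  intro k _ _ φ
  have hcard : Fintype.card (Module.Free.ChooseBasisIndex ℤ (𝓞 (KK b))) =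
      Fintype.card (KK b →ₐ[ℚ] Om) := by
    rw [AlgHom.card, Module.finrank_eq_card_basis (integralBasis (KK b))]
  let e : Module.Free.ChooseBasisIndex ℤ (𝓞 (KK b)) ≃ (KK b →ₐ[ℚ] Om) :=
    Fintype.equivOfCardEq hcard
  let N : Matrix (Module.Free.ChooseBasisIndex ℤ (𝓞 (KK b)))
      (Module.Free.ChooseBasisIndex ℤ (𝓞 (KK b))) AA :=
    Matrix.of fun i j => emb b (e j) (RingOfIntegers.basis (KK b) i)
  have hN : N.det ^ 2 = ((discr (KK b) : ℤ) : AA) := by
    apply Subtype.ext
    have h1 := Algebra.discr_eq_det_embeddingsMatrixReindex_pow_two ℚ Om (integralBasis (KK b)) e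
    rw [← coe_discr] at h1
    have h2 : (Algebra.embeddingsMatrixReindex ℚ Om (integralBasis (KK b)) e) =
        (algebraMap AA Om).mapMatrix N := by
      ext i j
      rw [RingHom.mapMatrix_apply, Matrix.map_apply]
      show (e j) (integralBasis (KK b) i) = _
      rw [integralBasis_apply]
      rfl
    rw [h2, ← RingHom.map_det] at h1
    have h3 : ((N.det ^ 2 : AA) : Om) = (algebraMap AA Om N.det) ^ 2 := by
      rw [← map_pow]; rfl
    rw [h3, ← h1]
    have h4 : (((discr (KK b) : ℤ) : AA) : Om) = algebraMap AA Om ((discr (KK b) : ℤ) : AA) := rfl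
    rw [h4, map_intCast, map_intCast]
  have hφ : φ N.det = 0 := by
    have h1 : (φ N.det) ^ 2 = 0 := by
      rw [← map_pow, hN, map_intCast]
      rw [CharP.intCast_eq_zero_iff k p]
      exact Int.natCast_dvd.mpr hpd
    exact pow_eq_zero_iff (two_ne_zero) |>.mp h1
  have hdet : (φ.mapMatrix N).det = 0 := by
    rw [← RingHom.map_det, hφ]
  obtain ⟨v, hv0, hv⟩ := Matrix.exists_mulVec_eq_zero_iff.mpr hdet
  let ψ : Module.Free.ChooseBasisIndex ℤ (𝓞 (KK b)) → (𝓞 (KK b) →* k) :=
    fun j => ((φ.comp (emb b (e j)) : 𝓞 (KK b) →+* k) : 𝓞 (KK b) →* k)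
  have hL : ∀ c : 𝓞 (KK b), ∑ j, v j * φ (emb b (e j) c) = 0 := by
    let L : 𝓞 (KK b) →+ k :=
      ∑ j, (AddMonoidHom.mulLeft (v j)).comp (φ.comp (emb b (e j))).toAddMonoidHom
    have hLa : ∀ c, L c = ∑ j, v j * φ (emb b (e j) c) := by
      intro c
      simp only [L, AddMonoidHom.finsetSum_apply]
      rfl
    have hz : L.toIntLinearMap = 0 := by
      apply (RingOfIntegers.basis (KK b)).ext
      intro i
      have h5 := congrFun hv i
      rw [AddMonoidHom.coe_toIntLinearMap, hLa]
      simp only [Matrix.mulVec, dotProduct, RingHom.mapMatrix_apply, Matrix.map_apply,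
        Pi.zero_apply] at h5
      rw [LinearMap.zero_apply, ← h5]
      apply Finset.sum_congr rfl
      intro j _
      rw [mul_comm]
      rfl
    intro c
    rw [← hLa c]
    have := DFunLike.congr_fun hz c
    exact this
  have hni : ¬ Function.Injective ψ := by
    intro hinj
    have hli := (linearIndependent_monoidHom (𝓞 (KK b)) k).comp ψ hinj
    rw [Fintype.linearIndependent_iff] at hli
    apply hv0
    funext j
    refine hli v ?_ j
    funext c
    rw [Finset.sum_apply, Pi.zero_apply, ← hL c]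
    rfl
  rw [Function.Injective] at hni
  push Not at hni
  obtain ⟨i, j, hij, hne⟩ := hni
  obtain ⟨σ, hσ⟩ := extend b ((e i : KK b →ₐ[ℚ] Om) : KK b →+* Om)
  obtain ⟨τ, hτ⟩ := extend b ((e j : KK b →ₐ[ℚ] Om) : KK b →+* Om)
  refine ⟨σ, τ, ?_, ?_⟩
  · intro h
    apply hne
    apply e.injective
    have h6 := hσ (IntermediateField.AdjoinSimple.gen ℚ b)
    have h7 := hτ (IntermediateField.AdjoinSimple.gen ℚ b)
    have h8 := ext_gen b ((e i : KK b →ₐ[ℚ] Om) : KK b →+* Om) ((e j : KK b →ₐ[ℚ] Om) : KK b →+* Om)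
      (by rw [← h6, ← h7]; exact h)
    ext c
    exact DFunLike.congr_fun h8 c
  · intro c hc
    -- `c` as an element of the ring of integers
    have hci : IsIntegral ℤ (⟨(c : Om), hc⟩ : KK b) := by
      have h8 : IsIntegral ℤ (c : Om) := c.2
      have h9 : (algebraMap (KK b) Om) ⟨(c : Om), hc⟩ = (c : Om) := rfl
      rw [← h9] at h8
      exact (isIntegral_algebraMap_iff (algebraMap (KK b) Om).injective).mp h8
    let c' : 𝓞 (KK b) := ⟨⟨(c : Om), hc⟩, hci⟩
    have h10 : sg σ c = emb b (e i) c' := by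
      apply Subtype.ext
      exact hσ ⟨(c : Om), hc⟩
    have h11 : sg τ c = emb b (e j) c' := by
      apply Subtype.ext
      exact hτ ⟨(c : Om), hc⟩
    rw [h10, h11]
    exact DFunLike.congr_fun hij c'

end

end Pool.Agent.V5helper2.QL
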