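import Pool.Agent.V5helper2.QL.Stm

set_option autoImplicit false

namespace Pool.Agent.V5helper2.QL

open Polynomial Filter MeasureTheory Pool.Agent.H261R2.CM

noncomputable section

/-- Job NZ. -/
theorem nz : S_NZ := by
  intro d a z hz hex
  obtain ⟨j0, hj0, hne⟩ := hex
  set Q : ℂ[X] := ∑ j ∈ Finset.range (d + 1), C ((toC (a j)).eval z) * X ^ j with hQ
  have hQ0 : Q ≠ 0 := by
    intro h
    apply hne
    have : Q.coeff j0 = (toC (a j0)).eval z := by
      rw [hQ, Polynomial.finsetSum_coeff, Finset.sum_eq_single j0]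
      · simp
      · intro i _ hij
        rw [Polynomial.coeff_C_mul, Polynomial.coeff_X_pow, if_neg (Ne.symm hij), mul_zero]
      · intro h'
        exact absurd hj0 h'
    rw [← this, h, Polynomial.coeff_zero]
  have hev : ∀ m : ℕ, (toC (Pm d a m)).eval z = Q.eval (z ^ m) := by
    intro m
    rw [hQ, Pm, toC, Polynomial.map_sum, Polynomial.eval_finsetSum, Polynomial.eval_finsetSum]
    refine Finset.sum_congr rfl fun j _ => ?_
    rw [Polynomial.map_mul, Polynomial.map_pow, Polynomial.map_X, Polynomial.eval_mul,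
      Polynomial.eval_pow, Polynomial.eval_X, Polynomial.eval_mul, Polynomial.eval_C,
      Polynomial.eval_pow, Polynomial.eval_X, ← pow_mul, mul_comm m j, toC]
  have hfin : {w : ℂ | Q.IsRoot w}.Finite := Polynomial.finite_setOfPred_isRoot hQ0
  obtain ⟨K, hK⟩ := hfin.isBounded.exists_norm_le
  have hlim : Tendsto (fun m : ℕ => ‖z‖ ^ m) atTop atTop := tendsto_pow_atTop_atTop_of_one_lt hz
  filter_upwards [hlim.eventually_gt_atTop K] with m hm h0
  rw [hev] at h0
  have h1 := hK (z ^ m) h0
  rw [norm_pow] at h1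
  linarith

end

end Pool.Agent.V5helper2.QL
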