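import Pool.Agent.V5helper2.QL.Stm

/-!
# Assembly of the main theorem of project QL
-/

set_option autoImplicit false

namespace Pool.Agent.V5helper2.QL

open Polynomial Filter MeasureTheory Pool.Agent.H261R2.CM

noncomputable section

theorem mem_outs {P : ℤ[X]} {s : Om} (hs : s ∈ outs P) : aeval s P = 0 ∧ 1 < ‖io s‖ := by
  unfold outs at hs
  rw [Multiset.mem_filter] at hs
  refine ⟨?_, hs.2⟩
  have h := (mem_roots'.1 hs.1).2
  rw [IsRoot.def, eval_map] at h
  rw [aeval_def]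
  exact h

theorem integral_outs {P : ℤ[X]} (hP : P.Monic) {s : Om} (hs : s ∈ outs P) : IsIntegral ℤ s := by
  refine ⟨P, hP, ?_⟩
  have := (mem_outs hs).1
  rwa [aeval_def] at this

theorem integral_inv_outs {P : ℤ[X]} (hP : P.Monic) (hc : IsUnit (P.coeff 0)) {s : Om}
    (hs : s ∈ outs P) : IsIntegral ℤ s⁻¹ := by
  have h1 := (mem_outs hs).1
  have h2 := integral_outs hP hs
  obtain ⟨c, hc'⟩ := hc.exists_left_inv
  have h3 : P = X * divX P + C (P.coeff 0) := by
    rw [mul_comm]; exact (divX_mul_X_add P).symm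
  have h4 : s * aeval s (divX P) + (P.coeff 0 : Om) = 0 := by
    rw [h3] at h1
    simpa using h1
  have h5 : (c : Om) * (P.coeff 0 : Om) = 1 := by
    exact_mod_cast congrArg (fun n : ℤ => (n : Om)) hc'
  have h6 : s * (-(c : Om) * aeval s (divX P)) = 1 := by
    linear_combination (-(c : Om)) * h4 + h5
  have h7 : s⁻¹ = -(c : Om) * aeval s (divX P) := by
    have hs0 : s ≠ 0 := by
      rintro rfl
      simp at h6
    field_simp
    linear_combination -h6
  rw [h7]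
  refine IsIntegral.mul ?_ ?_
  · have : (-(c : Om)) = algebraMap ℤ Om (-c) := by simp
    rw [this]
    exact isIntegral_algebraMap
  · exact adjoin_le_integralClosure h2 (aeval_mem_adjoin_singleton ℤ s)

theorem integral_rat {q : ℚ} (h : IsIntegral ℤ (algebraMap ℚ Om q)) : ∃ n : ℤ, (n : ℚ) = q := by
  have h1 : IsIntegral ℤ q :=
    (isIntegral_algebraMap_iff (algebraMap ℚ Om).injective).1 h
  obtain ⟨n, hn⟩ := IsIntegrallyClosed.isIntegral_iff.1 h1
  exact ⟨n, by simpa using hn⟩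

theorem norm_of_rat {b : Om} (h1 : IsIntegral ℤ b) (h2 : IsIntegral ℤ b⁻¹) (hb : b ≠ 0)
    (h3 : b ∈ (⊥ : IntermediateField ℚ Om)) : ‖io b‖ = 1 := by
  obtain ⟨q, rfl⟩ := IntermediateField.mem_bot.1 h3
  obtain ⟨n, hn⟩ := integral_rat h1
  rw [← map_inv₀] at h2
  obtain ⟨n', hn'⟩ := integral_rat h2
  have hq : q ≠ 0 := by
    rintro rfl
    simp at hb
  have h4 : n * n' = 1 := by
    have : ((n * n' : ℤ) : ℚ) = 1 := by
      push_cast
      rw [hn, hn', mul_inv_cancel₀ hq]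
    exact_mod_cast this
  have h5 : n = 1 ∨ n = -1 := Int.isUnit_iff.1 (IsUnit.of_mul_eq_one _ h4)
  rw [← hn]
  rcases h5 with rfl | rfl <;> simp

/-- There is a homomorphism of the ring of algebraic integers to a field of characteristic `p`. -/
theorem exists_field (p : ℕ) (hp : p.Prime) :
    ∃ (k : Type) (_ : Field k) (_ : CharP k p), Nonempty (AA →+* k) := by
  have hne : Ideal.span {(p : AA)} ≠ ⊤ := by
    intro h
    rw [Ideal.span_singleton_eq_top] at h
    obtain ⟨x, hx⟩ := h.exists_left_inv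
    have h1 : (x : Om) * (p : Om) = 1 := by
      have := congrArg (fun y : AA => (y : Om)) hx
      simpa using this
    have hp0 : (p : Om) ≠ 0 := by exact_mod_cast hp.ne_zero
    have h2 : (x : Om) = algebraMap ℚ Om ((p : ℚ)⁻¹) := by
      rw [map_inv₀, map_natCast]
      exact eq_inv_of_mul_eq_one_left h1
    have h3 : IsIntegral ℤ (algebraMap ℚ Om ((p : ℚ)⁻¹)) := by
      rw [← h2]; exact x.2
    obtain ⟨n, hn⟩ := integral_rat h3
    have h4 : n * (p : ℤ) = 1 := by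
      have : ((n * (p : ℤ) : ℤ) : ℚ) = 1 := by
        push_cast
        rw [hn, inv_mul_cancel₀]
        exact_mod_cast hp.ne_zero
      exact_mod_cast this
    have h5 : IsUnit (p : ℤ) := IsUnit.of_mul_eq_one _ (by rw [mul_comm]; exact h4)
    have h6 := Int.isUnit_iff_natAbs_eq.1 h5
    simp at h6
    exact hp.one_lt.ne' h6
  obtain ⟨𝔓, h𝔓, hle⟩ := Ideal.exists_le_maximal _ hne
  let _ := Ideal.Quotient.field 𝔓
  refine ⟨AA ⧸ 𝔓, inferInstance, ?_, ⟨Ideal.Quotient.mk 𝔓⟩⟩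
  rw [CharP.charP_iff_prime_eq_zero hp]
  have : (p : AA) ∈ 𝔓 := hle (Ideal.mem_span_singleton_self _)
  have h := (Ideal.Quotient.eq_zero_iff_mem).2 this
  simpa using h

theorem map_ne_zero_of {k : Type} [Field k] {p : ℕ} [Fact p.Prime] [CharP k p] {R : ℤ[X]}
    (h : R.map (Int.castRingHom (ZMod p)) ≠ 0) : R.map (Int.castRingHom k) ≠ 0 := by
  have e : Int.castRingHom k = (ZMod.castHom (dvd_refl p) k).comp (Int.castRingHom (ZMod p)) :=
    RingHom.ext_int _ _
  rw [e, ← Polynomial.map_map]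
  intro h2
  exact h ((Polynomial.map_eq_zero _).1 h2)

theorem io_eq_or {x y : Om} (hx : (io x).im = 0) (hy : (io y).im = 0) (h : ‖io x‖ = ‖io y‖) :
    x = y ∨ x = -y := by
  have e1 : io x = ((io x).re : ℂ) := Complex.ext (by simp) (by simpa using hx)
  have e2 : io y = ((io y).re : ℂ) := Complex.ext (by simp) (by simpa using hy)
  rw [e1, e2, Complex.norm_real, Complex.norm_real, Real.norm_eq_abs, Real.norm_eq_abs,
    abs_eq_abs] at h
  rcases h with h | h
  · left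
    apply io.injective
    rw [e1, e2, h]
  · right
    apply io.injective
    rw [map_neg, e1, e2, h]
    push_cast
    ring

theorem eval_io (P : ℤ[X]) (s : Om) : (toC P).eval (io s) = io (aeval s P) := by
  unfold toC
  rw [eval_map, aeval_def, Polynomial.hom_eval₂]
  congr 1
  exact RingHom.ext_int _ _

open Classical in
/-- Northcott. -/
theorem northcott (N : ℕ) (β : ℝ) (hβ : 0 ≤ β) : ∃ A : Set Om, A.Finite ∧ ∀ (P : ℤ[X]), P ≠ 0 →
    m1 P = β → ∀ s : Om, aeval s P = 0 → IsIntegral ℤ s → (minpoly ℚ s).natDegree ≤ N → s ∈ A := by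
  have hf := finite_mahlerMeasure_le N ⟨β, hβ⟩
  refine ⟨⋃ q ∈ {p : ℤ[X] | p.natDegree ≤ N ∧ (p.map (Int.castRingHom ℂ)).mahlerMeasure ≤ β},
    (q.aroots Om).toFinset, ?_, ?_⟩
  · refine Set.Finite.biUnion hf fun q _ => Finset.finite_toSet _
  · intro P hP hm s hs hint hdeg
    have hd : minpoly ℤ s ∣ P := minpoly.isIntegrallyClosed_dvd hint hs
    obtain ⟨r, hr⟩ := hd
    have hr0 : r ≠ 0 := by
      rintro rfl
      exact hP (by simp [hr])
    have hq0 : minpoly ℤ s ≠ 0 := minpoly.ne_zero hint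
    have h1 : m1 (minpoly ℤ s) ≤ β := by
      rw [← hm, hr, I1_m1_mul]
      have h2 := I1_one_le_m1 hr0
      have h3 := I1_one_le_m1 hq0
      nlinarith
    have h2 : (minpoly ℤ s).natDegree ≤ N := by
      have e := minpoly.isIntegrallyClosed_eq_field_fractions ℚ Om hint
      rw [Algebra.algebraMap_self_apply] at e
      rw [e] at hdeg
      rwa [natDegree_map_eq_of_injective (algebraMap ℤ ℚ).injective_int] at hdeg
    refine Set.mem_biUnion (x := minpoly ℤ s) ⟨h2, h1⟩ ?_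
    rw [Finset.mem_coe, Multiset.mem_toFinset, mem_aroots]
    exact ⟨hq0, minpoly.aeval ℤ s⟩

theorem thmB (mink : S_MINK) (fix : S_FIX) (core1 : S_CORE1) (core2 : S_CORE2) (elim : S_ELIM)
    (nz : S_NZ) (d : ℕ) (a : ℕ → ℤ[X]) (R : ℤ[X]) (U V : ℤ[X][X]) (β : ℝ)
    (hmon : ∀ᶠ m : ℕ in atTop, (Pm d a m).Monic ∧ IsUnit ((Pm d a m).coeff 0))
    (hR : U * (∑ j ∈ Finset.range (d + 1), C (a j) * X ^ j) +
      V * (∑ j ∈ Finset.range (d + 1), C (derivative (a j)) * X ^ j) = C R)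
    (hRp : ∀ p : ℕ, p.Prime → R.map (Int.castRingHom (ZMod p)) ≠ 0)
    (hNZ : ∀ z : ℂ, 1 < ‖z‖ → ∃ j ∈ Finset.range (d + 1), (toC (a j)).eval z ≠ 0)
    (hβ : 1 < β) : ¬ ∀ᶠ m : ℕ in atTop, m1 (Pm d a m) = β := by
  intro h
  obtain ⟨M0, hM0⟩ := eventually_atTop.1 (hmon.and h)
  set b : Om := (outs (Pm d a M0)).prod with hb
  obtain ⟨⟨hP0, hc0⟩, hm0⟩ := hM0 M0 le_rfl
  have hbn : ‖io b‖ = β := by rw [hb, ← (fix _ hP0).1, hm0]
  have hb0 : b ≠ 0 := by
    intro h0
    rw [h0] at hbn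
    simp at hbn
    linarith
  -- the products
  have hpr : ∀ m, M0 ≤ m → (outs (Pm d a m)).prod = b ∨ (outs (Pm d a m)).prod = -b := by
    intro m hm
    obtain ⟨⟨hP, hc⟩, hmm⟩ := hM0 m hm
    refine io_eq_or (fix _ hP).2.1 (fix _ hP0).2.1 ?_
    rw [← (fix _ hP).1, ← (fix _ hP0).1, hmm, hm0]
  have hfix : ∀ m, M0 ≤ m → ∀ ρ : Om ≃ₐ[ℚ] Om, ρ b = b →
      (outs (Pm d a m)).map ρ = outs (Pm d a m) := by
    intro m hm ρ hρ
    obtain ⟨⟨hP, hc⟩, hmm⟩ := hM0 m hm
    refine (fix _ hP).2.2 ρ ?_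
    rcases hpr m hm with h1 | h1 <;> rw [h1]
    · rw [hρ]
    · rw [map_neg, hρ]
  -- irrationality
  have hbot : b ∉ (⊥ : IntermediateField ℚ Om) := by
    intro h3
    have h1 : IsIntegral ℤ b := IsIntegral.multiset_prod fun s hs => integral_outs hP0 hs
    have h2 : IsIntegral ℤ b⁻¹ := by
      rw [hb, ← Multiset.prod_map_inv']
      refine IsIntegral.multiset_prod fun s hs => ?_
      obtain ⟨t, ht, rfl⟩ := Multiset.mem_map.1 hs
      exact integral_inv_outs hP0 hc0 ht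
    have := norm_of_rat h1 h2 hb0 h3
    linarith
  obtain ⟨p, hp, hmk⟩ := mink b hbot
  have : Fact p.Prime := ⟨hp⟩
  obtain ⟨k, _, _, ⟨φ⟩⟩ := exists_field p hp
  obtain ⟨σ, τ, hστ, hφ⟩ := hmk k φ
  have hRk : R.map (Int.castRingHom k) ≠ 0 := map_ne_zero_of (hRp p hp)
  set N : ℕ := (Module.finrank ℚ (IntermediateField.adjoin ℚ ({b} : Set Om))) ^ 2 * R.natDegree
    with hN
  have key : ∀ m, M0 ≤ m → p ∣ m → ∃ α ∈ outs (Pm d a m), (minpoly ℚ α).natDegree ≤ N := by
    intro m hm hpm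
    obtain ⟨⟨hP, hc⟩, hmm⟩ := hM0 m hm
    obtain ⟨g, hg, hgc⟩ := core1 (Pm d a m) b k φ σ τ hP hφ (hfix m hm)
    have h1 := elim k p d a R U V m g hpm hR hg
    have h2 : g.natDegree ≤ R.natDegree :=
      (natDegree_le_of_dvd h1 hRk).trans (natDegree_map_le)
    refine core2 (outs (Pm d a m)) b σ τ R.natDegree (hfix m hm) ?_ ?_
    · intro heq
      have h3 := congrArg Multiset.prod heq
      rw [Multiset.prod_hom, Multiset.prod_hom] at h3
      rcases hpr m hm with h4 | h4 <;> rw [h4] at h3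
      · exact hστ h3
      · rw [map_neg, map_neg, neg_inj] at h3
        exact hστ h3
    · rw [← hgc]; exact h2
  obtain ⟨A, hA, hAm⟩ := northcott N β (by linarith)
  have h5 : ∀ α ∈ A, ∀ᶠ m : ℕ in atTop, 1 < ‖io α‖ → aeval α (Pm d a m) ≠ 0 := by
    intro α _
    by_cases h1 : 1 < ‖io α‖
    · filter_upwards [nz d a (io α) h1 (hNZ _ h1)] with m hm _ h0
      rw [eval_io, h0, map_zero] at hm
      exact hm rfl
    · exact Eventually.of_forall fun m h2 => absurd h2 h1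
  have h6 : ∀ᶠ m : ℕ in atTop, ∀ α ∈ A, 1 < ‖io α‖ → aeval α (Pm d a m) ≠ 0 := by
    have := (Filter.eventually_all_finite hA).2 h5
    exact this
  obtain ⟨M1, hM1⟩ := eventually_atTop.1 h6
  set m := p * (M0 + M1) with hm
  have hmge : M0 + M1 ≤ m := Nat.le_mul_of_pos_left _ hp.pos
  obtain ⟨α, hα, hdeg⟩ := key m (by omega) ⟨_, hm⟩
  obtain ⟨⟨hP, hc⟩, hmm⟩ := hM0 m (by omega)
  obtain ⟨h7, h8⟩ := mem_outs hα
  exact hM1 m (by omega) α (hAm _ hP.ne_zero hmm α h7 (integral_outs hP hα) hdeg) h8 h7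

end

end Pool.Agent.V5helper2.QL
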