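import Pool.Agent.V5helper2.QL.Lst
import Pool.Agent.H261R2.CM.JTor

/-!
# The checks on the data
-/

set_option autoImplicit false

namespace Pool.Agent.V5helper2.QL

open Polynomial Filter MeasureTheory Pool.Agent.H261R2.CM

noncomputable section

theorem Pm_monic {d : ℕ} {a : ℕ → ℤ[X]} (h : (a d).Monic) :
    ∀ᶠ m : ℕ in atTop, (Pm d a m).Monic := by
  have h1 : ∀ᶠ m : ℕ in atTop, ∀ j ∈ Finset.range d, (a j).natDegree < m := by
    refine (Filter.eventually_all_finset _).2 fun j _ => ?_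
    exact eventually_gt_atTop _
  filter_upwards [h1, eventually_gt_atTop 0] with m hm hm0
  have e : Pm d a m = (∑ j ∈ Finset.range d, a j * X ^ (j * m)) + a d * X ^ (d * m) := by
    rw [Pm, Finset.sum_range_succ]
  rw [e]
  have hmon : (a d * X ^ (d * m)).Monic := h.mul (monic_X_pow _)
  refine hmon.add_of_right ?_
  have hdeg : (a d * X ^ (d * m)).degree = (((a d).natDegree + d * m : ℕ) : WithBot ℕ) := by
    rw [degree_eq_natDegree hmon.ne_zero, h.natDegree_mul (monic_X_pow _), natDegree_X_pow]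
  rw [hdeg]
  refine lt_of_le_of_lt (degree_sum_le _ _) ?_
  rw [Finset.sup_lt_iff (WithBot.bot_lt_coe _)]
  intro j hj
  have hj' : j < d := Finset.mem_range.1 hj
  by_cases h0 : a j * X ^ (j * m) = 0
  · rw [h0, degree_zero]; exact WithBot.bot_lt_coe _
  · rw [degree_eq_natDegree h0]
    have h2 : (a j * X ^ (j * m)).natDegree ≤ (a j).natDegree + j * m := by
      refine (natDegree_mul_le).trans ?_
      rw [natDegree_X_pow]
    have h3 := hm j hj
    have h4 : (j + 1) * m ≤ d * m := Nat.mul_le_mul_right m hj'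
    have h5 : (a j * X ^ (j * m)).natDegree < (a d).natDegree + d * m := by
      have : (j + 1) * m = j * m + m := by ring
      omega
    exact_mod_cast h5

theorem Pm_coeff_zero {d : ℕ} {a : ℕ → ℤ[X]} {m : ℕ} (hm : 0 < m) :
    (Pm d a m).coeff 0 = (a 0).coeff 0 := by
  rw [Pm, finsetSum_coeff, Finset.sum_range_succ']
  rw [Finset.sum_eq_zero]
  · simp
  · intro j _
    rw [coeff_mul_X_pow']
    have : ¬ ((j + 1) * m ≤ 0) := Nat.not_le.2 (Nat.mul_pos (Nat.succ_pos j) hm)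
    simp [this]

theorem ofL_coeff_zero (l : List ℤ) : (ofL l).coeff 0 = l.getD 0 0 := by
  cases l with
  | nil => simp [ofL, hev]
  | cons c l => simp [ofL, hev]

/-- Check that the combination `∑ w_j A_j` is `c₁ X^i + c₂ X^k` with `k < i`. -/
def combL : List ℤ → List (List ℤ) → List ℤ
  | [], _ => []
  | _ :: _, [] => []
  | c :: w, l :: A => addL (sclL c l) (combL w A)

def monoL (c : ℤ) (i : ℕ) : List ℤ := List.replicate i 0 ++ [c]

theorem hev_monoL {R : Type*} [CommRing R] (x : R) (c : ℤ) (i : ℕ) :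
    hev x (monoL c i) = c * x ^ i := by
  induction i with
  | zero => simp [monoL, hev]
  | succ i ih =>
    have : monoL c (i + 1) = 0 :: monoL c i := by
      simp [monoL, List.replicate_succ]
    rw [this, hev, ih]
    push_cast
    ring

theorem hev_combL_zero {R : Type*} [CommRing R] (x : R) (w : List ℤ) (A : List (List ℤ))
    (h : ∀ l ∈ A, hev x l = 0) : hev x (combL w A) = 0 := by
  induction w generalizing A with
  | nil => simp [combL, hev]
  | cons c w ih =>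
    cases A with
    | nil => simp [combL, hev]
    | cons l A =>
      rw [combL, hev_add, hev_scl, h l (by simp), ih A fun l' hl' => h l' (by simp [hl'])]
      simp

theorem nz_of_check {d : ℕ} {A : List (List ℤ)} (hd : A.length = d + 1) {w : List ℤ} {c₁ c₂ : ℤ}
    {i k : ℕ} (hki : k < i) (h₁ : c₁ = 1 ∨ c₁ = -1) (h₂ : c₂ = 0 ∨ c₂ = 1 ∨ c₂ = -1)
    (hc : isz (addL (combL w A) (addL (monoL (-c₁) i) (monoL (-c₂) k))) = true) :
    ∀ z : ℂ, 1 < ‖z‖ → ∃ j ∈ Finset.range (d + 1), (toC (aL A j)).eval z ≠ 0 := by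
  intro z hz
  by_contra hcon
  push Not at hcon
  have h0 : ∀ l ∈ A, hev z l = 0 := by
    intro l hl
    obtain ⟨j, hj, rfl⟩ := List.getElem_of_mem hl
    have h1 := hcon j (by rw [Finset.mem_range]; omega)
    rw [aL, toC_eval_ofL] at h1
    rw [List.getD_eq_getElem?_getD, List.getElem?_eq_getElem hj, Option.getD_some] at h1
    exact h1
  have h3 := hev_isz z hc
  rw [hev_add, hev_add, hev_monoL, hev_monoL, hev_combL_zero z w A h0] at h3
  push_cast at h3
  have h4 : (c₁ : ℂ) * z ^ i = -((c₂ : ℂ) * z ^ k) := by linear_combination -h3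
  have h5 := congrArg norm h4
  rw [norm_neg, norm_mul, norm_mul, norm_pow, norm_pow] at h5
  have e1 : ‖(c₁ : ℂ)‖ = 1 := by rcases h₁ with rfl | rfl <;> simp
  have e2 : ‖(c₂ : ℂ)‖ ≤ 1 := by rcases h₂ with rfl | rfl | rfl <;> simp
  rw [e1, one_mul] at h5
  have h6 : ‖z‖ ^ k < ‖z‖ ^ i := pow_lt_pow_right₀ hz hki
  have h7 : 0 ≤ ‖z‖ ^ k := by positivity
  nlinarith

/-- Homogeneous evaluation at the Gaussian integer `p + q i` (as a pair), with `N ^ K` as the
homogenising factor. -/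
def gev (p q N : ℤ) : ℕ → List ℤ → ℤ × ℤ
  | _, [] => (0, 0)
  | 0, c :: _ => (c, 0)
  | K + 1, c :: l =>
    let r := gev p q N K l
    (c * N ^ (K + 1) + (p * r.1 - q * r.2), p * r.2 + q * r.1)

theorem gev_spec (p q N : ℤ) (hN : N ≠ 0) (K : ℕ) (l : List ℤ) (hl : l.length ≤ K + 1) :
    (((gev p q N K l).1 : ℂ) + ((gev p q N K l).2 : ℂ) * Complex.I) =
      (N : ℂ) ^ K * hev (((p : ℂ) + (q : ℂ) * Complex.I) / (N : ℂ)) l := by
  have hN' : (N : ℂ) ≠ 0 := by exact_mod_cast hN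
  induction K generalizing l with
  | zero =>
    cases l with
    | nil => simp [gev, hev]
    | cons c l =>
      have : l = [] := by
        rw [List.length_cons] at hl
        exact List.eq_nil_of_length_eq_zero (by omega)
      subst this
      simp [gev, hev]
  | succ K ih =>
    cases l with
    | nil => simp [gev, hev]
    | cons c l =>
      have h1 := ih l (by rw [List.length_cons] at hl; omega)
      simp only [gev, hev]
      push_cast
      set r := gev p q N K l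
      have e : ((c : ℂ) * (N : ℂ) ^ (K + 1) + ((p : ℂ) * (r.1 : ℂ) - (q : ℂ) * (r.2 : ℂ)) +
          ((p : ℂ) * (r.2 : ℂ) + (q : ℂ) * (r.1 : ℂ)) * Complex.I) =
          (c : ℂ) * (N : ℂ) ^ (K + 1) + ((p : ℂ) + (q : ℂ) * Complex.I) *
            ((r.1 : ℂ) + (r.2 : ℂ) * Complex.I) := by
        linear_combination (-(q : ℂ) * (r.2 : ℂ)) * Complex.I_sq
      rw [e, h1]
      have e2 : ((p : ℂ) + (q : ℂ) * Complex.I) =
          (N : ℂ) * (((p : ℂ) + (q : ℂ) * Complex.I) / (N : ℂ)) := by field_simp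
      generalize ((p : ℂ) + (q : ℂ) * Complex.I) / (N : ℂ) = x at e2 ⊢
      rw [e2]
      ring

def nsq (r : ℤ × ℤ) : ℤ := r.1 * r.1 + r.2 * r.2

theorem norm_sq_pair (r : ℤ × ℤ) : ‖((r.1 : ℂ) + (r.2 : ℂ) * Complex.I)‖ ^ 2 = (nsq r : ℝ) := by
  rw [← Complex.normSq_eq_norm_sq, nsq]
  have : ((r.1 : ℂ) + (r.2 : ℂ) * Complex.I) = (((r.1 : ℝ) : ℂ) + ((r.2 : ℝ) : ℂ) * Complex.I) := by
    push_cast; ring
  rw [this, Complex.normSq_add_mul_I]
  push_cast
  ring

theorem fub_check (fub : S_FUB) {d : ℕ} {A : List (List ℤ)} (had : aL A d ≠ 0) (p q N : ℤ)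
    (j K : ℕ) (hN : 0 < N) (hpq : p * p + q * q = N * N) (hj : j ≤ d)
    (h1 : (A.getD d []).length ≤ K + 1) (h2 : (A.getD j []).length ≤ K + 1)
    (h3 : (d.choose j : ℤ) ^ 2 * nsq (gev p q N K (A.getD d [])) <
      nsq (gev p q N K (A.getD j []))) : 1 < mM (G2 d (aL A)) := by
  set x : ℂ := ((p : ℂ) + (q : ℂ) * Complex.I) / (N : ℂ) with hx
  have hNr : (0:ℝ) < (N : ℝ) := by exact_mod_cast hN
  have hNn : ‖(N : ℂ)‖ = (N : ℝ) := by
    rw [Complex.norm_intCast, abs_of_pos hNr]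
  have hx1 : ‖x‖ = 1 := by
    have e := norm_sq_pair (p, q)
    simp only [nsq] at e
    rw [hpq] at e
    have e2 : ‖((p : ℂ) + (q : ℂ) * Complex.I)‖ = (N : ℝ) := by
      have e3 : ‖((p : ℂ) + (q : ℂ) * Complex.I)‖ ^ 2 = (N : ℝ) ^ 2 := by
        rw [e]; push_cast; ring
      exact (pow_left_inj₀ (norm_nonneg _) hNr.le two_ne_zero).1 e3
    rw [hx, norm_div, e2, hNn, div_self hNr.ne']
  refine (fub d (aL A) had).2 x j hx1 hj ?_
  rw [aL, aL, toC_eval_ofL, toC_eval_ofL]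
  have g1 := gev_spec p q N hN.ne' K _ h1
  have g2 := gev_spec p q N hN.ne' K _ h2
  rw [← hx] at g1 g2
  have n1 := norm_sq_pair (gev p q N K (A.getD d []))
  have n2 := norm_sq_pair (gev p q N K (A.getD j []))
  rw [g1, norm_mul, norm_pow, hNn] at n1
  rw [g2, norm_mul, norm_pow, hNn] at n2
  have h4 : ((d.choose j : ℝ)) ^ 2 * (nsq (gev p q N K (A.getD d [])) : ℝ) <
      (nsq (gev p q N K (A.getD j [])) : ℝ) := by exact_mod_cast h3
  rw [← n1, ← n2] at h4
  have hP : 0 < (N : ℝ) ^ K := by positivity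
  have h5 : ((d.choose j : ℝ) * ‖hev x (A.getD d [])‖ * (N : ℝ) ^ K) ^ 2 <
      (‖hev x (A.getD j [])‖ * (N : ℝ) ^ K) ^ 2 := by
    calc _ = (d.choose j : ℝ) ^ 2 * ((N : ℝ) ^ K * ‖hev x (A.getD d [])‖) ^ 2 := by ring
      _ < _ := h4
      _ = _ := by ring
  have h6 := lt_of_pow_lt_pow_left₀ 2 (by positivity) h5
  exact lt_of_mul_lt_mul_right h6 hP.le

/-- The terms of `∑_j A_j(x) y ^ j`. -/
def termsAux (j : ℤ) : ℤ → List ℤ → List (ℤ × ℤ × ℤ)
  | _, [] => []
  | i, c :: l => if c = 0 then termsAux j (i + 1) l else (c, i, j) :: termsAux j (i + 1) l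

def terms : ℤ → List (List ℤ) → List (ℤ × ℤ × ℤ)
  | _, [] => []
  | j, l :: A => termsAux j 0 l ++ terms (j + 1) A

theorem lval_nil (t : Fin 2 → ℝ) : lval [] t = 0 := by simp [lval]

theorem lval_cons (q : ℤ × ℤ × ℤ) (L : List (ℤ × ℤ × ℤ)) (t : Fin 2 → ℝ) :
    lval (q :: L) t = (q.1 : ℂ) * Complex.exp (2 * (Real.pi : ℂ) * Complex.I *
      ((q.2.1 : ℂ) * (t 0 : ℂ) + (q.2.2 : ℂ) * (t 1 : ℂ))) + lval L t := by simp [lval]

theorem lval_append (L M : List (ℤ × ℤ × ℤ)) (t : Fin 2 → ℝ) :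
    lval (L ++ M) t = lval L t + lval M t := by simp [lval]

theorem lval_termsAux (j i : ℤ) (l : List ℤ) (t : Fin 2 → ℝ) :
    lval (termsAux j i l) t = Complex.exp (2 * (Real.pi : ℂ) * Complex.I *
      ((i : ℂ) * (t 0 : ℂ) + (j : ℂ) * (t 1 : ℂ))) * hev (ez (t 0)) l := by
  induction l generalizing i with
  | nil => simp [termsAux, hev, lval_nil]
  | cons c l ih =>
    have h1 : Complex.exp (2 * (Real.pi : ℂ) * Complex.I *
        (((i + 1 : ℤ) : ℂ) * (t 0 : ℂ) + (j : ℂ) * (t 1 : ℂ))) =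
        Complex.exp (2 * (Real.pi : ℂ) * Complex.I *
        ((i : ℂ) * (t 0 : ℂ) + (j : ℂ) * (t 1 : ℂ))) * ez (t 0) := by
      rw [ez, ← Complex.exp_add]
      congr 1
      push_cast
      ring
    rw [termsAux]
    split_ifs with hc
    · rw [ih, h1, hev, hc]
      push_cast
      ring
    · rw [lval_cons, ih, h1, hev]
      ring

theorem lval_terms (j : ℤ) (A : List (List ℤ)) (t : Fin 2 → ℝ) :
    lval (terms j A) t = Complex.exp (2 * (Real.pi : ℂ) * Complex.I * ((j : ℂ) * (t 1 : ℂ))) *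
      hev2 (ez (t 0)) (ez (t 1)) A := by
  induction A generalizing j with
  | nil => simp [terms, hev2, lval_nil]
  | cons l A ih =>
    have h1 : Complex.exp (2 * (Real.pi : ℂ) * Complex.I * (((j + 1 : ℤ) : ℂ) * (t 1 : ℂ))) =
        Complex.exp (2 * (Real.pi : ℂ) * Complex.I * ((j : ℂ) * (t 1 : ℂ))) * ez (t 1) := by
      rw [ez, ← Complex.exp_add]
      congr 1
      push_cast
      ring
    rw [terms, lval_append, lval_termsAux, ih, h1, hev2]
    simp only [Int.cast_zero, zero_mul, zero_add]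
    ring

theorem tv_G2 {d : ℕ} {A : List (List ℤ)} (hd : A.length = d + 1) (t : Fin 2 → ℝ) :
    tv (G2 d (aL A)) t = hev2 (ez (t 0)) (ez (t 1)) A := by
  set f : ℤ[X] →+* ℂ := ((J.tvh t).comp
    (Polynomial.aeval (MvPolynomial.X 0 : MvPolynomial (Fin 2) ℤ)).toRingHom) with hf
  have h1 := sum_aL f (ez (t 1)) A
  have h2 : f X = ez (t 0) := by
    rw [hf]
    simp only [RingHom.comp_apply, AlgHom.toRingHom_eq_coe, RingHom.coe_coe, aeval_X]
    rw [← J.tv_eq, J.tv_X]
    rfl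
  rw [h2, hd] at h1
  rw [← h1, J.tv_eq, G2, map_sum]
  refine Finset.sum_congr rfl fun j _ => ?_
  rw [map_mul, map_pow, ← J.tv_eq, ← J.tv_eq, J.tv_X]
  rfl

theorem mM_G2 {d : ℕ} {A : List (List ℤ)} (hd : A.length = d + 1) :
    mM (G2 d (aL A)) = lM (terms 0 A) := by
  unfold mM lM
  congr 2
  ext t
  rw [tv_G2 hd, lval_terms]
  simp

end

end Pool.Agent.V5helper2.QL
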