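import Pool.Agent.V5helper2.QL.Chk

/-!
# The data for the 61 polynomials
-/

set_option autoImplicit false

namespace Pool.Agent.V5helper2.QL

/-- Certificate data for a Laurent polynomial: coordinates `∑_{j ≤ d} A_j(x) y^j` with an elimination
identity `U F + V F_x = R`, and (perhaps other) coordinates `A'` in which the Mahler measure is seen
to be greater than one. -/
structure Dat where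
  d : ℕ
  A : List (List ℤ)
  U : List (List ℤ)
  V : List (List ℤ)
  R : List ℤ
  w : List ℤ
  c₁ : ℤ
  c₂ : ℤ
  i : ℕ
  k : ℕ
  mp : ℤ × ℤ × ℤ × ℤ × ℤ × ℤ × ℤ
  d' : ℕ
  A' : List (List ℤ)
  mp' : ℤ × ℤ × ℤ × ℤ × ℤ × ℤ × ℤ
  p : ℤ
  q : ℤ
  N : ℤ
  j : ℕ
  K : ℕ
deriving Inhabited

/-- `mp = (s, a, b, c, e, u, v)`: the term `g x^i y^j` becomes `s g x^(u + a i + c j) y^(v + b i + e j)`. -/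
def mapT (mp : ℤ × ℤ × ℤ × ℤ × ℤ × ℤ × ℤ) (L : List (ℤ × ℤ × ℤ)) : List (ℤ × ℤ × ℤ) :=
  L.map fun q => (mp.1 * q.1,
    mp.2.2.2.2.2.1 + mp.2.1 * q.2.1 + mp.2.2.2.1 * q.2.2,
    mp.2.2.2.2.2.2 + mp.2.2.1 * q.2.1 + mp.2.2.2.2.1 * q.2.2)

/-- The map is nondegenerate and transforms `terms 0 A` to `L`. -/
def okMap (L : List (ℤ × ℤ × ℤ)) (A : List (List ℤ)) (mp : ℤ × ℤ × ℤ × ℤ × ℤ × ℤ × ℤ) : Prop :=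
  (mp.1 = 1 ∨ mp.1 = -1) ∧ mp.2.1 * mp.2.2.2.2.1 - mp.2.2.1 * mp.2.2.2.1 ≠ 0 ∧
    L.Perm (mapT mp (terms 0 A))

instance (L : List (ℤ × ℤ × ℤ)) (A : List (List ℤ)) (mp : ℤ × ℤ × ℤ × ℤ × ℤ × ℤ × ℤ) :
    Decidable (okMap L A mp) := by unfold okMap; infer_instance

/-- All the checks. -/
def Chk (L : List (ℤ × ℤ × ℤ)) (D : Dat) : Prop :=
  D.A.length = D.d + 1 ∧ (D.A.getD D.d []).getLast? = some 1 ∧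
    ((D.A.getD 0 []).getD 0 0 = 1 ∨ (D.A.getD 0 []).getD 0 0 = -1) ∧
    isz2 (add2 (add2 (mul2 D.U D.A) (mul2 D.V (D.A.map derL))) [sclL (-1) D.R]) = true ∧
    gcdL D.R = 1 ∧ D.k < D.i ∧ (D.c₁ = 1 ∨ D.c₁ = -1) ∧ (D.c₂ = 0 ∨ D.c₂ = 1 ∨ D.c₂ = -1) ∧
    isz (addL (combL D.w D.A) (addL (monoL (-D.c₁) D.i) (monoL (-D.c₂) D.k))) = true ∧
    okMap L D.A D.mp ∧
    D.A'.length = D.d' + 1 ∧ gcdL (D.A'.getD D.d' []) = 1 ∧ 0 < D.N ∧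
    D.p * D.p + D.q * D.q = D.N * D.N ∧ D.j ≤ D.d' ∧
    (D.A'.getD D.d' []).length ≤ D.K + 1 ∧ (D.A'.getD D.j []).length ≤ D.K + 1 ∧
    (D.d'.choose D.j : ℤ) ^ 2 * nsq (gev D.p D.q D.N D.K (D.A'.getD D.d' [])) <
      nsq (gev D.p D.q D.N D.K (D.A'.getD D.j [])) ∧ okMap L D.A' D.mp'

instance (L : List (ℤ × ℤ × ℤ)) (D : Dat) : Decidable (Chk L D) := by
  unfold Chk; infer_instance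

/-- The 61 Laurent polynomials. -/
def Qs : List (List (ℤ × ℤ × ℤ)) :=
  [[(1, 4, 1), (-1, 3, 0), (-1, 0, 1), (-1, 0, -1), (-1, -3, 0), (1, -4, -1)],
   [(1, 1, 0), (1, 0, 1), (1, 0, 0), (1, 0, -1), (1, -1, 0)],
   [(1, 2, 1), (1, 2, 0), (1, 1, 1), (-1, 0, 0), (1, -1, -1), (1, -2, 0), (1, -2, -1)],
   [(1, 6, 1), (1, 5, 0), (1, 0, 1), (1, 0, -1), (1, -5, 0), (1, -6, -1)],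
   [(1, 5, 4), (1, 1, 0), (1, 0, 1), (1, 0, -1), (1, -1, 0), (1, -5, -4)],
   [(1, 3, 0), (1, 2, 2), (1, 0, 3), (-1, 0, -3), (-1, -2, -2), (-1, -3, 0)],
   [(1, 5, 0), (-1, 4, 1), (1, 0, 1), (1, 0, -1), (-1, -4, -1), (1, -5, 0)],
   [(1, 2, 0), (1, 1, 0), (1, 0, 1), (1, 0, -1), (1, -1, 0), (1, -2, 0)],
   [(1, 3, 0), (1, 1, 1), (1, 0, 3), (-1, 0, -3), (-1, -1, -1), (-1, -3, 0)],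
   [(1, 8, 1), (-1, 7, 0), (-1, 0, 1), (-1, 0, -1), (-1, -7, 0), (1, -8, -1)],
   [(1, 6, 1), (1, 1, 0), (1, 0, 1), (1, 0, -1), (1, -1, 0), (1, -6, -1)],
   [(1, 5, 4), (1, 3, 0), (1, 0, 3), (1, 0, -3), (1, -3, 0), (1, -5, -4)],
   [(1, 7, 0), (1, 5, 2), (1, 0, 7), (1, 0, -7), (1, -5, -2), (1, -7, 0)],
   [(1, 7, 0), (1, 6, 1), (1, 0, 1), (1, 0, -1), (1, -6, -1), (1, -7, 0)],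
   [(1, 5, 0), (-1, 3, 0), (1, 0, 1), (1, 0, -1), (-1, -3, 0), (1, -5, 0)],
   [(1, 8, 1), (-1, 5, 0), (-1, 0, 1), (-1, 0, -1), (-1, -5, 0), (1, -8, -1)],
   [(1, 10, 0), (1, 9, 9), (1, 0, 10), (1, 0, -10), (1, -9, -9), (1, -10, 0)],
   [(1, 3, 0), (1, 1, 1), (1, 0, 1), (1, 0, -1), (1, -1, -1), (1, -3, 0)],
   [(1, 8, 1), (-1, 3, 0), (-1, 0, 1), (-1, 0, -1), (-1, -3, 0), (1, -8, -1)],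
   [(1, 5, 0), (1, 4, 4), (1, 0, 5), (-1, 0, -5), (-1, -4, -4), (-1, -5, 0)],
   [(1, 3, 1), (1, 3, 0), (1, 2, 1), (-1, 1, 0), (-1, 0, 0), (-1, -1, 0), (1, -2, -1), (1, -3,
    0), (1, -3, -1)],
   [(1, 8, 1), (-1, 1, 0), (-1, 0, 1), (-1, 0, -1), (-1, -1, 0), (1, -8, -1)],
   [(1, 9, 9), (1, 8, 0), (-1, 0, 8), (-1, 0, -8), (1, -8, 0), (1, -9, -9)],
   [(1, 6, 7), (-1, 5, 0), (-1, 0, 5), (-1, 0, -5), (-1, -5, 0), (1, -6, -7)],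
   [(1, 12, 1), (1, 11, 0), (-1, 0, 1), (1, 0, -1), (-1, -11, 0), (-1, -12, -1)],
   [(1, 7, 0), (1, 5, 0), (1, 0, 1), (1, 0, -1), (1, -5, 0), (1, -7, 0)],
   [(1, 8, 7), (1, 1, 0), (1, 0, 1), (1, 0, -1), (1, -1, 0), (1, -8, -7)],
   [(1, 10, 1), (1, 7, 0), (1, 0, 1), (1, 0, -1), (1, -7, 0), (1, -10, -1)],
   [(1, 4, 7), (-1, 1, 0), (-1, 0, 1), (-1, 0, -1), (-1, -1, 0), (1, -4, -7)],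
   [(1, 5, 0), (1, 3, 3), (1, 0, 5), (-1, 0, -5), (-1, -3, -3), (-1, -5, 0)],
   [(1, 4, 0), (1, 1, 0), (1, 0, 1), (1, 0, -1), (1, -1, 0), (1, -4, 0)],
   [(1, 5, 0), (-1, 3, 2), (1, 0, 5), (1, 0, -5), (-1, -3, -2), (1, -5, 0)],
   [(1, 2, 1), (1, 1, 0), (1, 0, 3), (1, 0, -3), (1, -1, 0), (1, -2, -1)],
   [(1, 14, 1), (1, 13, 0), (-1, 0, 1), (1, 0, -1), (-1, -13, 0), (-1, -14, -1)],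
   [(1, 11, 11), (1, 10, 0), (1, 0, 10), (1, 0, -10), (1, -10, 0), (1, -11, -11)],
   [(1, 9, 0), (-1, 5, 0), (1, 0, 1), (1, 0, -1), (-1, -5, 0), (1, -9, 0)],
   [(1, 8, 9), (1, 7, 0), (1, 0, 7), (1, 0, -7), (1, -7, 0), (1, -8, -9)],
   [(1, 5, 0), (1, 2, 2), (1, 0, 5), (-1, 0, -5), (-1, -2, -2), (-1, -5, 0)],
   [(1, 2, 2), (1, 2, 1), (1, 1, 2), (1, 1, 1), (-1, 1, -1), (-1, -1, 1), (1, -1, -1), (1, -1,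
    -2), (1, -2, -1), (1, -2, -2)],
   [(1, 10, 1), (1, 3, 0), (1, 0, 1), (1, 0, -1), (1, -3, 0), (1, -10, -1)],
   [(1, 7, 2), (-1, 3, 0), (-1, 0, 1), (-1, 0, -1), (-1, -3, 0), (1, -7, -2)],
   [(1, 9, 2), (-1, 5, 0), (-1, 0, 1), (-1, 0, -1), (-1, -5, 0), (1, -9, -2)],
   [(1, 8, 7), (1, 3, 0), (1, 0, 3), (1, 0, -3), (1, -3, 0), (1, -8, -7)],
   [(1, 5, 0), (1, 1, 1), (1, 0, 5), (-1, 0, -5), (-1, -1, -1), (-1, -5, 0)],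
   [(1, 10, 1), (1, 1, 0), (1, 0, 1), (1, 0, -1), (1, -1, 0), (1, -10, -1)],
   [(1, 5, 0), (-1, 2, 1), (1, 0, 1), (1, 0, -1), (-1, -2, -1), (1, -5, 0)],
   [(1, 7, 0), (1, 6, 6), (1, 0, 7), (-1, 0, -7), (-1, -6, -6), (-1, -7, 0)],
   [(1, 7, 0), (1, 5, 4), (1, 0, 7), (1, 0, -7), (1, -5, -4), (1, -7, 0)],
   [(1, 16, 1), (1, 15, 0), (-1, 0, 1), (1, 0, -1), (-1, -15, 0), (-1, -16, -1)],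
   [(1, 11, 0), (1, 4, 7), (1, 0, 11), (1, 0, -11), (1, -4, -7), (1, -11, 0)],
   [(1, 9, 0), (-1, 5, 2), (1, 0, 9), (1, 0, -9), (-1, -5, -2), (1, -9, 0)],
   [(1, 13, 0), (1, 12, 1), (-1, 0, 1), (1, 0, -1), (-1, -12, -1), (-1, -13, 0)],
   [(1, 9, 9), (1, 2, 0), (1, 0, 2), (1, 0, -2), (1, -2, 0), (1, -9, -9)],
   [(1, 3, 1), (1, 3, 0), (1, 2, 1), (1, 2, 0), (-1, 0, 0), (1, -2, 0), (1, -2, -1), (1, -3, 0),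
    (1, -3, -1)],
   [(1, 8, 1), (-1, 3, 0), (-1, 0, 3), (-1, 0, -3), (-1, -3, 0), (1, -8, -1)],
   [(1, 12, 1), (-1, 7, 0), (-1, 0, 1), (-1, 0, -1), (-1, -7, 0), (1, -12, -1)],
   [(1, 10, 11), (-1, 9, 0), (-1, 0, 9), (-1, 0, -9), (-1, -9, 0), (1, -10, -11)],
   [(1, 14, 1), (1, 11, 0), (-1, 0, 1), (1, 0, -1), (-1, -11, 0), (-1, -14, -1)],
   [(1, 9, 0), (-1, 4, 7), (1, 0, 9), (1, 0, -9), (-1, -4, -7), (1, -9, 0)],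
   [(1, 6, 11), (-1, 1, 0), (-1, 0, 1), (-1, 0, -1), (-1, -1, 0), (1, -6, -11)],
   [(1, 5, 0), (1, 4, 0), (1, 0, 1), (1, 0, -1), (1, -4, 0), (1, -5, 0)]]

/-- Their data. -/
def dats : List Dat :=
  [⟨2, [[1, 0, -1], [1, 0, 0, 1], [0, -1, 0, 1]], [[1, 0, -2, 0, -2, -6, -3], [-1, 0, 6, 2, -9,
    -6]], [[-1, -1, 3, 4, 0, 0, 2, 1], [0, 1, 0, -4, -2, 3, 2]], [1, 2, -1, -6, -8, -6, -1, 2,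
    1], [0, 0, 1], 1, -1, 3, 1, (-1, 2, 0, -3, -1, 0, 1), 3, [[1, -1], [0, 0, -1], [-1], [0, -1,
    1]], (1, -1, -1, -2, 0, 4, 1), 1, 0, 1, 1, 2⟩,
   ⟨2, [[1, 1], [0, 1], [0, 1, 1]], [[1, 4, 4, 2], [0, 0, -1, -2]], [[0, -1, -3, -2, -1], [0, 0,
    0, 1, 1]], [1, 4, 5, 4, 1], [0, 0, 1], 1, 1, 2, 1, (1, 1, -1, -1, 0, 0, 1), 2, [[1, 1], [0,
    1], [0, 1, 1]], (1, 1, -1, -1, 0, 0, 1), -1, 0, 1, 1, 2⟩,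
   ⟨2, [[1, 1], [1, 0, -1, 0, 1], [0, 0, 0, 1, 1]], [[0, 6, 17, 16, 13, 14, 8, 4], [0, 0, -9,
    -24, -13, 10, 11, 4]], [[3, 4, -4, -9, -6, -3, -3, -2, -1], [0, 0, 0, 3, 7, 3, -3, -3, -1]],
    [3, 10, 19, 24, 23, 24, 19, 10, 3], [0, 0, 1], 1, 1, 4, 3, (1, 1, 0, -3, -1, 1, 1), 4, [[1,
    1], [1], [0, -1], [0, 0, 1], [0, 1, 1]], (1, 0, -1, -1, 0, 2, 1), -1, 0, 1, 1, 2⟩,
   ⟨2, [[1, 0, 0, 1], [1, 0, 0, 0, 0, 1], [0, 0, 1, 0, 0, 1]], [[0, 4, 0, 0, 8, 0, 0, -1, 0, 15,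
    10], [0, -4, 0, 0, -20, 0, 6, -25, 0, 15]], [[2, 0, -2, 5, 0, -7, 0, 0, -1, 0, -3, -2], [0,
    0, 2, 0, 0, 7, 0, -3, 5, 0, -3]], [0, 4, 6, 0, 6, 15, 0, -14, 0, 15, 6, 0, 6, 4], [0, 0, 1],
    1, 1, 5, 2, (1, 2, 0, -5, -1, 0, 1), 5, [[1, 1], [], [0, 0, 1], [1], [], [0, 1, 1]], (1, -1,
    -1, -2, 0, 6, 1), -1, 0, 1, 2, 2⟩,
   ⟨1, [[1, 1, 0, 0, 0, 1], [1, 0, 0, 0, 1, 1]], [[0, 0, 0, 4, 5]], [[-1, 0, 0, 0, -1, -1]], [-1,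
    0, 0, 4, 3, 4, 0, 0, -1], [-1, 1], 1, -1, 4, 1, (1, -1, -1, 5, 3, 0, 1), 5, [[1, 1], [1], [],
    [], [0, 1], [1, 1]], (1, 5, 3, -1, -1, 0, 1), -1, 0, 1, 1, 1⟩,
   ⟨2, [[-1, 0, 0, 1], [-1, 0, 0, 0, 1], [0, -1, 0, 0, 1]], [[-1, 0, 0, 2, 0, 0, 7, -12, 0, 4],
    [1, 0, 0, -8, 3, 0, 16, -12]], [[-1, 1, 0, 4, -5, 0, 0, -1, 3, 0, -1], [0, -1, 0, 0, 5, -3,
    0, -4, 3]], [1, 0, -3, 0, 0, 12, -20, 12, 0, 0, -3, 0, 1], [0, 0, 1], 1, -1, 4, 1, (1, 1, 1,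
    -2, 1, 0, -3), 4, [[-1, -1], [0, 0, -1], [], [1], [0, 1, 1]], (-1, -1, 2, -1, -1, 3, 0), -1,
    0, 1, 1, 2⟩,
   ⟨2, [[1, 0, -1], [1, 0, 0, 0, 0, 1], [0, 0, 0, -1, 0, 1]], [[0, 0, 9, 0, -18, 0, 14, 0, -15,
    -10], [0, 0, -9, 0, 30, 0, -25, 6, 0, -10]], [[-3, 0, 5, -3, 0, 8, 0, -4, 0, 3, 2], [0, 0, 0,
    3, 0, -8, 0, 5, -2, 0, 2]], [0, 6, 9, -10, -21, 0, 16, 0, -21, -10, 9, 6], [0, 0, 1], 1, -1,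
    5, 3, (1, 2, 0, -5, -1, 0, 1), 5, [[-1, 1], [], [1], [0, 0, 1], [], [0, 1, -1]], (1, 1, -1,
    -2, 0, 4, 1), 1, 0, 1, 2, 2⟩,
   ⟨2, [[1], [1, 1, 0, 1, 1], [0, 0, 0, 0, 1]], [[-4, -3, -12, -10, -12, -3, -4], [0, 0, 0, -16,
    -12, 0, -4]], [[4, 7, 3, 5, 4, 3, 1, 1], [0, 0, 0, 0, 4, 3, 0, 1]], [-4, -3, -12, -10, -12,
    -3, -4], [0, 0, 1], 1, 0, 4, 0, (1, 1, 0, -2, -1, 0, 1), 4, [[1, 1], [0, 1], [], [0, 1], [0,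
    1, 1]], (1, 2, -1, -1, 0, 0, 1), -1, 0, 1, 1, 2⟩,
   ⟨2, [[-1, 0, 0, 1], [0, -1, 0, 1], [0, -1, 0, 0, 1]], [[-1, 0, 0, 8, -3, -6, 1, 0, -3, 4], [0,
    0, 0, 2, -3, 0, -7, 12, 0, -4]], [[0, 1, 0, 0, -5, 3, 2, -1, 0, 1, -1], [0, 0, 0, 0, -2, 3,
    0, 1, -3, 0, 1]], [1, 0, 0, -6, 3, 6, -8, 6, 3, -6, 0, 0, 1], [0, 0, 1], 1, -1, 4, 1, (1, 1,
    1, -2, 1, 0, -3), 6, [[-1, -1], [0, -1], [], [], [], [0, 0, 0, 1], [0, 0, 0, 1, 1]], (-1, 3,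
    -3, -2, 1, 0, 3), -1, 0, 1, 1, 4⟩,
   ⟨2, [[1, 0, 0, 0, -1], [1, 0, 0, 0, 0, 0, 0, 1], [0, 0, 0, -1, 0, 0, 0, 1]], [[0, 0, 9, 0, 0,
    0, -18, 0, 0, 0, 2, 0, 0, -28, -21], [0, 0, -9, 0, 0, 0, 42, 0, 0, 12, -49, 0, 0, -28]],
    [[-3, 0, 0, -3, 7, 0, 0, 10, 0, 0, 0, -2, 0, 0, 4, 3], [0, 0, 0, 3, 0, 0, 0, -10, 0, 0, -4,
    7, 0, 0, 4]], [0, 0, 9, 12, 0, 0, -15, -28, 0, 0, -20, 0, 0, -28, -15, 0, 0, 12, 9], [0, 0,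
    1], 1, -1, 7, 3, (-1, 2, 0, -7, -1, 0, 1), 7, [[1, -1], [], [], [0, 0, -1], [-1], [], [], [0,
    -1, 1]], (1, -1, -1, -2, 0, 8, 1), 1, 0, 1, 3, 2⟩,
   ⟨2, [[1, 0, 0, 1], [0, 1, 1], [1, 0, 0, 1]], [[1, 4, 4, -2, -5, -2], [0, 0, 3, 6, 0, -6, -3]],
    [[0, -1, -3, -2, 2, 3, 1], [-1, -2, 0, 1, -1, 0, 2, 1]], [1, 4, 4, -4, -10, -4, 4, 4, 1], [0,
    0, 1], 1, 1, 3, 0, (1, -2, 0, -3, -1, 6, 1), 2, [[1, 0, 0, 1], [0, 1, 1], [1, 0, 0, 1]], (1,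
    -2, 0, -3, -1, 6, 1), 3, 4, 5, 1, 3⟩,
   ⟨3, [[1], [1, 0, 0, 1], [0, 0, 1, 0, 0, 1], [0, 0, 0, 0, 0, 1]], [[0, 12, -68, 75, 60, -146,
    60, 75, -68, 12], [0, -12, 50, 0, -54, 40, 0, -72, 58, 0, -30, 20], [0, 0, 0, 0, -30, 125, 0,
    -135, 100, 0, -30, 20]], [[6, -25, -6, 58, -45, -21, 52, -24, -15, 16, -4], [0, 0, 6, -25, 0,
    27, -20, 0, 18, -14, 0, 6, -4], [0, 0, 0, 0, 0, 6, -25, 0, 27, -20, 0, 6, -4]], [0, 12, -68,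
    75, 60, -146, 60, 75, -68, 12], [0, 0, 0, 1], 1, 0, 5, 0, (1, 1, -1, -5, -1, 5, 4), 3, [[0,
    1, 1], [1], [0, 0, 0, 1], [0, 1, 1]], (1, 3, 3, 1, -1, -6, -3), -1, 0, 1, 1, 2⟩,
   ⟨1, [[1, 0, 1, 0, 0, 0, 0, 1], [1, 0, 0, 0, 0, 1, 0, 1]], [[0, 0, 0, 0, 5, 0, 7]], [[-1, 0, 0,
    0, 0, -1, 0, -1]], [0, -2, 0, 0, 5, 0, 3, 0, 5, 0, 0, -2], [-1, 1], 1, -1, 5, 2, (1, -1, 1,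
    -7, -7, 7, 0), 7, [[1, 1], [], [1], [], [], [0, 1], [], [1, 1]], (1, -7, -7, -1, 1, 7, 0),
    -1, 0, 1, 2, 1⟩,
   ⟨2, [[1, 0, 0, 1], [1, 0, 0, 0, 0, 0, 0, 1], [0, 0, 0, 0, 1, 0, 0, 1]], [[0, 0, 0, 16, 0, 0,
    32, 0, 0, 23, 0, 0, 28, 21], [0, 0, 0, -16, 0, 0, -56, 0, 0, -49, 12, 0, 0, 21]], [[4, 0, 0,
    7, -4, 0, 0, -11, 0, 0, -5, 0, 0, -4, -3], [0, 0, 0, 0, 4, 0, 0, 11, 0, 0, 7, -3, 0, 0, -3]],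
    [0, 0, 12, 16, 0, 21, 36, 0, 0, 22, 0, 0, 36, 21, 0, 16, 12], [0, 0, 1], 1, 1, 7, 4, (1, 2,
    0, -7, -1, 0, 1), 7, [[1, 1], [], [], [1], [0, 0, 1], [], [], [0, 1, 1]], (1, 1, -1, -2, 0,
    6, 1), -1, 0, 1, 3, 2⟩,
   ⟨2, [[1], [1, -1, 0, 0, -1, 1], [0, 0, 0, 0, 0, 1]], [[5, -4, 0, 20, -17, 20, 0, -4, 5], [0,
    0, 0, 0, -25, 20, 0, 0, 5]], [[5, -9, 4, 0, -6, 5, -4, 0, 1, -1], [0, 0, 0, 0, 0, 5, -4, 0,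
    0, -1]], [5, -4, 0, 20, -17, 20, 0, -4, 5], [0, 0, 1], 1, 0, 5, 0, (1, 2, 0, -5, -1, 0, 1),
    5, [[1, 1], [0, -1], [], [], [0, -1], [0, 1, 1]], (1, 5, -1, -2, 0, 0, 1), -1, 0, 1, 1, 2⟩,
   ⟨2, [[1, 0, 0, 0, -1], [1, 0, 0, 0, 0, 1], [0, -1, 0, 0, 0, 1]], [[1, 0, 0, 0, -2, 0, 0, 0,
    -14, -20, 0, 0, -5], [-1, 0, 0, 0, 10, 4, 0, 0, -25, -20]], [[-1, -1, 0, 0, 5, 6, 0, 0, 0, 2,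
    4, 0, 0, 1], [0, 1, 0, 0, 0, -6, -4, 0, 0, 5, 4]], [1, 0, 0, 4, 1, 0, 0, -20, -36, -20, 0, 0,
    1, 4, 0, 0, 1], [0, 0, 1], 1, -1, 5, 1, (-1, 2, 0, -5, -1, 0, 1), 5, [[1, -1], [0, 0, -1],
    [], [], [-1], [0, -1, 1]], (1, -3, -1, -2, 0, 8, 1), 1, 0, 1, 1, 2⟩,
   ⟨2, [[1, 0, 0, 0, 0, 1], [1, 0, 0, 0, 0, 0, 0, 0, 0, 1], [0, 0, 0, 0, 1, 0, 0, 0, 0, 1]], [[0,
    0, 0, 16, 0, 0, 0, 0, 32, 0, 0, 0, 0, 7, 0, 0, 0, 45, 36], [0, 0, 0, -16, 0, 0, 0, 0, -72, 0,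
    0, 0, 20, -81, 0, 0, 0, 45]], [[4, 0, 0, 0, -4, 9, 0, 0, 0, -13, 0, 0, 0, 0, -3, 0, 0, 0, -5,
    -4], [0, 0, 0, 0, 4, 0, 0, 0, 0, 13, 0, 0, 0, -5, 9, 0, 0, 0, -5]], [0, 0, 0, 16, 20, 0, 0,
    0, 28, 45, 0, 0, 0, -26, 0, 0, 0, 45, 28, 0, 0, 0, 20, 16], [0, 0, 1], 1, 1, 9, 4, (1, 2, 2,
    -9, 1, 0, -10), 9, [[1, 1], [], [], [], [0, 0, 1], [1], [], [], [], [0, 1, 1]], (1, -1, 9,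
    -2, -2, 10, 0), -1, 0, 1, 4, 2⟩,
   ⟨2, [[1, 1], [1, 0, 0, 0, 0, 0, 1], [0, 0, 0, 0, 0, 1, 1]], [[0, 0, 0, 0, 25, 50, 49, 30, 0,
    0, 0, 6], [0, 0, 0, 0, -25, -60, -36, 0, 0, 0, 5, 6]], [[5, 6, 0, 0, 0, -5, -11, -9, -5, 0,
    0, 0, -1], [0, 0, 0, 0, 0, 5, 11, 6, 0, 0, 0, -1, -1]], [5, 6, 0, 0, 25, 70, 88, 70, 25, 0,
    0, 6, 5], [0, 0, 1], 1, 1, 6, 5, (1, 1, 0, -3, -1, 0, 1), 6, [[1, 1], [1], [], [], [], [0, 0,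
    1], [0, 1, 1]], (1, 2, -1, -1, 0, 1, 1), -1, 0, 1, 1, 2⟩,
   ⟨2, [[1, 0, 0, 0, -1], [0, 1, 0, 0, 1], [0, -1, 0, 0, 0, 1]], [[1, 0, 0, 0, -10, -4, 0, -12,
    -6, 0, 0, -4, -5], [0, 0, 0, 0, 3, 4, 0, 0, -14, -20, 0, 0, -5]], [[0, -1, 0, 0, 0, 6, 4, 0,
    3, 2, 0, 0, 1, 1], [0, 0, 0, 0, 0, -3, -4, 0, 0, 2, 4, 0, 0, 1]], [1, 0, 0, 0, -7, -4, 0,
    -12, -20, -12, 0, -4, -7, 0, 0, 0, 1], [0, 0, 1], 1, -1, 5, 1, (-1, 2, 0, -5, -1, 0, 1), 2,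
    [[-1, 0, 0, 0, 1], [0, -1, 0, 0, -1], [0, 1, 0, 0, 0, -1]], (1, 2, 0, -5, -1, 0, 1), 1, 0, 1,
    1, 5⟩,
   ⟨2, [[-1, 0, 0, 0, 0, 1], [-1, 0, 0, 0, 0, 0, 0, 0, 1], [0, 0, 0, -1, 0, 0, 0, 0, 1]], [[0, 0,
    -9, 0, 0, 0, 0, 18, 0, 0, 0, 0, 7, 0, 0, -40, 0, 24], [0, 0, 9, 0, 0, 0, 0, -48, 0, 0, 15, 0,
    64, 0, 0, -40]], [[-3, 0, 0, 3, 0, 8, 0, 0, -11, 0, 0, 0, 0, 1, 0, 0, 5, 0, -3], [0, 0, 0,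
    -3, 0, 0, 0, 0, 11, 0, 0, -5, 0, -8, 0, 0, 5]], [0, 0, 9, 0, -15, 0, 0, -12, 0, 40, 0, 0,
    -44, 0, 0, 40, 0, -12, 0, 0, -15, 0, 9], [0, 0, 1], 1, -1, 8, 3, (1, 1, 1, -4, 1, 0, -5), 8,
    [[-1, -1], [], [], [0, 0, -1], [], [1], [], [], [0, 1, 1]], (-1, -1, 4, -1, -1, 5, 0), -1, 0,
    1, 3, 2⟩,
   ⟨2, [[1, 1], [1, 0, -1, -1, -1, 0, 1], [0, 0, 0, 0, 0, 1, 1]], [[0, 10, 27, 32, 28, 12, 9, 24,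
    25, 20, 12, 6], [0, 0, 0, 0, -25, -60, -21, 48, 56, 34, 17, 6]], [[5, 6, -8, -17, -12, -4, 2,
    3, -1, -3, -3, -2, -1], [0, 0, 0, 0, 0, 5, 11, 3, -9, -10, -6, -3, -1]], [5, 16, 29, 42, 48,
    36, 23, 36, 48, 42, 29, 16, 5], [0, 0, 1], 1, 1, 6, 5, (1, 1, 0, -5, -1, 2, 1), 6, [[1, 1],
    [1], [0, -1], [0, -1], [0, -1], [0, 0, 1], [0, 1, 1]], (1, 0, -1, -1, 0, 3, 1), -1, 0, 1, 1,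
    2⟩,
   ⟨2, [[1, 0, 0, 0, -1], [0, 0, 0, 1, 1], [0, 0, 0, -1, 0, 0, 0, 1]], [[9, 0, 0, 0, -42, -4, 0,
    -12, 26, -12, 0, 0, -21], [0, 0, 0, 0, 3, 0, 0, 12, 2, 0, 0, -28, -21]], [[0, -3, 0, 0, 0,
    10, 1, 0, 4, -2, 3, 0, 0, 3], [0, 0, 0, 0, 0, -1, 0, 0, -4, -2, 0, 0, 4, 3]], [9, 0, 0, 0,
    -39, -4, 0, -12, 28, -12, 0, -4, -39, 0, 0, 0, 9], [0, 0, 1], 1, -1, 7, 3, (-1, 2, 0, -7, -1,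
    0, 1), 2, [[-1, 0, 0, 0, 1], [0, 0, -1, -1], [0, 1, 0, 0, 0, -1]], (1, 2, 0, -5, -1, 0, 1),
    1, 0, 1, 1, 5⟩,
   ⟨2, [[1, 0, 0, 0, -1], [1, 0, 0, 0, 0, 0, 0, 0, 0, 1], [0, 0, 0, 0, 0, -1, 0, 0, 0, 1]], [[0,
    0, 0, 0, 25, 0, 0, 0, -50, 0, 0, 0, 34, 0, 0, 0, -45, -36], [0, 0, 0, 0, -25, 0, 0, 0, 90, 0,
    0, 0, -81, 20, 0, 0, 0, -36]], [[-5, 0, 0, 0, 9, -5, 0, 0, 0, 14, 0, 0, 0, -6, 0, 0, 0, 5,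
    4], [0, 0, 0, 0, 0, 5, 0, 0, 0, -14, 0, 0, 0, 9, -4, 0, 0, 0, 4]], [0, 0, 0, 20, 25, 0, 0,
    -36, -55, 0, 0, 0, 28, 0, 0, 0, -55, -36, 0, 0, 25, 20], [0, 0, 1], 1, -1, 9, 5, (1, 2, 2,
    -1, -9, -8, 0), 9, [[-1, 1], [], [], [], [1], [0, 0, 1], [], [], [], [0, 1, -1]], (1, 9, 1,
    -2, -2, 0, 8), 1, 0, 1, 4, 2⟩,
   ⟨3, [[1, 0, -1], [1], [0, 0, 0, 0, 0, 1], [0, 0, 0, -1, 0, 1]], [[0, 0, -27, 0, 108, 0, -165,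
    0, 163, 0, -132, 50, 45, -30], [0, 0, 27, 0, -99, 0, 132, 0, -115, 0, 75, -42], [0, 0, -27,
    0, 135, 0, -225, -18, 125, 96, 0, -128, 0, 30]], [[-9, 0, 30, 9, -25, -42, 0, 75, 0, -53, 0,
    30, -10, -9, 6], [0, 0, 0, -9, 0, 33, 0, -42, 0, 29, 4, -15, 6], [0, 0, 0, 9, 0, -39, 0, 55,
    6, -25, -28, 0, 28, 0, -6]], [0, 18, -27, -60, 117, 50, -189, 0, 178, 0, -189, 50, 117, -60,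
    -27, 18], [0, 0, 0, 1], 1, -1, 5, 3, (-1, 3, 1, -5, -5, 0, 5), 3, [[0, -1, 0, 1], [-1], [0,
    0, 0, 0, -1], [0, 1, 0, -1]], (1, 3, 1, -2, -4, -3, 4), 1, 0, 1, 1, 3⟩,
   ⟨2, [[-1, 0, 0, 0, 0, 0, 1], [-1, 0, 0, 0, 0, 0, 0, 0, 0, 0, 0, 1], [0, 0, 0, 0, 0, -1, 0, 0,
    0, 0, 0, 1]], [[0, 0, 0, 0, -25, 0, 0, 0, 0, 0, 50, 0, 0, 0, 0, 0, -14, 0, 0, 0, 0, -66, 55],
    [0, 0, 0, 0, 25, 0, 0, 0, 0, 0, -110, 0, 0, 0, 0, 30, 121, 0, 0, 0, 0, -66]], [[-5, 0, 0, 0,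
    0, 5, 11, 0, 0, 0, 0, -16, 0, 0, 0, 0, 0, 4, 0, 0, 0, 0, 6, -5], [0, 0, 0, 0, 0, -5, 0, 0, 0,
    0, 0, 16, 0, 0, 0, 0, -6, -11, 0, 0, 0, 0, 6]], [0, 0, 0, 0, 25, -30, 0, 0, 0, 0, -45, 66, 0,
    0, 0, 0, -32, 0, 0, 0, 0, 66, -45, 0, 0, 0, 0, -30, 25], [0, 0, 1], 1, -1, 11, 5, (1, 2, 0,
    -11, -1, 0, 1), 11, [[1, 1], [], [], [], [], [0, 0, 1], [-1], [], [], [], [], [0, -1, -1]],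
    (1, -1, -1, -2, 0, 12, 1), -1, 0, 1, 5, 2⟩,
   ⟨2, [[1], [1, 1, 0, 0, 0, 0, 1, 1], [0, 0, 0, 0, 0, 0, 0, 1]], [[-7, -6, 0, 0, 0, -42, -37,
    -42, 0, 0, 0, -6, -7], [0, 0, 0, 0, 0, 0, -49, -42, 0, 0, 0, 0, -7]], [[7, 13, 6, 0, 0, 0, 8,
    7, 6, 0, 0, 0, 1, 1], [0, 0, 0, 0, 0, 0, 0, 7, 6, 0, 0, 0, 0, 1]], [-7, -6, 0, 0, 0, -42,
    -37, -42, 0, 0, 0, -6, -7], [0, 0, 1], 1, 0, 7, 0, (1, 2, 0, -7, -1, 0, 1), 7, [[1, 1], [0,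
    1], [], [], [], [], [0, 1], [0, 1, 1]], (1, 7, -1, -2, 0, 0, 1), -1, 0, 1, 1, 2⟩,
   ⟨1, [[1, 1, 0, 0, 0, 0, 0, 0, 1], [1, 0, 0, 0, 0, 0, 0, 1, 1]], [[0, 0, 0, 0, 0, 0, 7, 8]],
    [[-1, 0, 0, 0, 0, 0, 0, -1, -1]], [-1, 0, 0, 0, 0, 0, 7, 6, 7, 0, 0, 0, 0, 0, -1], [-1, 1],
    1, -1, 7, 1, (1, -1, -1, 8, 6, 0, 1), 8, [[1, 1], [1], [], [], [], [], [], [0, 1], [1, 1]],
    (1, 8, 6, -1, -1, 0, 1), -1, 0, 1, 1, 1⟩,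
   ⟨2, [[1, 0, 0, 0, 0, 1], [1, 0, 0, 0, 0, 0, 0, 1], [0, 0, 1, 0, 0, 0, 0, 1]], [[0, 4, 0, 0, 0,
    0, 8, 0, 0, 0, 0, -17, 0, 35, 0, 0, 14], [0, -4, 0, 0, 0, 0, -28, 0, 10, 0, 0, -49, 0, 35]],
    [[2, 0, -2, 0, 0, 7, 0, -9, 0, 0, 0, 0, 1, 0, -5, 0, 0, -2], [0, 0, 2, 0, 0, 0, 0, 9, 0, -5,
    0, 0, 7, 0, -5]], [0, 4, 0, 0, 10, 0, 2, 0, 0, 35, 0, -54, 0, 35, 0, 0, 2, 0, 10, 0, 0, 4],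
    [0, 0, 1], 1, 1, 7, 2, (1, 2, 0, -7, -1, 0, 1), 7, [[1, 1], [], [0, 0, 1], [], [], [1], [],
    [0, 1, 1]], (1, -3, -1, -2, 0, 10, 1), -1, 0, 1, 2, 2⟩,
   ⟨3, [[1], [-1, -1], [0, 0, 0, 0, 0, 0, -1, -1], [0, 0, 0, 0, 0, 0, 0, 1]], [[-49, -84, -36, 0,
    0, -300, -278, -300, 0, 0, -36, -84, -49], [0, 0, 0, 0, 0, -294, -504, -510, -252, 0, -36,
    -114, -120, -42], [0, 0, 0, 0, 0, 0, 343, 588, 252, 0, 0, 42, 133, 42]], [[49, 133, 120, 36,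
    0, 6, 74, 68, 48, 0, 0, 6, 13, 7], [0, 0, 0, 0, 0, 0, 49, 84, 78, 36, 0, 6, 19, 18, 6], [0,
    0, 0, 0, 0, 0, 0, -49, -84, -36, 0, 0, -6, -19, -6]], [-49, -84, -36, 0, 0, -300, -278, -300,
    0, 0, -36, -84, -49], [0, 0, 0, 1], 1, 0, 7, 0, (1, 1, 1, -5, -7, 4, 7), 7, [[0, 0, -1, 1],
    [0, 0, -1], [], [], [], [], [0, -1], [1, -1]], (1, 5, 7, 1, 1, -11, -14), 1, 0, 1, 1, 2⟩,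
   ⟨2, [[-1, 0, 0, 0, 0, 1], [-1, 0, 0, 0, 0, 0, 1], [0, -1, 0, 0, 0, 0, 1]], [[-1, 0, 0, 0, 0,
    2, 0, 0, 0, 0, 23, -30, 0, 0, 0, 6], [1, 0, 0, 0, 0, -12, 5, 0, 0, 0, 36, -30]], [[-1, 1, 0,
    0, 0, 6, -7, 0, 0, 0, 0, -3, 5, 0, 0, 0, -1], [0, -1, 0, 0, 0, 0, 7, -5, 0, 0, 0, -6, 5]],
    [1, 0, 0, 0, -5, 2, 0, 0, 0, 30, -56, 30, 0, 0, 0, 2, -5, 0, 0, 0, 1], [0, 0, 1], 1, -1, 6,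
    1, (1, 1, 1, -3, 2, 0, -5), 6, [[1, 1], [0, 0, 1], [], [], [], [-1], [0, -1, -1]], (1, -2, 3,
    -1, -1, 5, 0), -1, 0, 1, 1, 2⟩,
   ⟨2, [[1], [1, 0, 0, 1, 0, 1, 0, 0, 1], [0, 0, 0, 0, 0, 0, 0, 0, 1]], [[0, 0, -24, 0, -40, -15,
    0, -34, 0, -15, -40, 0, -24], [0, 0, 0, 0, 0, 0, 0, -64, 0, 0, -40, 0, -24]], [[8, 0, 0, 13,
    0, 11, 5, 0, 8, 0, 3, 5, 0, 3], [0, 0, 0, 0, 0, 0, 0, 0, 8, 0, 0, 5, 0, 3]], [0, 0, -24, 0,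
    -40, -15, 0, -34, 0, -15, -40, 0, -24], [0, 0, 1], 1, 0, 8, 0, (1, 1, 0, -4, -1, 0, 1), 8,
    [[1, 1], [], [], [0, 1], [], [0, 1], [], [], [0, 1, 1]], (1, 4, -1, -1, 0, 0, 1), -1, 0, 1,
    3, 2⟩,
   ⟨1, [[1, 0, -1, 0, 0, 1], [1, 0, 0, -1, 0, 1]], [[0, 0, -3, 0, 5]], [[-1, 0, 0, 1, 0, -1]],
    [0, 2, -3, 0, 1, 0, -3, 2], [-1, 1], -1, 1, 3, 2, (1, -1, 1, -5, -5, 5, 0), 5, [[1, 1], [],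
    [-1], [0, -1], [], [1, 1]], (1, -5, -5, -1, 1, 5, 0), -1, 0, 1, 2, 1⟩,
   ⟨3, [[1], [0, 0, 1, 1], [1, 1], [0, 0, 0, 1]], [[3, 2, 12, 14, 22, 14, 12, 2, 3], [0, 6, 16,
    14, 4, 0, -8], [0, 0, 0, 18, 21, 24, 12, 0, 3]], [[-3, -5, -2, -6, -4, -8, -6, -4, -1, -1],
    [0, -6, -13, -18, -14, -4, -1, 2], [0, 0, 0, 0, -6, -7, -8, -4, 0, -1]], [3, 2, 12, 14, 22,
    14, 12, 2, 3], [0, 0, 0, 1], 1, 0, 3, 0, (1, -1, -1, 1, -1, 0, 3), 6, [[0, 0, 1, 1], [0, 0,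
    1], [], [], [], [0, 1], [1, 1]], (1, -2, -4, -1, -1, 6, 9), -1, 0, 1, 1, 2⟩,
   ⟨2, [[-1, 0, 0, 0, 0, 0, 0, 1], [-1, 0, 0, 0, 0, 0, 0, 0, 0, 0, 0, 0, 0, 1], [0, 0, 0, 0, 0,
    0, -1, 0, 0, 0, 0, 0, 0, 1]], [[0, 0, 0, 0, 0, -36, 0, 0, 0, 0, 0, 0, 72, 0, 0, 0, 0, 0, 0,
    -23, 0, 0, 0, 0, 0, -91, 78], [0, 0, 0, 0, 0, 36, 0, 0, 0, 0, 0, 0, -156, 0, 0, 0, 0, 0, 42,
    169, 0, 0, 0, 0, 0, -91]], [[-6, 0, 0, 0, 0, 0, 6, 13, 0, 0, 0, 0, 0, -19, 0, 0, 0, 0, 0, 0,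
    5, 0, 0, 0, 0, 0, 7, -6], [0, 0, 0, 0, 0, 0, -6, 0, 0, 0, 0, 0, 0, 19, 0, 0, 0, 0, 0, -7,
    -13, 0, 0, 0, 0, 0, 7]], [0, 0, 0, 0, 0, 36, -42, 0, 0, 0, 0, 0, -66, 91, 0, 0, 0, 0, 0, -38,
    0, 0, 0, 0, 0, 91, -66, 0, 0, 0, 0, 0, -42, 36], [0, 0, 1], 1, -1, 13, 6, (1, 2, 0, -13, -1,
    0, 1), 13, [[1, 1], [], [], [], [], [], [0, 0, 1], [-1], [], [], [], [], [], [0, -1, -1]],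
    (1, -1, -1, -2, 0, 14, 1), -1, 0, 1, 6, 2⟩,
   ⟨2, [[1, 0, 0, 0, 0, 1], [1, 0, 0, 0, 0, 0, 0, 0, 0, 0, 0, 1], [0, 0, 0, 0, 0, 0, 1, 0, 0, 0,
    0, 1]], [[0, 0, 0, 0, 0, 36, 0, 0, 0, 0, 72, 0, 0, 0, 0, 47, 0, 0, 0, 0, 66, 55], [0, 0, 0,
    0, 0, -36, 0, 0, 0, 0, -132, 0, 0, 0, 0, -121, 30, 0, 0, 0, 0, 55]], [[6, 0, 0, 0, 0, 11, -6,
    0, 0, 0, 0, -17, 0, 0, 0, 0, -7, 0, 0, 0, 0, -6, -5], [0, 0, 0, 0, 0, 0, 6, 0, 0, 0, 0, 17,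
    0, 0, 0, 0, 11, -5, 0, 0, 0, 0, -5]], [0, 0, 0, 0, 30, 36, 0, 0, 0, 55, 78, 0, 0, 0, 0, 34,
    0, 0, 0, 0, 78, 55, 0, 0, 0, 36, 30], [0, 0, 1], 1, 1, 11, 6, (1, 2, 2, -11, -1, 0, -10), 11,
    [[1, 1], [], [], [], [], [1], [0, 0, 1], [], [], [], [], [0, 1, 1]], (1, 1, 11, -2, -2, 10,
    0), -1, 0, 1, 5, 2⟩,
   ⟨2, [[1], [1, 0, -1, 0, 0, 0, 0, -1, 0, 1], [0, 0, 0, 0, 0, 0, 0, 0, 0, 1]], [[0, 18, 0, -14,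
    0, 0, 63, 0, -53, 0, 63, 0, 0, -14, 0, 18], [0, 0, 0, 0, 0, 0, 0, 0, -81, 0, 63, 0, 0, 0, 0,
    18]], [[9, 0, -16, 0, 7, 0, 0, -11, 0, 9, 0, -7, 0, 0, 2, 0, -2], [0, 0, 0, 0, 0, 0, 0, 0, 0,
    9, 0, -7, 0, 0, 0, 0, -2]], [0, 18, 0, -14, 0, 0, 63, 0, -53, 0, 63, 0, 0, -14, 0, 18], [0,
    0, 1], 1, 0, 9, 0, (1, 2, 0, -9, -1, 0, 1), 9, [[1, 1], [], [0, -1], [], [], [], [], [0, -1],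
    [], [0, 1, 1]], (1, 9, -1, -2, 0, 0, 1), -1, 0, 1, 2, 2⟩,
   ⟨4, [[1], [1, 0, 0, 0, 1], [], [0, 0, 0, 0, 0, 1, 0, 0, 0, 1], [0, 0, 0, 0, 0, 0, 0, 0, 0,
    1]], [[0, 0, 0, -400, -500, 0, -2916, -5965, -2700, 0, -4860, -9241, -4860, 0, -2700, -5965,
    -2916, 0, -500, -400], [0, 0, 0, 0, 500, 0, 0, 3645, 2800, 0, 0, 5346, 5720, 0, 0, 5490,
    5040, 0, 0, 2025, 1620], [0, 0, 0, 0, -500, 0, 0, -3645, -2900, 0, 0, -6075, -6280, 0, 0,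
    -7020, -6824, 0, 0, -4675, -4100, 0, 0, -1125, -900], [0, 0, 0, 0, 0, 0, 0, 0, -900, 0, 0,
    -6561, -5220, 0, 0, -10935, -10980, 0, 0, -6075, -5220, 0, 0, -1125, -900]], [[100, 0, 0,
    729, 680, 100, 0, 1944, 2465, 460, 0, 1890, 2429, 684, 0, 800, 1085, 324, 0, 125, 100], [0,
    0, 0, 0, 0, -100, 0, 0, -729, -560, 0, 0, -954, -984, 0, 0, -710, -640, 0, 0, -225, -180],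
    [0, 0, 0, 0, 0, 100, 0, 0, 729, 580, 0, 0, 1215, 1240, 0, 0, 1080, 1016, 0, 0, 575, 500, 0,
    0, 125, 100], [0, 0, 0, 0, 0, 0, 0, 0, 0, 100, 0, 0, 729, 580, 0, 0, 1215, 1220, 0, 0, 675,
    580, 0, 0, 125, 100]], [0, 0, 0, -400, -500, 0, -2916, -5965, -2700, 0, -4860, -9241, -4860,
    0, -2700, -5965, -2916, 0, -500, -400], [0, 0, 0, 0, 1], 1, 0, 9, 0, (1, -2, -4, 1, 9, 7, 0),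
    7, [[1, 1], [], [], [0, 0, 0, 1], [0, 1], [], [], [0, 0, 0, 1, 1]], (1, 7, 7, -2, -4, -7, 0),
    -1, 0, 1, 3, 4⟩,
   ⟨2, [[-1, 0, 0, 0, 0, 1], [0, -1, 0, 0, 0, 1], [0, -1, 0, 0, 0, 0, 1]], [[-1, 0, 0, 0, 0, 12,
    -5, 0, 0, -20, 13, 0, 0, 0, -5, 6], [0, 0, 0, 0, 0, 4, -5, 0, 0, 0, -23, 30, 0, 0, 0, -6]],
    [[0, 1, 0, 0, 0, 0, -7, 5, 0, 0, 4, -3, 0, 0, 0, 1, -1], [0, 0, 0, 0, 0, 0, -4, 5, 0, 0, 0,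
    3, -5, 0, 0, 0, 1]], [1, 0, 0, 0, 0, -8, 5, 0, 0, 20, -36, 20, 0, 0, 5, -8, 0, 0, 0, 0, 1],
    [0, 0, 1], 1, -1, 6, 1, (1, 1, 1, -3, 2, 0, -5), 10, [[1, 1], [0, 1], [], [], [], [], [], [],
    [], [0, 0, 0, 0, 0, -1], [0, 0, 0, 0, 0, -1, -1]], (1, -5, 5, 2, -3, 5, 0), -1, 0, 1, 1, 6⟩,
   ⟨4, [[1, 1], [1, 1, 0, -1], [], [0, -1, 0, 1, 1], [0, 0, 0, 1, 1]], [[0, 0, -6, -5, 54, 201,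
    368, 372, 186, 50, 114, 246, 272, 192, 84, 19, 0, -3], [2, 3, -18, -86, -174, -171, -26, 99,
    -60, -503, -822, -717, -352, -66, 30, 33, 12], [-2, -3, 18, 82, 168, 195, 138, 138, 312, 564,
    684, 534, 204, -39, -90, -50, -12, 3, 4], [0, 0, 6, 17, -42, -318, -832, -1221, -882, 241,
    1290, 1419, 788, 165, -84, -82, -24, 3, 4]], [[-2, -3, 18, 88, 179, 162, -63, -386, -534,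
    -390, -140, -6, -12, -47, -48, -26, -7, 0, 1], [0, -2, -3, 18, 86, 186, 223, 113, -51, -73,
    71, 201, 193, 97, 18, -9, -9, -3], [0, 2, 3, -18, -82, -168, -187, -78, 60, 73, -48, -159,
    -152, -63, 9, 25, 14, 3, -1, -1], [0, 0, 0, -2, -5, 15, 100, 250, 351, 233, -97, -381, -395,
    -209, -39, 25, 22, 6, -1, -1]], [-2, -3, 12, 77, 228, 417, 506, 354, 24, -154, 24, 354, 506,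
    417, 228, 77, 12, -3, -2], [0, 0, 0, 0, 1], 1, 1, 4, 3, (1, 0, -1, -1, 0, 2, 2), 4, [[1, 1],
    [1, 1, 0, -1], [], [0, -1, 0, 1, 1], [0, 0, 0, 1, 1]], (1, 0, -1, -1, 0, 2, 2), -1, 0, 1, 1,
    4⟩,
   ⟨2, [[1, 0, 0, 0, 0, 1], [0, 1, 0, 0, 1], [1, 0, 0, 0, 0, 1]], [[1, 0, 0, 8, 0, -4, 16, 0,
    -17, 0, 0, -4], [0, 0, 0, 0, 5, 0, 0, 20, 0, -20, 0, 0, -5]], [[0, -1, 0, 0, -5, 0, 4, -4, 0,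
    5, 0, 0, 1], [-1, 0, 0, -4, 0, 3, 0, 0, -3, 0, 4, 0, 0, 1]], [1, 0, 0, 8, 0, -8, 16, 0, -34,
    0, 16, -8, 0, 8, 0, 0, 1], [0, 0, 1], 1, 1, 5, 0, (1, -2, 0, -5, -1, 10, 1), 2, [[1, 0, 0, 0,
    0, 1], [0, 1, 0, 0, 1], [1, 0, 0, 0, 0, 1]], (1, -2, 0, -5, -1, 10, 1), 4, 3, 5, 1, 5⟩,
   ⟨3, [[1, 1], [-1], [0, 0, 0, 0, 0, 0, -1], [0, 0, 0, 0, 0, 1, 1]], [[0, 0, 0, 0, 125, 500,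
    865, 884, 545, 150, 0, 0, 36, 30], [0, 0, 0, 0, 125, 400, 545, 444, 180, 0, 0, 0, 35], [0, 0,
    0, 0, 125, 450, 540, 216, 0, 0, -25, -110, -121, -30]], [[25, 60, 36, 0, 0, -25, -105, -185,
    -169, -95, -25, 0, 0, -6, -5], [0, 0, 0, 0, 0, -25, -80, -105, -79, -30, 0, 0, 1, -5], [0, 0,
    0, 0, 0, -25, -85, -96, -36, 0, 0, 5, 21, 21, 5]], [25, 60, 36, 0, 125, 600, 1260, 1564,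
    1260, 600, 125, 0, 36, 60, 25], [0, 0, 0, 1], 1, 1, 6, 5, (-1, 3, 1, -4, -2, -3, 0), 3, [[0,
    0, -1, -1], [1], [0, 0, 0, 0, 1], [0, -1, -1]], (1, -3, -1, -2, 0, 9, 2), -1, 0, 1, 1, 2⟩,
   ⟨4, [[1], [-1], [0, 0, -1, 0, 0, 0, 0, -1], [0, 0, 0, 0, 0, 0, 0, 0, 0, -1], [0, 0, 0, 0, 0,
    0, 0, 0, 0, 1]], [[0, 196, 0, 0, -1458, 0, -1918, 0, 0, -5103, 0, -9678, 0, -5103, 0, 0,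
    -1918, 0, -1458, 0, 0, 196], [0, 196, 0, 0, -1458, 0, -1918, 0, 0, -5103, 0, -9678, 0, -5103,
    0, 0, -1918, 0, -1458, 0, 0, 196], [0, 0, 0, 0, 0, 0, 0, 0, 0, 0, 0, 0, 0, -5103, 0, -3969,
    0, 0, -1458, 0, -2268, 0, 0, 0, 0, -324], [0, 0, 0, 0, 0, 0, 0, 0, -882, 0, 0, 6561, 0,
    11718, 0, 3969, 0, 0, 2538, 0, 2268, 0, 0, -252, 0, 324]], [[-98, 0, -98, 729, 0, 2031, 0,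
    1204, 0, 0, 1011, 0, 1584, 0, 567, -28, 0, 254, 0, 162, 0, 0, -28], [0, 0, -98, 0, 0, 729, 0,
    1204, 0, 343, 729, 0, 1584, 0, 861, 0, 0, 254, 0, 246, 0, 0, -28, 0, 8], [0, 0, 0, 0, 0, 0,
    0, 0, 0, 0, 0, 0, 0, 0, 567, 0, 441, 0, 0, 162, 0, 252, 0, 0, 0, 0, 36], [0, 0, 0, 0, 0, 0,
    0, 0, 0, 98, 0, 0, -729, 0, -1302, 0, -441, 0, 0, -282, 0, -252, 0, 0, 28, 0, -36]], [0, 196,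
    0, 0, -1458, 0, -1918, 0, 0, -5103, 0, -9678, 0, -5103, 0, 0, -1918, 0, -1458, 0, 0, 196],
    [0, 0, 0, 0, 1], 1, 0, 9, 0, (1, 2, 0, -9, -1, 9, 2), 5, [[0, 0, -1, -1], [], [0, 0, 0, 0,
    1], [1], [], [0, -1, -1]], (1, -5, -1, -2, 0, 15, 2), -1, 0, 1, 2, 4⟩,
   ⟨3, [[1, 1], [0, 0, 0, 0, 1], [1], [0, 0, 0, 1, 1]], [[0, 0, 0, 0, 27, 72, 111, 120, 75, 36,
    0, 0, 0, 4], [0, 0, -9, -24, -16, 0, 0, 0, 9, 30, 33, 12], [0, 0, 0, 0, -27, -90, -123, -104,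
    -48, 0, 0, 0, 3, 4]], [[3, 4, 0, 0, 0, -9, -27, -41, -39, -21, -9, 0, 0, 0, -1], [0, 0, 9,
    21, 24, 16, 0, 0, 0, -3, -10, -9, -3], [0, 0, 0, 0, 0, 9, 27, 35, 29, 12, 0, 0, 0, -1, -1]],
    [3, 4, 0, 0, 27, 90, 156, 190, 156, 90, 27, 0, 0, 4, 3], [0, 0, 0, 1], 1, 1, 4, 3, (1, -3,
    -3, 4, 2, 0, 3), 3, [[0, 0, 0, 1, 1], [1], [0, 0, 0, 0, 1], [1, 1]], (1, -3, -3, -4, -2, 12,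
    9), -1, 0, 1, 1, 1⟩,
   ⟨2, [[-1, 0, 0, 0, 0, 1], [0, 0, 0, -1, 0, 1], [0, 0, 0, -1, 0, 0, 0, 0, 1]], [[-9, 0, 0, 0,
    0, 48, 0, -10, -15, 0, -23, 0, -15, 0, 0, 24], [0, 0, 0, 0, 0, 6, 0, 0, -15, 0, -7, 0, 0, 40,
    0, -24]], [[0, 3, 0, 0, 0, 0, -11, 0, 2, 5, 0, 1, 0, 3, 0, 0, -3], [0, 0, 0, 0, 0, 0, -2, 0,
    0, 5, 0, -1, 0, 0, -5, 0, 3]], [9, 0, 0, 0, 0, -42, 0, 10, 15, 0, 16, 0, 15, 10, 0, -42, 0,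
    0, 0, 0, 9], [0, 0, 1], 1, -1, 8, 3, (1, 1, 1, -4, 1, 0, -5), 10, [[-1, -1], [], [], [0, 0,
    -1], [], [], [], [0, 0, 0, 0, 1], [], [], [0, 0, 0, 0, 0, 1, 1]], (-1, 5, -5, -3, 2, 0, 5),
    -1, 0, 1, 3, 6⟩,
   ⟨2, [[1, 0, 0, 0, 0, 1], [0, 0, 1, 1], [1, 0, 0, 0, 0, 1]], [[0, 4, 12, 9, 0, 0, -6, -13, -6],
    [0, 0, 0, 0, 10, 15, 0, 0, 0, -15, -10]], [[0, 0, -2, -5, -3, 0, 0, 3, 5, 2], [-2, -3, 0, 0,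
    0, 1, -1, 0, 0, 0, 3, 2]], [0, 4, 12, 9, 0, 0, -12, -26, -12, 0, 0, 9, 12, 4], [0, 0, 1], 1,
    1, 5, 0, (1, -2, 0, -5, -1, 10, 1), 2, [[1, 0, 0, 0, 0, 1], [0, 0, 1, 1], [1, 0, 0, 0, 0,
    1]], (1, -2, 0, -5, -1, 10, 1), 4, 3, 5, 1, 5⟩,
   ⟨2, [[1, -1], [1, 0, 0, 0, 0, 1], [0, 0, 0, 0, -1, 1]], [[0, 0, 0, 16, -32, 31, -20, 0, 0,
    -5], [0, 0, 0, -16, 40, -25, 0, 0, 4, -5]], [[-4, 5, 0, 0, -4, 9, -7, 4, 0, 0, 1], [0, 0, 0,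
    0, 4, -9, 5, 0, 0, -1, 1]], [4, -5, 0, 16, -44, 54, -44, 16, 0, -5, 4], [0, 0, 1], 1, -1, 5,
    4, (1, 2, 0, -5, -1, 0, 1), 5, [[-1, 1], [1], [], [], [0, 0, 1], [0, 1, -1]], (1, 3, -1, -2,
    0, 2, 1), 1, 0, 1, 1, 2⟩,
   ⟨2, [[-1, 0, 0, 0, 0, 0, 0, 1], [-1, 0, 0, 0, 0, 0, 0, 0, 0, 0, 0, 0, 1], [0, 0, 0, 0, 0, -1,
    0, 0, 0, 0, 0, 0, 1]], [[0, 0, 0, 0, -25, 0, 0, 0, 0, 0, 0, 50, 0, 0, 0, 0, 0, 0, -1, 0, 0,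
    0, 0, -84, 0, 60], [0, 0, 0, 0, 25, 0, 0, 0, 0, 0, 0, -120, 0, 0, 0, 0, 35, 0, 144, 0, 0, 0,
    0, -84]], [[-5, 0, 0, 0, 0, 5, 0, 12, 0, 0, 0, 0, -17, 0, 0, 0, 0, 0, 0, 3, 0, 0, 0, 0, 7, 0,
    -5], [0, 0, 0, 0, 0, -5, 0, 0, 0, 0, 0, 0, 17, 0, 0, 0, 0, -7, 0, -12, 0, 0, 0, 0, 7]], [0,
    0, 0, 0, 25, 0, -35, 0, 0, 0, 0, -40, 0, 84, 0, 0, 0, 0, -68, 0, 0, 0, 0, 84, 0, -40, 0, 0,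
    0, 0, -35, 0, 25], [0, 0, 1], 1, -1, 12, 5, (1, 1, 1, -6, 1, 0, -7), 12, [[-1, -1], [], [],
    [], [], [0, 0, -1], [], [1], [], [], [], [], [0, 1, 1]], (-1, -1, 6, -1, -1, 7, 0), -1, 0, 1,
    5, 2⟩,
   ⟨3, [[1], [1, 0, 0, 0, 1], [0, 0, 0, 1, 0, 0, 0, 1], [0, 0, 0, 0, 0, 0, 0, 1]], [[0, 0, 36,
    -195, 196, 0, 168, -383, 168, 0, 196, -195, 36], [0, 0, -36, 147, 0, 0, -156, 126, 0, 0,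
    -204, 174, 0, 0, -84, 63], [0, 0, 0, 0, 0, 0, -84, 343, 0, 0, -364, 294, 0, 0, -84, 63]],
    [[12, -49, 0, -12, 113, -91, 0, -40, 101, -51, 0, -28, 33, -9], [0, 0, 0, 12, -49, 0, 0, 52,
    -42, 0, 0, 36, -30, 0, 0, 12, -9], [0, 0, 0, 0, 0, 0, 0, 12, -49, 0, 0, 52, -42, 0, 0, 12,
    -9]], [0, 0, 36, -195, 196, 0, 168, -383, 168, 0, 196, -195, 36], [0, 0, 0, 1], 1, 0, 7, 0,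
    (1, 3, 1, -7, -7, 0, 7), 4, [[0, 1, 1], [1], [], [0, 0, 0, 1], [0, 1, 1]], (1, 2, -4, -3, -1,
    3, 8), -1, 0, 1, 1, 2⟩,
   ⟨2, [[-1, 0, 0, 0, 0, 0, 0, 0, 1], [-1, 0, 0, 0, 0, 0, 0, 0, 0, 0, 0, 0, 0, 0, 0, 1], [0, 0,
    0, 0, 0, 0, 0, -1, 0, 0, 0, 0, 0, 0, 0, 1]], [[0, 0, 0, 0, 0, 0, -49, 0, 0, 0, 0, 0, 0, 0,
    98, 0, 0, 0, 0, 0, 0, 0, -34, 0, 0, 0, 0, 0, 0, -120, 105], [0, 0, 0, 0, 0, 0, 49, 0, 0, 0,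
    0, 0, 0, 0, -210, 0, 0, 0, 0, 0, 0, 56, 225, 0, 0, 0, 0, 0, 0, -120]], [[-7, 0, 0, 0, 0, 0,
    0, 7, 15, 0, 0, 0, 0, 0, 0, -22, 0, 0, 0, 0, 0, 0, 0, 6, 0, 0, 0, 0, 0, 0, 8, -7], [0, 0, 0,
    0, 0, 0, 0, -7, 0, 0, 0, 0, 0, 0, 0, 22, 0, 0, 0, 0, 0, 0, -8, -15, 0, 0, 0, 0, 0, 0, 8]],
    [0, 0, 0, 0, 0, 0, 49, -56, 0, 0, 0, 0, 0, 0, -91, 120, 0, 0, 0, 0, 0, 0, -44, 0, 0, 0, 0, 0,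
    0, 120, -91, 0, 0, 0, 0, 0, 0, -56, 49], [0, 0, 1], 1, -1, 15, 7, (1, 2, 0, -15, -1, 0, 1),
    15, [[1, 1], [], [], [], [], [], [], [0, 0, 1], [-1], [], [], [], [], [], [], [0, -1, -1]],
    (1, -1, -1, -2, 0, 16, 1), -1, 0, 1, 7, 2⟩,
   ⟨1, [[1, 0, 0, 0, 0, 0, 0, 1, 0, 0, 0, 1], [1, 0, 0, 0, 1, 0, 0, 0, 0, 0, 0, 1]], [[0, 0, 0,
    4, 0, 0, 0, 0, 0, 0, 11]], [[-1, 0, 0, 0, -1, 0, 0, 0, 0, 0, 0, -1]], [0, 0, 0, 4, 0, 0, -7,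
    0, 0, 0, -3, 0, 0, 0, -7, 0, 0, 4], [-1, 1], -1, 1, 7, 4, (1, -1, 1, -11, -11, 11, 0), 11,
    [[1, 1], [], [], [], [0, 1], [], [], [1], [], [], [], [1, 1]], (1, -11, -11, -1, 1, 11, 0),
    -1, 0, 1, 4, 1⟩,
   ⟨3, [[1, 0, 0, 1], [0, 0, 0, 0, -1], [0, 0, 0, -1], [0, 0, 0, 0, 1, 0, 0, 1]], [[64, -9, 0,
    336, -36, 0, 608, 0, 0, 593, 0, 0, 384, 0, -36, 112], [0, 0, 0, 0, 0, 0, 0, 48, -12, 0, 180,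
    -48, 0, 189, 0, 0, 84], [0, 0, 0, 16, 0, 0, 120, 0, 0, 289, 0, 0, 288, 0, 36, 112, 0, 63]],
    [[0, -16, 3, 0, -72, 12, 0, -104, 0, 0, -83, 0, 0, -48, 0, 9, -16], [0, 0, 0, 1, 0, 0, 8, 0,
    -12, 20, 0, -36, 16, 0, -27, 0, 0, -12], [0, 0, 0, 0, -4, 0, 0, -27, 0, 0, -55, 0, 0, -48, 0,
    -9, -16, 0, -9]], [64, -9, 0, 352, -36, 0, 728, 0, 0, 889, 0, 0, 728, 0, -36, 352, 0, -9,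
    64], [0, 0, 0, 1], 1, 1, 7, 4, (1, -3, -3, 7, 1, 0, 9), 3, [[0, 1, 0, 0, 1], [0, -1], [0, 0,
    0, -1], [1, 0, 0, 1]], (1, -3, -3, -4, 2, 12, 3), -1, 0, 1, 1, 3⟩,
   ⟨2, [[-1, 0, 0, 0, 0, 0, 1], [-1, 0, 0, 0, 0, 0, 0, 0, 0, 0, 0, 0, 0, 1], [0, 0, 0, 0, 0, 0,
    0, -1, 0, 0, 0, 0, 0, 1]], [[0, 0, 0, 0, 0, 0, -49, 0, 0, 0, 0, 0, 98, 0, 0, 0, 0, 0, -62, 0,
    0, 0, 0, 0, 91, -78], [0, 0, 0, 0, 0, 0, 49, 0, 0, 0, 0, 0, -182, 0, 0, 0, 0, 0, 169, 42, 0,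
    0, 0, 0, 0, -78]], [[-7, 0, 0, 0, 0, 0, 13, 7, 0, 0, 0, 0, 0, -20, 0, 0, 0, 0, 0, 8, 0, 0, 0,
    0, 0, -7, 6], [0, 0, 0, 0, 0, 0, 0, -7, 0, 0, 0, 0, 0, 20, 0, 0, 0, 0, 0, -13, -6, 0, 0, 0,
    0, 0, 6]], [0, 0, 0, 0, 0, -42, 49, 0, 0, 0, 0, 78, -105, 0, 0, 0, 0, 0, 40, 0, 0, 0, 0, 0,
    -105, 78, 0, 0, 0, 0, 49, -42], [0, 0, 1], 1, -1, 13, 7, (1, 2, 0, -13, -1, 0, 1), 13, [[-1,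
    -1], [], [], [], [], [], [1], [0, 0, -1], [], [], [], [], [], [0, 1, 1]], (-1, 1, -1, -2, 0,
    12, 1), -1, 0, 1, 6, 2⟩,
   ⟨2, [[1, 1], [1, 0, 0, 0, 0, 0, 0, 0, 0, 1], [0, 0, 0, 0, 0, 0, 0, 0, 1, 1]], [[0, 0, 0, 0, 0,
    0, 0, 64, 128, 127, 72, 0, 0, 0, 0, 0, 0, 9], [0, 0, 0, 0, 0, 0, 0, -64, -144, -81, 0, 0, 0,
    0, 0, 0, 8, 9]], [[8, 9, 0, 0, 0, 0, 0, 0, -8, -17, -15, -8, 0, 0, 0, 0, 0, 0, -1], [0, 0, 0,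
    0, 0, 0, 0, 0, 8, 17, 9, 0, 0, 0, 0, 0, 0, -1, -1]], [8, 9, 0, 0, 0, 0, 0, 64, 184, 238, 184,
    64, 0, 0, 0, 0, 0, 9, 8], [0, 0, 1], 1, 1, 9, 8, (1, 2, 2, -9, -7, 0, -2), 9, [[1, 1], [1],
    [], [], [], [], [], [], [0, 0, 1], [0, 1, 1]], (1, 7, 9, -2, -2, 2, 0), -1, 0, 1, 1, 2⟩,
   ⟨2, [[1, 1], [1, 1, 0, -1, 0, 1, 1], [0, 0, 0, 0, 0, 1, 1]], [[-5, -10, 10, 32, 18, -6, -9,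
    10, 27, 18], [0, 0, 0, 0, -25, -80, -85, -20, 27, 18]], [[5, 15, 15, -2, -15, -8, 2, 3, -2,
    -5, -3], [0, 0, 0, 0, 0, 5, 15, 15, 3, -5, -3]], [0, 0, 15, 40, 35, 4, -13, 4, 35, 40, 15],
    [0, 0, 1], 1, 1, 6, 5, (1, 1, 0, -5, -1, 2, 1), 6, [[1, 1], [1, 1], [], [0, -1], [], [0, 1,
    1], [0, 1, 1]], (1, 0, -1, -1, 0, 3, 1), -1, 0, 1, 3, 2⟩,
   ⟨3, [[1], [0, -1, 0, 0, -1], [-1, 0, 0, -1], [0, 0, 0, 0, 1]], [[4, 0, 0, -7, -36, -9, -66,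
    -9, -36, -7, 0, 0, 4], [0, 0, 12, 0, 0, 27, 0, 21, 18, 0, 0, 3], [0, 0, 0, -16, 0, 0, 28, 0,
    36, -8, 0, 0, -4]], [[0, -4, 12, 0, 19, 15, 9, 18, 3, 9, 1, 0, 0, -1], [-4, 0, 0, 3, 0, 9,
    -7, 0, -3, -6, 0, 0, -1], [0, 0, 0, 0, 4, 0, 0, -7, 0, -9, 2, 0, 0, 1]], [4, 0, 0, -7, -36,
    -9, -66, -9, -36, -7, 0, 0, 4], [0, 0, 0, 1], 1, 0, 4, 0, (1, -1, 1, -4, -2, 8, 1), 4, [[1,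
    0, -1], [0, -1], [], [0, 0, -1], [0, -1, 0, 1]], (1, -4, -2, -1, 1, 8, 1), 1, 0, 1, 1, 3⟩,
   ⟨2, [[1, 0, 0, 0, 0, 0, -1], [1, 0, 0, 0, 0, 0, 0, 1], [0, -1, 0, 0, 0, 0, 0, 1]], [[1, 0, 0,
    0, 0, 0, -2, 0, 0, 0, 0, 0, -34, -42, 0, 0, 0, 0, -7], [-1, 0, 0, 0, 0, 0, 14, 6, 0, 0, 0, 0,
    -49, -42]], [[-1, -1, 0, 0, 0, 0, 7, 8, 0, 0, 0, 0, 0, 4, 6, 0, 0, 0, 0, 1], [0, 1, 0, 0, 0,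
    0, 0, -8, -6, 0, 0, 0, 0, 7, 6]], [1, 0, 0, 0, 0, 6, 3, 0, 0, 0, 0, -42, -80, -42, 0, 0, 0,
    0, 3, 6, 0, 0, 0, 0, 1], [0, 0, 1], 1, -1, 7, 1, (-1, 2, 0, -7, -1, 0, 1), 7, [[1, -1], [0,
    0, -1], [], [], [], [], [-1], [0, -1, 1]], (1, -5, -1, -2, 0, 12, 1), 1, 0, 1, 1, 2⟩,
   ⟨4, [[1], [-1, 0, 0, 0, 0, 1], [], [0, 0, 0, 0, 0, 0, 1, 0, 0, 0, 0, -1], [0, 0, 0, 0, 0, 0,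
    0, 0, 0, 0, 0, 1]], [[0, 0, 0, 0, -900, -1080, 0, 0, 6655, 13236, 5940, 0, 0, -10890, -20881,
    -10890, 0, 0, 5940, 13236, 6655, 0, 0, -1080, -900], [0, 0, 0, 0, 0, -1080, 0, 0, 0, 7986,
    6120, 0, 0, 0, -11737, -12630, 0, 0, 0, 12012, 11220, 0, 0, 0, -4356, -3630], [0, 0, 0, 0, 0,
    -1080, 0, 0, 0, 7986, 6300, 0, 0, 0, -13068, -13650, 0, 0, 0, 15114, 14825, 0, 0, 0, -10008,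
    -9000, 0, 0, 0, 2376, 1980], [0, 0, 0, 0, 0, 0, 0, 0, 0, 0, -1980, 0, 0, 0, 14641, 11550, 0,
    0, 0, -23958, -24420, 0, 0, 0, 13068, 11550, 0, 0, 0, -2376, -1980]], [[-180, 0, 0, 0, 1331,
    1230, 180, 0, 0, -3509, -4476, -840, 0, 0, 3366, 4421, 1265, 0, 0, -1404, -1956, -605, 0, 0,
    216, 180], [0, 0, 0, 0, 0, 0, 180, 0, 0, 0, -1331, -1020, 0, 0, 0, 1727, 1805, 0, 0, 0,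
    -1272, -1170, 0, 0, 0, 396, 330], [0, 0, 0, 0, 0, 0, 180, 0, 0, 0, -1331, -1050, 0, 0, 0,
    2178, 2250, 0, 0, 0, -1914, -1825, 0, 0, 0, 1008, 900, 0, 0, 0, -216, -180], [0, 0, 0, 0, 0,
    0, 0, 0, 0, 0, 0, 180, 0, 0, 0, -1331, -1050, 0, 0, 0, 2178, 2220, 0, 0, 0, -1188, -1050, 0,
    0, 0, 216, 180]], [0, 0, 0, 0, -900, -1080, 0, 0, 6655, 13236, 5940, 0, 0, -10890, -20881,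
    -10890, 0, 0, 5940, 13236, 6655, 0, 0, -1080, -900], [0, 0, 0, 0, 1], 1, 0, 11, 0, (-1, -2,
    -4, 1, 11, 9, 0), 5, [[0, -1, 0, 1], [], [-1], [0, 0, 0, 0, -1], [], [0, 1, 0, -1]], (1, 5,
    1, -2, -4, -5, 8), 1, 0, 1, 2, 3⟩,
   ⟨2, [[-1, 0, 0, 0, 0, 0, 0, 1], [-1, 0, 0, 0, 0, 0, 0, 0, 0, 0, 0, 1], [0, 0, 0, 0, -1, 0, 0,
    0, 0, 0, 0, 1]], [[0, 0, 0, -16, 0, 0, 0, 0, 0, 0, 32, 0, 0, 0, 0, 0, 0, 17, 0, 0, 0, -77, 0,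
    0, 44], [0, 0, 0, 16, 0, 0, 0, 0, 0, 0, -88, 0, 0, 0, 28, 0, 0, 121, 0, 0, 0, -77]], [[-4, 0,
    0, 0, 4, 0, 0, 11, 0, 0, 0, -15, 0, 0, 0, 0, 0, 0, 1, 0, 0, 0, 7, 0, 0, -4], [0, 0, 0, 0, -4,
    0, 0, 0, 0, 0, 0, 15, 0, 0, 0, -7, 0, 0, -11, 0, 0, 0, 7]], [0, 0, 0, 16, 0, 0, -28, 0, 0, 0,
    -20, 0, 0, 77, 0, 0, 0, -90, 0, 0, 0, 77, 0, 0, -20, 0, 0, 0, -28, 0, 0, 16], [0, 0, 1], 1,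
    -1, 11, 4, (1, 2, 0, -11, -1, 0, 1), 11, [[-1, -1], [], [], [], [0, 0, -1], [], [], [1], [],
    [], [], [0, 1, 1]], (-1, -3, -1, -2, 0, 14, 1), -1, 0, 1, 4, 2⟩,
   ⟨3, [[1, 0, 0, 1], [-1], [0, 0, 0, 0, -1], [0, 1, 0, 0, 1]], [[1, 0, 0, 4, 0, 0, -11, 0, 0,
    -44, 48, 0, 1, 12, 0, 4], [1, 0, 0, 6, 0, 0, 1, 0, 0, -24, 21, 0, 16], [1, 0, 0, 12, -3, 0,
    48, -30, 0, 64, -75, 0, 0, -12]], [[1, -1, 0, 8, -7, 0, 16, -13, 0, 0, 5, -12, 0, -1, -3, 0,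
    -1], [0, -1, 0, 0, -6, 0, 0, -7, 9, 0, 3, -3, 0, -4], [0, -1, 0, 0, -9, 3, 0, -24, 21, 0,
    -16, 21, 0, 0, 3]], [1, 0, 3, 2, 0, 24, -28, 0, 48, -94, 48, 0, -28, 24, 0, 2, 3, 0, 1], [0,
    0, 0, 1], 1, 1, 4, 1, (1, -3, -3, 4, -2, 0, 9), 3, [[0, 1, 0, 0, 1], [0, 0, 0, 0, -1], [-1],
    [1, 0, 0, 1]], (1, -3, -3, -4, 2, 12, 3), -1, 0, 1, 1, 4⟩,
   ⟨4, [[1], [-1, 0, 0, 1], [], [0, 0, 0, 0, 0, 0, 0, 0, 1, 0, 0, -1], [0, 0, 0, 0, 0, 0, 0, 0,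
    0, 0, 0, 1]], [[0, 0, 3993, 0, -576, -8712, 0, 13744, 6336, -1536, -15889, -1536, 6336,
    13744, 0, -8712, -576, 0, 3993], [0, 0, 0, 0, 0, 0, 0, 10648, 0, -1536, -16577, 0, 7296,
    17072, 0, -12888, -7744, 0, 10032, 0, 0, -2904], [0, 0, 0, 0, 0, 0, 0, 10648, 0, -1536,
    -23232, 0, 8256, 27544, 0, -17448, -19584, 0, 18519, 5632, 0, -9984, 0, 0, 2112], [0, 0, 0,
    0, 0, 0, 0, 0, 0, 0, 14641, 0, -2112, -31944, 0, 11352, 23232, 0, -22176, -5632, 0, 11352, 0,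
    0, -2112]], [[1331, 0, -192, -4235, 0, 1224, 5016, 0, -4352, -2624, 192, 4187, 512, -720,
    -2192, 0, 891, 192, 0, -363], [0, 0, 0, 0, 0, 0, 0, 0, -1331, 0, 192, 2035, 0, -912, -1744,
    0, 1467, 704, 0, -984, 0, 0, 264], [0, 0, 0, 0, 0, 0, 0, 0, -1331, 0, 192, 2904, 0, -1032,
    -3080, 0, 2136, 1920, 0, -1965, -512, 0, 960, 0, 0, -192], [0, 0, 0, 0, 0, 0, 0, 0, 0, 0, 0,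
    -1331, 0, 192, 2904, 0, -1032, -2112, 0, 2016, 512, 0, -1032, 0, 0, 192]], [0, 0, 3993, 0,
    -576, -8712, 0, 13744, 6336, -1536, -15889, -1536, 6336, 13744, 0, -8712, -576, 0, 3993], [0,
    0, 0, 0, 1], 1, 0, 11, 0, (-1, -2, -4, 5, 11, 1, 0), 11, [[0, 0, 0, 1, -1], [], [], [0, 0, 0,
    -1], [], [], [], [], [0, -1], [], [], [-1, 1]], (1, -5, -11, -2, -4, 21, 44), 1, 0, 1, 3, 3⟩,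
   ⟨2, [[1], [1, 1, 0, 0, 0, 0, 0, 0, 0, 1, 1], [0, 0, 0, 0, 0, 0, 0, 0, 0, 0, 1]], [[-10, -9, 0,
    0, 0, 0, 0, 0, -90, -82, -90, 0, 0, 0, 0, 0, 0, -9, -10], [0, 0, 0, 0, 0, 0, 0, 0, 0, -100,
    -90, 0, 0, 0, 0, 0, 0, 0, -10]], [[10, 19, 9, 0, 0, 0, 0, 0, 0, 11, 10, 9, 0, 0, 0, 0, 0, 0,
    1, 1], [0, 0, 0, 0, 0, 0, 0, 0, 0, 0, 10, 9, 0, 0, 0, 0, 0, 0, 0, 1]], [-10, -9, 0, 0, 0, 0,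
    0, 0, -90, -82, -90, 0, 0, 0, 0, 0, 0, -9, -10], [0, 0, 1], 1, 0, 10, 0, (1, 1, 0, -5, -1, 0,
    1), 10, [[1, 1], [0, 1], [], [], [], [], [], [], [], [0, 1], [0, 1, 1]], (1, 5, -1, -1, 0, 0,
    1), -1, 0, 1, 1, 2⟩]

theorem all_checked : ∀ n < 61, Chk (Qs.getD n []) (dats.getD n default) := by
  decide +kernel

end Pool.Agent.V5helper2.QL
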