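import Pool.Agent.V5helper2.QL.Asm
import Pool.Agent.V5helper2.QL.Dat

/-!
# The limit point theorem for checked data
-/

set_option autoImplicit false

namespace Pool.Agent.V5helper2.QL

open Polynomial Filter MeasureTheory Pool.Agent.H261R2.CM

noncomputable section

theorem lM_of_okMap (lau : S_LAU) {L : List (ℤ × ℤ × ℤ)} {d : ℕ} {A : List (List ℤ)}
    {mp : ℤ × ℤ × ℤ × ℤ × ℤ × ℤ × ℤ} (hd : A.length = d + 1) (h : okMap L A mp) :
    lM L = mM (G2 d (aL A)) := by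
  rw [mM_G2 hd]
  obtain ⟨s, a, b, c, e, u, v⟩ := mp
  exact lau (terms 0 A) L s a b c e u v h.1 h.2.1 h.2.2

theorem aL_ne_zero {A : List (List ℤ)} {d : ℕ} (h : gcdL (A.getD d []) = 1) : aL A d ≠ 0 := by
  intro h0
  have := ofL_ne_zero_mod h 2 Nat.prime_two
  unfold aL at h0
  rw [h0] at this
  simp at this

/-- The limit point theorem. -/
theorem limit_point (mink : S_MINK) (fix : S_FIX) (core1 : S_CORE1) (core2 : S_CORE2)
    (elim : S_ELIM) (nz : S_NZ) (fub : S_FUB) (lau : S_LAU) (lim : S_LIM)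
    {L : List (ℤ × ℤ × ℤ)} {D : Dat} (h : Chk L D) (ε : ℝ) (hε : 0 < ε) :
    ∃ P : ℤ[X], P ≠ 0 ∧ 0 < |m1 P - lM L| ∧ |m1 P - lM L| < ε := by
  obtain ⟨hd, hmon, hc0, hcert, hg, hki, hc1, hc2, hcomb, hmp, hd', hg', hN, hpq, hj, hl1, hl2,
    hlt, hmp'⟩ := h
  have hmonic : (aL D.A D.d).Monic := monic_ofL hmon
  have e1 : lM L = mM (G2 D.d (aL D.A)) := lM_of_okMap lau hd hmp
  have e2 : lM L = mM (G2 D.d' (aL D.A')) := lM_of_okMap lau hd' hmp'
  have hβ : 1 < lM L := by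
    rw [e2]
    exact fub_check fub (aL_ne_zero hg') D.p D.q D.N D.j D.K hN hpq hj hl1 hl2 hlt
  obtain ⟨hG, hT⟩ := lim D.d (aL D.A) hmonic.ne_zero
  rw [← e1] at hT
  have hM : ∀ᶠ m : ℕ in atTop, (Pm D.d (aL D.A) m).Monic ∧
      IsUnit ((Pm D.d (aL D.A) m).coeff 0) := by
    filter_upwards [Pm_monic hmonic, eventually_gt_atTop 0] with m hm hm0
    refine ⟨hm, ?_⟩
    rw [Pm_coeff_zero hm0, aL, ofL_coeff_zero, Int.isUnit_iff]
    exact hc0
  have hB := thmB mink fix core1 core2 elim nz D.d (aL D.A) (ofL D.R) _ _ (lM L) hM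
    (cert hd hcert) (ofL_ne_zero_mod hg) (nz_of_check hd hki hc1 hc2 hcomb) hβ
  have hF : ∃ᶠ m : ℕ in atTop, m1 (Pm D.d (aL D.A) m) ≠ lM L := by
    intro hcon
    refine hB (hcon.mono fun m hm => ?_)
    exact not_not.1 hm
  have hE : ∀ᶠ m : ℕ in atTop, |m1 (Pm D.d (aL D.A) m) - lM L| < ε := by
    have := Metric.tendsto_nhds.1 hT ε hε
    simpa [Real.dist_eq] using this
  obtain ⟨m, hm1, hm2, hm3⟩ := (hF.and_eventually (hE.and hM)).exists
  exact ⟨_, hm3.1.ne_zero, abs_pos.2 (sub_ne_zero.2 hm1), hm2⟩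

end

end Pool.Agent.V5helper2.QL
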