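import Pool.Agent.V5helper2.QL.Stm

/-!
# Polynomials as lists of coefficients
-/

set_option autoImplicit false

namespace Pool.Agent.V5helper2.QL

open Polynomial Filter MeasureTheory Pool.Agent.H261R2.CM

/-- Horner evaluation of a list of integer coefficients. -/
def hev {R : Type*} [CommRing R] (x : R) : List ℤ → R
  | [] => 0
  | c :: l => (c : R) + x * hev x l

/-- Horner evaluation of a list of lists. -/
def hev2 {R : Type*} [CommRing R] (x y : R) : List (List ℤ) → R
  | [] => 0
  | l :: L => hev x l + y * hev2 x y L

def addL : List ℤ → List ℤ → List ℤ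
  | [], m => m
  | a :: l, [] => a :: l
  | a :: l, b :: m => (a + b) :: addL l m

def sclL (c : ℤ) (l : List ℤ) : List ℤ := l.map fun a => c * a

def mulL : List ℤ → List ℤ → List ℤ
  | [], _ => []
  | a :: l, m => addL (sclL a m) (0 :: mulL l m)

def derL : List ℤ → List ℤ
  | [] => []
  | _ :: l => addL l (0 :: derL l)

def add2 : List (List ℤ) → List (List ℤ) → List (List ℤ)
  | [], m => m
  | a :: l, [] => a :: l
  | a :: l, b :: m => addL a b :: add2 l m

def mul2 : List (List ℤ) → List (List ℤ) → List (List ℤ)
  | [], _ => []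
  | a :: l, m => add2 (m.map (mulL a)) ([] :: mul2 l m)

def isz (l : List ℤ) : Bool := l.all fun a => a == 0

def isz2 (L : List (List ℤ)) : Bool := L.all isz

section
variable {R : Type*} [CommRing R] (x y : R)

theorem hev_add (l m : List ℤ) : hev x (addL l m) = hev x l + hev x m := by
  induction l generalizing m with
  | nil => simp [addL, hev]
  | cons a l ih =>
    cases m with
    | nil => simp [addL, hev]
    | cons b m => simp only [addL, hev, ih]; push_cast; ring

theorem hev_scl (c : ℤ) (l : List ℤ) : hev x (sclL c l) = c * hev x l := by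
  induction l with
  | nil => simp [sclL, hev]
  | cons a l ih =>
    simp only [sclL, List.map_cons, hev] at ih ⊢
    rw [ih]; push_cast; ring

theorem hev_mul (l m : List ℤ) : hev x (mulL l m) = hev x l * hev x m := by
  induction l with
  | nil => simp [mulL, hev]
  | cons a l ih =>
    simp only [mulL, hev_add, hev_scl, hev, ih]; push_cast; ring

theorem hev2_add (l m : List (List ℤ)) : hev2 x y (add2 l m) = hev2 x y l + hev2 x y m := by
  induction l generalizing m with
  | nil => simp [add2, hev2]
  | cons a l ih =>
    cases m with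
    | nil => simp [add2, hev2]
    | cons b m => simp only [add2, hev2, ih, hev_add]; ring

theorem hev2_map_mul (l : List ℤ) (m : List (List ℤ)) :
    hev2 x y (m.map (mulL l)) = hev x l * hev2 x y m := by
  induction m with
  | nil => simp [hev2]
  | cons a m ih => simp only [List.map_cons, hev2, ih, hev_mul]; ring

theorem hev2_mul (l m : List (List ℤ)) : hev2 x y (mul2 l m) = hev2 x y l * hev2 x y m := by
  induction l with
  | nil => simp [mul2, hev2]
  | cons a l ih =>
    simp only [mul2, hev2_add, hev2_map_mul, hev2, ih, hev]; ring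

theorem hev_isz {l : List ℤ} (h : isz l = true) : hev x l = 0 := by
  induction l with
  | nil => simp [hev]
  | cons a l ih =>
    simp only [isz, List.all_cons, Bool.and_eq_true, beq_iff_eq] at h ih
    simp [hev, h.1, ih h.2]

theorem hev2_isz {l : List (List ℤ)} (h : isz2 l = true) : hev2 x y l = 0 := by
  induction l with
  | nil => simp [hev2]
  | cons a l ih =>
    simp only [isz2, List.all_cons, Bool.and_eq_true] at h ih
    simp [hev2, hev_isz x h.1, ih h.2]

theorem map_hev {S : Type*} [CommRing S] (f : R →+* S) (l : List ℤ) :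
    f (hev x l) = hev (f x) l := by
  induction l with
  | nil => simp [hev]
  | cons a l ih => simp [hev, ih]

end

noncomputable section

/-- The polynomial with given list of coefficients. -/
def ofL (l : List ℤ) : ℤ[X] := hev X l

theorem derivative_ofL (l : List ℤ) : derivative (ofL l) = ofL (derL l) := by
  unfold ofL
  induction l with
  | nil => simp [hev, derL]
  | cons a l ih =>
    simp only [hev, derL, hev_add, derivative_add, derivative_mul, derivative_X, ih]
    simp

/-- The polynomials `a_j` from the list of the lists of coefficients. -/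
def aL (A : List (List ℤ)) (j : ℕ) : ℤ[X] := ofL (A.getD j [])

theorem sum_aL {S : Type*} [CommRing S] (f : ℤ[X] →+* S) (y : S) (A : List (List ℤ)) :
    ∑ j ∈ Finset.range A.length, f (aL A j) * y ^ j = hev2 (f X) y A := by
  induction A with
  | nil => simp [hev2]
  | cons l A ih =>
    rw [List.length_cons, Finset.sum_range_succ', hev2, ← ih, Finset.mul_sum, add_comm]
    congr 1
    · simp [aL, ofL, map_hev]
    · refine Finset.sum_congr rfl fun j _ => ?_
      simp only [aL, List.getD_cons_succ]
      ring

theorem toC_eval_ofL (l : List ℤ) (z : ℂ) : (toC (ofL l)).eval z = hev z l := by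
  have h : (toC (ofL l)).eval z = (Polynomial.eval₂RingHom (Int.castRingHom ℂ) z) (ofL l) := by
    simp [toC, eval_map]
  rw [h, ofL, map_hev]
  simp

theorem cert {d : ℕ} {A U V : List (List ℤ)} {R : List ℤ} (hd : A.length = d + 1)
    (h : isz2 (add2 (add2 (mul2 U A) (mul2 V (A.map derL))) [sclL (-1) R]) = true) :
    hev2 (C X) (X : ℤ[X][X]) U * (∑ j ∈ Finset.range (d + 1), C (aL A j) * X ^ j) +
      hev2 (C X) (X : ℤ[X][X]) V * (∑ j ∈ Finset.range (d + 1), C (derivative (aL A j)) * X ^ j) =
      C (ofL R) := by
  have h1 := hev2_isz (C X : ℤ[X][X]) (X : ℤ[X][X]) h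
  rw [hev2_add, hev2_add, hev2_mul, hev2_mul] at h1
  have h2 : (∑ j ∈ Finset.range (d + 1), C (aL A j) * X ^ j : ℤ[X][X]) =
      hev2 (C X : ℤ[X][X]) (X : ℤ[X][X]) A := by
    rw [← hd]
    exact sum_aL (C : ℤ[X] →+* ℤ[X][X]) X A
  have h3 : (∑ j ∈ Finset.range (d + 1), C (derivative (aL A j)) * X ^ j : ℤ[X][X]) =
      hev2 (C X : ℤ[X][X]) (X : ℤ[X][X]) (A.map derL) := by
    rw [← hd, ← List.length_map (as := A) derL,
      ← sum_aL (C : ℤ[X] →+* ℤ[X][X]) X (A.map derL)]
    refine Finset.sum_congr rfl fun j hj => ?_
    congr 2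
    unfold aL
    rw [derivative_ofL]
    have hj' : j < A.length := by simpa using hj
    simp [List.getD_eq_getElem?_getD, hj']
  have h4 : hev2 (C X : ℤ[X][X]) (X : ℤ[X][X]) [sclL (-1) R] = - C (ofL R) := by
    simp only [hev2, mul_zero, add_zero, hev_scl]
    rw [ofL, map_hev]
    push_cast
    ring
  rw [h4] at h1
  rw [h2, h3]
  linear_combination h1

/-- The gcd of the coefficients. -/
def gcdL : List ℤ → ℕ
  | [] => 0
  | c :: l => Nat.gcd c.natAbs (gcdL l)

theorem map_ofL_zero {p : ℕ} (l : List ℤ)
    (h : (ofL l).map (Int.castRingHom (ZMod p)) = 0) : p ∣ gcdL l := by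
  induction l with
  | nil => simp [gcdL]
  | cons c l ih =>
    have e : (ofL (c :: l)).map (Int.castRingHom (ZMod p)) =
        C (c : ZMod p) + X * (ofL l).map (Int.castRingHom (ZMod p)) := by
      simp [ofL, hev]
    rw [e] at h
    have h0 : (c : ZMod p) = 0 := by
      have := congrArg (fun q => Polynomial.coeff q 0) h
      simpa using this
    rw [h0, C_0, zero_add] at h
    have h1 : (ofL l).map (Int.castRingHom (ZMod p)) = 0 := by
      ext n
      have := congrArg (fun q => Polynomial.coeff q (n + 1)) h
      simpa [coeff_X_mul] using this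
    refine Nat.dvd_gcd ?_ (ih h1)
    rw [← Int.natCast_dvd]
    exact (ZMod.intCast_zmod_eq_zero_iff_dvd c p).1 h0

theorem ofL_ne_zero_mod {l : List ℤ} (h : gcdL l = 1) (p : ℕ) (hp : p.Prime) :
    (ofL l).map (Int.castRingHom (ZMod p)) ≠ 0 := by
  intro h0
  have := map_ofL_zero l h0
  rw [h] at this
  exact hp.one_lt.ne' (Nat.dvd_one.1 this)

theorem ofL_degree_lt (l : List ℤ) : (ofL l).degree < l.length ∨ l = [] := by
  induction l with
  | nil => right; rfl
  | cons c l ih =>
    left
    have e : ofL (c :: l) = C c + X * ofL l := by simp [ofL, hev]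
    rw [e]
    refine lt_of_le_of_lt (degree_add_le _ _) (max_lt ?_ ?_)
    · refine lt_of_le_of_lt degree_C_le ?_
      rw [List.length_cons]
      exact_mod_cast Nat.succ_pos _
    · rcases ih with h | h
      · rw [degree_mul, degree_X, List.length_cons]
        by_cases h0 : ofL l = 0
        · rw [h0]; simp
        · rw [degree_eq_natDegree h0] at h ⊢
          have : (ofL l).natDegree < l.length := by exact_mod_cast h
          have h2 : 1 + (ofL l).natDegree < l.length + 1 := by omega
          exact_mod_cast h2
      · subst h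
        simp [ofL, hev]

theorem ofL_append (l : List ℤ) (c : ℤ) : ofL (l ++ [c]) = ofL l + C c * X ^ l.length := by
  induction l with
  | nil => simp [ofL, hev]
  | cons a l ih =>
    have e1 : ofL (a :: l ++ [c]) = C a + X * ofL (l ++ [c]) := by simp [ofL, hev]
    have e2 : ofL (a :: l) = C a + X * ofL l := by simp [ofL, hev]
    rw [e1, e2, ih, List.length_cons]
    ring

theorem monic_ofL {l : List ℤ} (h : l.getLast? = some 1) : (ofL l).Monic := by
  obtain ⟨l', rfl⟩ : ∃ l', l = l' ++ [1] := by
    rw [List.getLast?_eq_some_iff] at h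
    exact h
  rw [ofL_append, C_1, one_mul, add_comm]
  rcases ofL_degree_lt l' with h1 | h1
  · exact monic_X_pow_add h1
  · subst h1; simp [ofL, hev]

end

end Pool.Agent.V5helper2.QL
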