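import Pool.Agent.V5helper2.QL.Stm

/-!
# Job REAL
-/

set_option autoImplicit false

namespace Pool.Agent.V5helper2.QL

open Polynomial Filter MeasureTheory Pool.Agent.H261R2.CM

noncomputable section

theorem real_gt (f : ℂ[X]) (hf : f.Monic) (a : ℂ) (ha : f.eval a = 0) :
    (1 < ‖a‖ → 1 < f.mahlerMeasure) ∧
    (‖f.eval 0‖ = 1 → ‖a‖ < 1 → 1 < f.mahlerMeasure) := by
  obtain ⟨h, hh⟩ := dvd_iff_isRoot.mpr (show f.IsRoot a from ha)
  have hm : h.Monic := by
    have h1 := hf
    rw [hh] at h1
    exact (monic_X_sub_C a).of_mul_monic_left h1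
  have h2 : f.mahlerMeasure = max 1 ‖a‖ * h.mahlerMeasure := by
    rw [hh, mahlerMeasure_mul, mahlerMeasure_X_sub_C]
  have h3 : 1 ≤ h.mahlerMeasure := by
    have := leadingCoeff_le_mahlerMeasure h
    rwa [hm.leadingCoeff, norm_one] at this
  constructor
  · intro h4
    rw [h2]
    have h5 : ‖a‖ ≤ max 1 ‖a‖ := le_max_right _ _
    nlinarith
  · intro h4 h5
    have h6 := norm_coeff_le_choose_mul_mahlerMeasure 0 h
    rw [Nat.choose_zero_right, Nat.cast_one, one_mul, coeff_zero_eq_eval_zero] at h6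
    have h7 : ‖a‖ * ‖h.eval 0‖ = 1 := by
      rw [← h4, hh, eval_mul, norm_mul]
      simp
    have h8 : (1:ℝ) ≤ max 1 ‖a‖ := le_max_left _ _
    rw [h2]
    have h9 : 0 ≤ ‖a‖ := norm_nonneg _
    have h10 : 1 < ‖h.eval 0‖ := by
      by_contra hcon
      push Not at hcon
      nlinarith [norm_nonneg (h.eval 0)]
    nlinarith

theorem real_toC_monic (f : ℤ[X]) (hf : f.Monic) : (toC f).Monic := hf.map _

theorem real1 (f : ℤ[X]) (hf : f.Monic) (ho : Odd f.natDegree) (h1 : 0 < f.eval (-1)) :
    1 < m1 f := by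
  -- the polynomial over the reals
  set F : ℝ[X] := f.map (Int.castRingHom ℝ) with hF
  have hFm : F.Monic := hf.map _
  have hFd : F.natDegree = f.natDegree := hf.natDegree_map _
  set g : ℝ[X] := -(F.comp (-X)) with hg
  have hnd : (-X : ℝ[X]).natDegree = 1 := by rw [natDegree_neg, natDegree_X]
  have hglc : g.leadingCoeff = 1 := by
    rw [hg, leadingCoeff_neg, leadingCoeff_comp (by rw [hnd]; exact one_ne_zero),
      hFm.leadingCoeff, leadingCoeff_neg, leadingCoeff_X, hFd, ho.neg_one_pow]
    norm_num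
  have hgd : 0 < g.degree := by
    rw [← natDegree_pos_iff_degree_pos, hg, natDegree_neg, natDegree_comp, hnd, hFd]
    have := ho.pos
    omega
  have hlim := tendsto_atTop_of_leadingCoeff_nonneg g hgd (by rw [hglc]; exact zero_le_one)
  obtain ⟨x, hx1, hx2⟩ := ((hlim.eventually (eventually_gt_atTop 0)).and
    (eventually_gt_atTop 1)).exists
  have hFx : F.eval (-x) < 0 := by
    have : g.eval x = -(F.eval (-x)) := by
      rw [hg, eval_neg, eval_comp, eval_neg, eval_X]
    rw [this] at hx1
    linarith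
  have hF1 : 0 < F.eval (-1) := by
    have h2 : F.eval ((Int.castRingHom ℝ) (-1)) = Int.castRingHom ℝ (f.eval (-1)) := by
      rw [hF, eval_map_apply]
    have h3 : (Int.castRingHom ℝ) (-1) = -1 := by simp
    rw [h3] at h2
    rw [h2]
    simpa using h1
  obtain ⟨y, hy, hy0⟩ : ∃ y ∈ Set.Icc (-x) (-1), F.eval y = 0 := by
    have := intermediate_value_Icc (f := fun y : ℝ => F.eval y) (show -x ≤ -1 by linarith)
      F.continuous.continuousOn
    exact this ⟨hFx.le, hF1.le⟩
  have hy1 : y < -1 := by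
    rcases lt_or_eq_of_le hy.2 with h | h
    · exact h
    · rw [h] at hy0; linarith
  have hr : (toC f).eval (y : ℂ) = 0 := by
    have h2 : toC f = F.map (algebraMap ℝ ℂ) := by
      rw [hF, Polynomial.map_map, toC]
      congr 1
    rw [h2]
    have h3 : (F.map (algebraMap ℝ ℂ)).eval ((algebraMap ℝ ℂ) y) = (algebraMap ℝ ℂ) (F.eval y) :=
      eval_map_apply _ _
    rw [hy0, map_zero] at h3
    exact h3
  refine (real_gt (toC f) (real_toC_monic f hf) y hr).1 ?_
  rw [Complex.norm_real, Real.norm_eq_abs, abs_of_neg (by linarith)]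
  linarith

theorem real2 : 1 < m1 (X ^ 8 + X ^ 7 + 1 : ℤ[X]) := by
  by_contra hcon
  have hmon : (X ^ 8 + X ^ 7 + 1 : ℤ[X]).Monic := by
    monicity!
  set f : ℂ[X] := toC (X ^ 8 + X ^ 7 + 1 : ℤ[X]) with hf
  have hfm : f.Monic := real_toC_monic _ hmon
  have hfe : f = X ^ 8 + X ^ 7 + 1 := by
    rw [hf, toC]
    simp
  have hdeg : f.natDegree = 8 := by
    rw [hfe]
    compute_degree!
  have hev : ∀ z : ℂ, f.eval z = z ^ 8 + z ^ 7 + 1 := by
    intro z
    rw [hfe]
    simp
  have hroot : ∀ a ∈ f.roots, ‖1 - a‖ = Real.sqrt 3 := by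
    intro a ha
    have h0 : f.eval a = 0 := (mem_roots'.mp ha).2
    have h1 : ‖a‖ = 1 := by
      apply le_antisymm
      · by_contra h
        push Not at h
        exact hcon ((real_gt f hfm a h0).1 h)
      · by_contra h
        push Not at h
        refine hcon ((real_gt f hfm a h0).2 ?_ h)
        rw [hev]
        norm_num
    have h2 : a * (starRingEnd ℂ) a = 1 := by
      rw [Complex.mul_conj, Complex.normSq_eq_norm_sq, h1]
      norm_num
    rw [hev] at h0
    have h3 : ((starRingEnd ℂ) a) ^ 8 + ((starRingEnd ℂ) a) ^ 7 + 1 = 0 := by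
      have := congrArg (starRingEnd ℂ) h0
      simpa using this
    set b := (starRingEnd ℂ) a with hb
    have h4 : a ^ 8 + a + 1 = 0 := by
      have h5 : a ^ 8 * (b ^ 8 + b ^ 7 + 1) = (a * b) ^ 8 + a * (a * b) ^ 7 + a ^ 8 := by ring
      rw [h3, h2] at h5
      linear_combination -h5
    have hane : a ≠ 0 := by
      intro h
      rw [h, zero_mul] at h2
      exact zero_ne_one h2
    have h6 : a ^ 6 = 1 := by
      have : a * (a ^ 6 - 1) = 0 := by linear_combination h0 - h4
      rcases mul_eq_zero.mp this with h | h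
      · exact absurd h hane
      · linear_combination h
    have h7 : a ^ 2 + a + 1 = 0 := by
      linear_combination h4 - a ^ 2 * h6
    have h8 : a + b + 1 = 0 := by
      linear_combination b * h7 - (a + 1) * h2
    have h9 : ‖1 - a‖ ^ 2 = 3 := by
      have h10 : ((‖1 - a‖ ^ 2 : ℝ) : ℂ) = 3 := by
        rw [← Complex.normSq_eq_norm_sq, ← Complex.mul_conj]
        rw [map_sub, map_one, ← hb]
        linear_combination h2 - h8
      exact_mod_cast h10
    rw [← h9, Real.sqrt_sq (norm_nonneg _)]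
  have hcard : f.roots.card = 8 := by
    rw [← hdeg]
    exact (splits_iff_card_roots.mp (IsAlgClosed.splits f))
  have h1 : f = (f.roots.map fun a => X - C a).prod := by
    have := (IsAlgClosed.splits f).eq_prod_roots
    rw [hfm.leadingCoeff, C_1, one_mul] at this
    exact this
  have h2 : ‖f.eval 1‖ = (f.roots.map fun a => ‖1 - a‖).prod := by
    conv_lhs => rw [h1]
    rw [eval_multiset_prod, Multiset.map_map]
    have h3 : ∀ s : Multiset ℂ, ‖s.prod‖ = (s.map fun a => ‖a‖).prod := by
      intro s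
      exact map_multiset_prod (normHom : ℂ →*₀ ℝ) s
    rw [h3, Multiset.map_map]
    congr 1
    refine Multiset.map_congr rfl fun a _ => ?_
    simp
  rw [Multiset.map_congr rfl hroot, Multiset.map_const', Multiset.prod_replicate, hcard, hev] at h2
  have h3 : Real.sqrt 3 ^ 8 = 81 := by
    have : Real.sqrt 3 ^ 8 = (Real.sqrt 3 ^ 2) ^ 4 := by ring
    rw [this, Real.sq_sqrt (by norm_num)]
    norm_num
  rw [h3] at h2
  norm_num at h2

theorem real : S_REAL := ⟨real1, real2⟩

end

end Pool.Agent.V5helper2.QL
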