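import Pool.Agent.H261R2.CM.K4

/-!
# Project QL: all 61 numbers `M(Q_n)` of MP_5efc61_nt are limit points of the set of Mahler measures

Statements of the jobs. Job `FOO` is to prove `theorem foo : S_FOO` in the file
`Pool/Agent/V5helper2/QL/P_FOO.lean`, namespace `Pool.Agent.V5helper2.QL` (import this file and
whatever you need). All jobs are independent of each other. The paper proofs are in the comments.

Plan. In suitable coordinates `M(Q_n) = M(F)`, `F = ∑_{j ≤ d} a_j(x) y^j`, and `M(P_m) → M(F)` for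
`P_m = ∑_j a_j(z) z^(j m)`. To prove: `M(P_m) ≠ M(F)` for infinitely many `m`. If `M(P_m) = β > 1` for
all large `m` then the product `b` of the roots of `P_m` outside of the unit circle is `± β`, hence
the multiset `S` of these roots is fixed by all automorphisms fixing `b` (FIX). `b` is a unit, so
`ℚ(b) ≠ ℚ` and by Minkowski a prime `p` ramifies in `ℚ(b)` (MINK). So `∏_{s ∈ S} (X - s)` has two
conjugates which are congruent modulo a prime over `p`, and `P_m` mod `p` has a factor `g²` (CORE1).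
For `p ∣ m` this `g` divides a fixed polynomial `R(z)` (ELIM). Hence `P_m` has a root outside of the
unit circle whose degree is bounded independently of `m` (CORE2), by Northcott it is in a finite
set, and for large `m` this is a contradiction (NZ).
-/

set_option autoImplicit false

namespace Pool.Agent.V5helper2.QL

open Polynomial Filter MeasureTheory Pool.Agent.H261R2.CM

noncomputable section

/-- An algebraic closure of `ℚ` (a new type, to have only one `ℚ`-algebra structure on it). -/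
def Om : Type := AlgebraicClosure ℚ

instance : Field Om := inferInstanceAs (Field (AlgebraicClosure ℚ))
instance : CharZero Om := inferInstanceAs (CharZero (AlgebraicClosure ℚ))
instance : IsAlgClosed Om := inferInstanceAs (IsAlgClosed (AlgebraicClosure ℚ))

theorem isAlg_aux : @Algebra.IsAlgebraic ℚ (AlgebraicClosure ℚ) _ _ DivisionRing.toRatAlgebra := by
  have e : (AlgebraicClosure.instAlgebra ℚ : Algebra ℚ (AlgebraicClosure ℚ)) =
    DivisionRing.toRatAlgebra := Subsingleton.elim _ _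
  have h := AlgebraicClosure.isAlgebraic ℚ
  rw [e] at h
  exact h

instance : Algebra.IsAlgebraic ℚ Om := isAlg_aux
instance : IsAlgClosure ℚ Om := ⟨inferInstance, inferInstance⟩
-- `Normal ℚ Om`, `IsGalois ℚ Om` are found by instance search

theorem numberField_adjoin (b : Om) : NumberField (IntermediateField.adjoin ℚ ({b} : Set Om)) := by
  have : FiniteDimensional ℚ (IntermediateField.adjoin ℚ ({b} : Set Om)) :=
    IntermediateField.adjoin.finiteDimensional (Algebra.IsIntegral.isIntegral b)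
  exact ⟨⟩

/-- The ring of all algebraic integers. -/
abbrev AA : Type := integralClosure ℤ Om

/-- An embedding of the algebraic closure of `ℚ` in `ℂ`. -/
def io : Om →+* ℂ := (IsAlgClosed.lift : Om →ₐ[ℚ] ℂ).toRingHom

/-- The action of an automorphism on the algebraic integers; `((sg σ c : AA) : Om) = σ c` is `rfl`
(`AlgEquiv.coe_mapIntegralClosure`). -/
def sg (σ : Om ≃ₐ[ℚ] Om) : AA ≃ₐ[ℤ] AA := (σ.restrictScalars ℤ).mapIntegralClosure

open Classical in
/-- The multiset of the roots of `P` outside of the unit circle. -/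
def outs (P : ℤ[X]) : Multiset Om :=
  (P.map (Int.castRingHom Om)).roots.filter fun z => 1 < ‖io z‖

/-- `P_m = ∑_{j ≤ d} a_j z ^ (j m)`. -/
def Pm (d : ℕ) (a : ℕ → ℤ[X]) (m : ℕ) : ℤ[X] := ∑ j ∈ Finset.range (d + 1), a j * X ^ (j * m)

/-- The polynomial `∑_{j ≤ d} a_j(x) y ^ j` in two variables. -/
def G2 (d : ℕ) (a : ℕ → ℤ[X]) : MvPolynomial (Fin 2) ℤ :=
  ∑ j ∈ Finset.range (d + 1),
    Polynomial.aeval (MvPolynomial.X 0 : MvPolynomial (Fin 2) ℤ) (a j) * MvPolynomial.X 1 ^ j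

/-- **Job MINK** (ramification, by Minkowski). Let `b` be irrational. There is a prime `p` such that
for every homomorphism `φ` of the ring of algebraic integers to a field of characteristic `p` there
are automorphisms `σ`, `τ` with `σ b ≠ τ b` which agree modulo `φ` on the integers of `ℚ(b)`.

Proof. `K = ℚ⟮b⟯` is a number field with `1 < finrank ℚ K`, so `2 < |discr K|`
(`NumberField.abs_discr_gt_two`); let `p` be a prime divisor of `discr K`. Let `ω` be an integral
basis and `τ_i : K →ₐ[ℚ] Om` the embeddings, `N = (τ_i ω_j)` a matrix over `AA`; then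
`(det N)² = discr K` (`Algebra.discr_eq_det_embeddingsMatrixReindex_pow_two`, `NumberField.coe_discr`).
So `φ(det N) = 0`, and there is `v ≠ 0` over `k` with `∑_i v_i φ(τ_i ω_j) = 0` for all `j`
(`Matrix.exists_vecMul_eq_zero_iff`), hence `∑_i v_i φ(τ_i c) = 0` for all `c ∈ 𝓞 K`. By Dedekind
(`linearIndependent_monoidHom (𝓞 K) k`) two of the monoid homomorphisms `c ↦ φ(τ_i c)` are equal,
`i ≠ j`. As `b` generates `K`, `τ_i b ≠ τ_j b`. Finally `τ_i b` is a root of `minpoly ℚ b`, so there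
is `σ : Om ≃ₐ[ℚ] Om` with `σ b = τ_i b` (`minpoly.exists_algEquiv_of_root` or similar), and then
`σ = τ_i` on `K`. -/
def S_MINK : Prop := ∀ b : Om, b ∉ (⊥ : IntermediateField ℚ Om) →
  ∃ p : ℕ, p.Prime ∧ ∀ (k : Type) [Field k] [CharP k p] (φ : AA →+* k),
    ∃ σ τ : Om ≃ₐ[ℚ] Om, σ b ≠ τ b ∧
      ∀ c : AA, (c : Om) ∈ IntermediateField.adjoin ℚ {b} → φ (sg σ c) = φ (sg τ c)

/-- **Job FIX**. Proof. Let `T` be the multiset of all roots of `P` in `Om`; `T.map io` is the
multiset of the roots of `P` in `ℂ` (`Om` is algebraically closed), so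
(1) is `Polynomial.mahlerMeasure_eq_leadingCoeff_mul_prod_roots`.
(2) complex conjugation maps `(outs P).map io` to itself (it fixes `toC P` and preserves the norm).
(3) `T.map σ = T`, so `U := (outs P).map σ ≤ T`, and `U` and `S := outs P` have the same cardinality.
`∏ U = ∏ (U ∩ S) ∏ (U - S)` and `∏ S = ∏ (U ∩ S) ∏ (S - U)`; the elements of `U - S` have norm `≤ 1`
(because `S` contains all elements of `T` of norm `> 1` with full multiplicity), those of `S - U`
norm `> 1`. So the equality of the norms of the products forces `S - U = 0`, i.e. `S ≤ U`. -/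
def S_FIX : Prop := ∀ P : ℤ[X], P.Monic →
  m1 P = ‖io (outs P).prod‖ ∧ (io (outs P).prod).im = 0 ∧
  ∀ σ : Om ≃ₐ[ℚ] Om, ‖io (σ (outs P).prod)‖ = ‖io (outs P).prod‖ → (outs P).map σ = outs P

/-- **Job CORE1**. Proof. Let `S = outs P`; its elements are in `AA`. The coefficients of
`f = ∏_{s ∈ S} (X - s)` are in `AA` and fixed by all `ρ` with `ρ b = b`, hence they are in `ℚ⟮b⟯`
(`InfiniteGalois.fixedField_fixingSubgroup`). So `φ` maps `∏_{s ∈ S} (X - σ s)` and
`∏_{s ∈ S} (X - τ s)` to the same polynomial. Let `A = S.map σ - S.map τ`, `B = S.map τ - S.map σ`,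
`G = S.map σ ∩ S.map τ`. As `A + G = S.map σ` and `B + G = S.map τ`, cancelling `∏_{G} (X - φ s)`
gives `g := ∏_A (X - φ s) = ∏_B (X - φ s)` in `k[X]`. And `A + B ≤ T`, the multiset of all the roots
(`S.map σ ∪ S.map τ ≤ T`, and `A + B + G ≤ S.map σ ∪ S.map τ`), `P = ∏_T (X - s)` over `AA`, so
`g² = ∏_{A + B} (X - φ s)` divides `P` over `k`. -/
def S_CORE1 : Prop := ∀ (P : ℤ[X]) (b : Om) (k : Type) [Field k] (φ : AA →+* k)
  (σ τ : Om ≃ₐ[ℚ] Om), P.Monic →
  (∀ c : AA, (c : Om) ∈ IntermediateField.adjoin ℚ {b} → φ (sg σ c) = φ (sg τ c)) →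
  (∀ ρ : Om ≃ₐ[ℚ] Om, ρ b = b → (outs P).map ρ = outs P) →
  ∃ g : k[X], g ^ 2 ∣ P.map (Int.castRingHom k) ∧
    (open Classical in g.natDegree = ((outs P).map σ - (outs P).map τ).card)

/-- **Job CORE2** (only multisets and Galois groups; `outs P` may be any multiset `S`).
Proof. `A := S.map σ - S.map τ ≠ 0` since the two multisets are different and of the same
cardinality. Take `α₁ ∈ A` and `α = σ⁻¹ α₁ ∈ S`, of the same degree. The roots of
`minpoly ℚ α₁` are simple, and each is `ρ α₁` for some automorphism `ρ`; choose `ρ_r` for every root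
`r`. Map `r` to the pair `(ρ_r σ b, ρ_r τ b)`, an element of `X × X`, `X` the set of the conjugates of
`b`, `|X| = finrank`. The fibre of a pair has at most `D` elements: if `r₀`, `r` have the same pair then
`ρ_r σ S = ρ_{r₀} σ S` and `ρ_r τ S = ρ_{r₀} τ S` by the hypothesis, so
`r ∈ ρ_r A = ρ_r σ S - ρ_r τ S = ρ_{r₀} A`, which has `|A| ≤ D` elements. -/
def S_CORE2 : Prop := ∀ (S : Multiset Om) (b : Om) (σ τ : Om ≃ₐ[ℚ] Om) (D : ℕ),
  (∀ ρ : Om ≃ₐ[ℚ] Om, ρ b = b → S.map ρ = S) → S.map σ ≠ S.map τ →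
  (open Classical in (S.map σ - S.map τ).card ≤ D) →
  ∃ α ∈ S, (minpoly ℚ α).natDegree ≤
    (Module.finrank ℚ (IntermediateField.adjoin ℚ ({b} : Set Om))) ^ 2 * D

/-- **Job ELIM**. Proof. Let `P̄ = P_m` over `k`, `p ∣ m`. Then `g ∣ P̄` and `g ∣ P̄'`, and
`P̄' = ∑ a_j' X^(jm)` as `(m : k) = 0`. Substituting `X ^ m` for the outer variable in the identity
(and mapping to `k`) gives `R̄ = Ū(X, X^m) P̄ + V̄(X, X^m) P̄'`. -/
def S_ELIM : Prop := ∀ (k : Type) [Field k] (p : ℕ) [CharP k p] (d : ℕ) (a : ℕ → ℤ[X]) (R : ℤ[X])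
  (U V : ℤ[X][X]) (m : ℕ) (g : k[X]), p ∣ m →
  U * (∑ j ∈ Finset.range (d + 1), C (a j) * X ^ j) +
    V * (∑ j ∈ Finset.range (d + 1), C (derivative (a j)) * X ^ j) = C R →
  g ^ 2 ∣ (Pm d a m).map (Int.castRingHom k) → g ∣ R.map (Int.castRingHom k)

/-- **Job NZ**. Proof. Take the largest `J ≤ d` with `a_J(z) ≠ 0`; then
`|P_m(z)| ≥ |z|^(J m) (|a_J(z)| - ∑_{j < J} |a_j(z)| |z|^(-m))`. -/
def S_NZ : Prop := ∀ (d : ℕ) (a : ℕ → ℤ[X]) (z : ℂ), 1 < ‖z‖ →
  (∃ j ∈ Finset.range (d + 1), (toC (a j)).eval z ≠ 0) →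
  ∀ᶠ m : ℕ in atTop, (toC (Pm d a m)).eval z ≠ 0

/-- **Job FUB**. Proof. `F = G2 d a` has `value F (s, t) = q_s(ez t)` with
`q_s = ∑_j C (ev1 (a j) s) X^j`. `∫∫ log |F| = ∫_s log M(q_s) ds` by Fubini (`F_integrable` in
`H261R2/CM/F.lean`), `q_s` has `M(q_s) ≥ |ev1 (a d) s|` and
`|ev1 (a j) s| ≤ choose d j * M(q_s)` (Mathlib: `Polynomial.norm_coeff_le_choose_mul_mahlerMeasure`).
(1) so `∫∫ log |F| ≥ ∫ log |ev1 (a d) s| ds = log m1 (a d)`; (2) `m1 (a d) ≥ 1`, and the first
inequality is strict near the point `x₀ = ez s₀`. (Look at `D_log_m1`, `D_ae_ne`,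
`D_intervalIntegrable_log`, `D_continuous_ev1` in `H261R2/CM/D.lean`.) -/
def S_FUB : Prop := ∀ (d : ℕ) (a : ℕ → ℤ[X]), a d ≠ 0 →
  m1 (a d) ≤ mM (G2 d a) ∧
  ∀ (x₀ : ℂ) (j : ℕ), ‖x₀‖ = 1 → j ≤ d →
    (d.choose j : ℝ) * ‖(toC (a d)).eval x₀‖ < ‖(toC (a j)).eval x₀‖ → 1 < mM (G2 d a)

/-- Value of the Laurent polynomial `∑ c x^i y^j` (a list of triples `(c, i, j)`) at the point
`(exp (2 π i t_0), exp (2 π i t_1))` of the torus. -/
def lval (L : List (ℤ × ℤ × ℤ)) (t : Fin 2 → ℝ) : ℂ :=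
  (L.map fun q => (q.1 : ℂ) *
    Complex.exp (2 * (Real.pi : ℂ) * Complex.I * ((q.2.1 : ℂ) * (t 0 : ℂ) + (q.2.2 : ℂ) * (t 1 : ℂ)))).sum

/-- Mahler measure of a Laurent polynomial given as a list of terms. -/
def lM (L : List (ℤ × ℤ × ℤ)) : ℝ :=
  Real.exp (∫ t in Set.Icc (0 : Fin 2 → ℝ) 1, Real.log ‖lval L t‖)

/-- **Job LAU** (monomial substitutions). Proof. `‖lval L' t‖ = ‖lval L (A t)‖` for the linear map
`A t = (a t_0 + b t_1, c t_0 + e t_1)` up to a unit factor. `log ‖lval L ·‖` comes from a measurable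
function on the torus `Fin 2 → UnitAddCircle`, the map `A` is a surjective endomorphism of this
compact group (the torus is divisible and `A · adj A = det A`), so it preserves the Haar measure
(`AddMonoidHom.measurePreserving` / `MonoidHom.measurePreserving`). For the passage from
`Set.Icc 0 1` to the torus see `F_restrict_cube`, `F_int_cube` in `H261R2/CM/F.lean`, or
`UnitAddTorus`. (If you prefer another proof: the statement is for all `a b c e` with
`a e - b c ≠ 0`.) -/
def S_LAU : Prop := ∀ (L L' : List (ℤ × ℤ × ℤ)) (s a b c e u v : ℤ), (s = 1 ∨ s = -1) →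
  a * e - b * c ≠ 0 →
  L'.Perm (L.map fun q => (s * q.1, u + a * q.2.1 + c * q.2.2, v + b * q.2.1 + e * q.2.2)) →
  lM L' = lM L

/-- **Job MEM**: a polynomial in one variable as an element of `MvPolynomial (Fin 1) ℤ`. -/
def S_MEM : Prop := ∀ P : ℤ[X], P ≠ 0 →
  mM (Polynomial.aeval (MvPolynomial.X 0 : MvPolynomial (Fin 1) ℤ) P) = m1 P

/-- **Job LIM** (Boyd-Lawton; use `m1_lim` in `H261R2/CM/K4.lean` with `e m = ![1, m]`), and
`G2 d a ≠ 0` if `a d ≠ 0`. -/
def S_LIM : Prop := ∀ (d : ℕ) (a : ℕ → ℤ[X]), a d ≠ 0 →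
  G2 d a ≠ 0 ∧ Tendsto (fun m : ℕ => m1 (Pm d a m)) atTop (nhds (mM (G2 d a)))

/-- **Job REAL**. (1) odd degree, positive at `-1`: real root `< -1` (intermediate value theorem).
(2) if the Mahler measure is `1` then all roots are on the unit circle
(`Polynomial.pow_eq_one_of_mahlerMeasure_eq_one`), and a root `α` satisfies `α^8 + α^7 = -1` with
three numbers of norm one, so `α^7`, `α^8` are the two primitive cube roots of unity, `α² + α + 1 = 0`,
and `‖1 - α‖² = 3`; but `3 = |f(1)| = ∏ ‖1 - α_i‖ = 3^4`, a contradiction. -/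
def S_REAL : Prop :=
  (∀ f : ℤ[X], f.Monic → Odd f.natDegree → 0 < f.eval (-1) → 1 < m1 f) ∧
    1 < m1 (X ^ 8 + X ^ 7 + 1 : ℤ[X])

end

end Pool.Agent.V5helper2.QL
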